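import Mathlib

/-!
# Birkhoff's pointwise ergodic theorem (ergodic case)
-/

open MeasureTheory Filter Topology

namespace Pool.Agent.RWPP

section

variable {α : Type*}

/-- `bkMax f g n x = max_{1 ≤ k ≤ n + 1} S_k g x`. -/
noncomputable def bkMax (f : α → α) (g : α → ℝ) : ℕ → α → ℝ
  | 0 => g
  | n + 1 => fun x => g x + max 0 (bkMax f g n (f x))

theorem bkMax_succ (f : α → α) (g : α → ℝ) (n : ℕ) (x : α) :
    bkMax f g (n + 1) x = g x + max 0 (bkMax f g n (f x)) := rfl

theorem le_bkMax (f : α → α) (g : α → ℝ) (n : ℕ) (x : α) : g x ≤ bkMax f g n x := by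
  cases n with
  | zero => exact le_rfl
  | succ n => rw [bkMax_succ]; linarith [le_max_left 0 (bkMax f g n (f x))]

theorem birkhoffSum_le_bkMax (f : α → α) (g : α → ℝ) (n : ℕ) :
    ∀ k ≤ n, ∀ x, birkhoffSum f g (k + 1) x ≤ bkMax f g n x := by
  induction n with
  | zero =>
    intro k hk x
    obtain rfl : k = 0 := by omega
    simpa using le_bkMax f g 0 x
  | succ n ih =>
    intro k hk x
    cases k with
    | zero => simpa using le_bkMax f g (n + 1) x
    | succ k =>
      rw [birkhoffSum_succ', bkMax_succ]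
      have := ih k (by omega) (f x)
      linarith [le_max_right 0 (bkMax f g n (f x))]

theorem bkMax_mono_succ (f : α → α) (g : α → ℝ) (n : ℕ) :
    ∀ x, bkMax f g n x ≤ bkMax f g (n + 1) x := by
  induction n with
  | zero => intro x; exact le_bkMax f g 1 x
  | succ n ih =>
    intro x
    rw [bkMax_succ, bkMax_succ f g (n + 1)]
    have := max_le_max (le_refl (0 : ℝ)) (ih (f x))
    linarith

theorem bkMax_mono (f : α → α) (g : α → ℝ) (x : α) : Monotone fun n => bkMax f g n x :=
  monotone_nat_of_le_succ fun n => bkMax_mono_succ f g n x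

variable [MeasurableSpace α] {μ : Measure α}

theorem measurable_bkMax {f : α → α} (hf : Measurable f) {g : α → ℝ} (hg : Measurable g)
    (n : ℕ) : Measurable (bkMax f g n) := by
  induction n with
  | zero => exact hg
  | succ n ih => exact hg.add (measurable_const.max (ih.comp hf))

theorem integrable_bkMax {f : α → α} (hf : MeasurePreserving f μ μ) {g : α → ℝ}
    (hg : Integrable g μ) (n : ℕ) : Integrable (bkMax f g n) μ := by
  induction n with
  | zero => exact hg
  | succ n ih =>
    have h1 : Integrable (fun x => bkMax f g n (f x)) μ := hf.integrable_comp_of_integrable ih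
    have h2 : Integrable (fun x => max 0 (bkMax f g n (f x))) μ := by
      have := h1.pos_part
      simpa [max_comm] using this
    exact hg.add h2

/-- Step A: if `∫ g < 0` then almost surely the Birkhoff sums are bounded above. -/
theorem birkhoffSum_bddAbove {f : α → α} (hf : Ergodic f μ) {g : α → ℝ}
    (hgm : Measurable g) (hg : Integrable g μ) (hneg : ∫ x, g x ∂μ < 0) :
    ∀ᵐ x ∂μ, ∃ M : ℝ, ∀ n, birkhoffSum f g (n + 1) x ≤ M := by
  have hmp : MeasurePreserving f μ μ := hf.toMeasurePreserving
  set A : Set α := {x | ∀ M : ℕ, ∃ n, (M : ℝ) < bkMax f g n x} with hA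
  have hAm : MeasurableSet A := by
    have : A = ⋂ M : ℕ, ⋃ n, {x | (M : ℝ) < bkMax f g n x} := by
      ext x; simp [hA]
    rw [this]
    exact MeasurableSet.iInter fun M => MeasurableSet.iUnion fun n =>
      measurableSet_lt measurable_const (measurable_bkMax hmp.measurable hgm n)
  have hAi : f ⁻¹' A = A := by
    ext x
    simp only [hA, Set.mem_preimage, Set.mem_ofPred_eq]
    constructor
    · intro h M
      obtain ⟨N, hN⟩ := exists_nat_gt ((M : ℝ) - g x)
      obtain ⟨n, hn⟩ := h N
      refine ⟨n + 1, ?_⟩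
      rw [bkMax_succ]
      linarith [le_max_right 0 (bkMax f g n (f x))]
    · intro h M
      obtain ⟨N, hN⟩ := exists_nat_gt ((M : ℝ) + |g x|)
      obtain ⟨n, hn⟩ := h N
      have hn' : (N : ℝ) < bkMax f g (n + 1) x := hn.trans_le (bkMax_mono_succ f g n x)
      refine ⟨n, ?_⟩
      rw [bkMax_succ] at hn'
      have h1 : (M : ℝ) < max 0 (bkMax f g n (f x)) := by
        linarith [le_abs_self (g x)]
      rcases lt_max_iff.1 h1 with h2 | h2
      · exact absurd h2 (not_lt.2 (Nat.cast_nonneg M))
      · exact h2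
  rcases hf.toPreErgodic.ae_mem_or_ae_notMem hAm hAi with h | h
  · exfalso
    set hh : ℕ → α → ℝ := fun n x => bkMax f g (n + 1) x - bkMax f g n (f x) with hhh
    have hgf : Integrable (fun x => g (f x)) μ := hmp.integrable_comp_of_integrable hg
    have hlim : Tendsto (fun n => ∫ x, hh n x ∂μ) atTop (𝓝 (∫ x, g x ∂μ)) := by
      refine tendsto_integral_of_dominated_convergence (fun x => |g x| + |g (f x)|) ?_ ?_ ?_ ?_
      · intro n
        exact ((measurable_bkMax hmp.measurable hgm (n + 1)).sub
          ((measurable_bkMax hmp.measurable hgm n).comp hmp.measurable)).aestronglyMeasurable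
      · exact hg.abs.add hgf.abs
      · intro n
        refine Eventually.of_forall fun x => ?_
        simp only [hhh, bkMax_succ, Real.norm_eq_abs]
        have h1 := le_bkMax f g n (f x)
        rcases le_total 0 (bkMax f g n (f x)) with h2 | h2
        · rw [max_eq_right h2]
          have : g x + bkMax f g n (f x) - bkMax f g n (f x) = g x := by ring
          rw [this]
          linarith [abs_nonneg (g (f x))]
        · rw [max_eq_left h2]
          have h3 : |bkMax f g n (f x)| ≤ |g (f x)| := by
            rw [abs_of_nonpos h2, abs_of_nonpos (h1.trans h2)]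
            linarith
          calc |g x + 0 - bkMax f g n (f x)| ≤ |g x + 0| + |bkMax f g n (f x)| := abs_sub _ _
            _ ≤ |g x| + |g (f x)| := by rw [add_zero]; linarith
      · filter_upwards [h] with x hx
        have hfx : f x ∈ A := by rw [← Set.mem_preimage, hAi]; exact hx
        obtain ⟨N, hN⟩ := hfx 0
        refine tendsto_const_nhds.congr' ?_
        filter_upwards [eventually_ge_atTop N] with n hn
        have h2 : 0 ≤ bkMax f g n (f x) := by
          have := bkMax_mono f g (f x) hn
          simp only [Nat.cast_zero] at hN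
          exact hN.le.trans this
        simp only [hhh, bkMax_succ, max_eq_right h2]
        ring
    have hpos : ∀ n, 0 ≤ ∫ x, hh n x ∂μ := by
      intro n
      have h1 : ∫ x, hh n x ∂μ
          = ∫ x, bkMax f g (n + 1) x ∂μ - ∫ x, bkMax f g n (f x) ∂μ :=
        integral_sub (integrable_bkMax hmp hg (n + 1))
          (hmp.integrable_comp_of_integrable (integrable_bkMax hmp hg n))
      have h2 : ∫ x, bkMax f g n (f x) ∂μ = ∫ x, bkMax f g n x ∂μ := by
        have h3 := integral_map (μ := μ) hmp.measurable.aemeasurable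
          (f := bkMax f g n) (measurable_bkMax hmp.measurable hgm n).aestronglyMeasurable
        rw [hmp.map_eq] at h3
        exact h3.symm
      rw [h1, h2]
      have := integral_mono (integrable_bkMax hmp hg n) (integrable_bkMax hmp hg (n + 1))
        (fun x => bkMax_mono_succ f g n x)
      linarith
    have := ge_of_tendsto' hlim hpos
    linarith
  · filter_upwards [h] with x hx
    simp only [hA, Set.mem_ofPred_eq, not_forall, not_exists, not_lt] at hx
    obtain ⟨M, hM⟩ := hx
    exact ⟨M, fun n => (birkhoffSum_le_bkMax f g n n le_rfl x).trans (hM n)⟩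

/-- One-sided estimate. -/
theorem birkhoffSum_le_of_lt [IsProbabilityMeasure μ] {f : α → α} (hf : Ergodic f μ) {g : α → ℝ}
    (hgm : Measurable g) (hg : Integrable g μ) (c : ℝ) (hc : ∫ x, g x ∂μ < c) :
    ∀ᵐ x ∂μ, ∀ᶠ n : ℕ in atTop, birkhoffSum f g n x / n < c := by
  obtain ⟨c', hc1, hc2⟩ := exists_between hc
  have hi : Integrable (fun x => g x - c') μ := hg.sub (integrable_const c')
  have h1 : ∫ x, (g x - c') ∂μ < 0 := by
    rw [integral_sub hg (integrable_const c')]
    simp
    linarith
  filter_upwards [birkhoffSum_bddAbove hf (hgm.sub_const c') hi h1] with x hx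
  obtain ⟨M, hM⟩ := hx
  have h2 : Tendsto (fun n : ℕ => M / n) atTop (𝓝 0) := tendsto_const_div_atTop_nhds_zero_nat M
  have h3 := (tendsto_order.1 h2).2 (c - c') (by linarith)
  filter_upwards [h3, eventually_ge_atTop 1] with n hn1 hn2
  have hn0 : (0 : ℝ) < n := by exact_mod_cast hn2
  obtain ⟨k, rfl⟩ : ∃ k, n = k + 1 := ⟨n - 1, by omega⟩
  have h4 := hM k
  have h5 : birkhoffSum f (fun x => g x - c') (k + 1) x
      = birkhoffSum f g (k + 1) x - (k + 1 : ℕ) * c' := by
    simp [birkhoffSum, Finset.sum_sub_distrib]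
  rw [h5] at h4
  rw [div_lt_iff₀ hn0] at hn1 ⊢
  linarith

/-- P1 for measurable functions. -/
theorem birkhoff_of_measurable [IsProbabilityMeasure μ] {f : α → α} (hf : Ergodic f μ)
    {g : α → ℝ} (hgm : Measurable g) (hg : Integrable g μ) :
    ∀ᵐ x ∂μ, Tendsto (fun n : ℕ => birkhoffSum f g n x / n) atTop (𝓝 (∫ x, g x ∂μ)) := by
  have hup : ∀ᵐ x ∂μ, ∀ m : ℕ, ∀ᶠ n : ℕ in atTop,
      birkhoffSum f g n x / n < ∫ x, g x ∂μ + 1 / ((m : ℝ) + 1) := by
    rw [ae_all_iff]
    intro m
    refine birkhoffSum_le_of_lt hf hgm hg _ ?_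
    have : (0 : ℝ) < 1 / ((m : ℝ) + 1) := by positivity
    linarith
  have hlo : ∀ᵐ x ∂μ, ∀ m : ℕ, ∀ᶠ n : ℕ in atTop,
      birkhoffSum f (fun x => - g x) n x / n < -(∫ x, g x ∂μ) + 1 / ((m : ℝ) + 1) := by
    rw [ae_all_iff]
    intro m
    refine birkhoffSum_le_of_lt hf hgm.neg hg.neg _ ?_
    have : (0 : ℝ) < 1 / ((m : ℝ) + 1) := by positivity
    have h0 : ∫ x, (-g) x ∂μ = -∫ x, g x ∂μ := integral_neg g
    rw [h0]
    linarith
  filter_upwards [hup, hlo] with x h1 h2
  rw [tendsto_order]
  constructor
  · intro a ha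
    obtain ⟨m, hm⟩ := exists_nat_one_div_lt (sub_pos.2 ha)
    filter_upwards [h2 m] with n hn
    have h3 : birkhoffSum f (fun x => - g x) n x = - birkhoffSum f g n x := by
      simp [birkhoffSum]
    rw [h3, neg_div] at hn
    linarith
  · intro a ha
    obtain ⟨m, hm⟩ := exists_nat_one_div_lt (sub_pos.2 ha)
    filter_upwards [h1 m] with n hn
    linarith

end

/-- P1: Birkhoff's pointwise ergodic theorem for ergodic maps of a probability space. -/
theorem birkhoff {α : Type*} [MeasurableSpace α] {μ : Measure α} [IsProbabilityMeasure μ]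
    {f : α → α} (hf : Ergodic f μ) {g : α → ℝ} (hg : Integrable g μ) :
    ∀ᵐ x ∂μ, Tendsto (fun n : ℕ => birkhoffSum f g n x / n) atTop (𝓝 (∫ x, g x ∂μ)) := by
  obtain ⟨g', hg'm, hgg'⟩ := hg.1.aemeasurable
  have hg' : Integrable g' μ := hg.congr hgg'
  have h1 := birkhoff_of_measurable hf hg'm hg'
  have h2 : ∀ᵐ x ∂μ, ∀ k : ℕ, g (f^[k] x) = g' (f^[k] x) := by
    rw [ae_all_iff]
    intro k
    exact (hf.toMeasurePreserving.iterate k).quasiMeasurePreserving.ae_eq_comp hgg'
  rw [integral_congr_ae hgg']
  filter_upwards [h1, h2] with x hx1 hx2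
  have : ∀ n : ℕ, birkhoffSum f g n x = birkhoffSum f g' n x := by
    intro n
    exact Finset.sum_congr rfl fun k _ => hx2 k
  simpa only [this] using hx1

end Pool.Agent.RWPP
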