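import Pool.Agent.Lib_MP_68f671_pr.Defs

/-!
# Block structure of one-dimensional configurations and the harmonic coordinates
-/

open MeasureTheory ProbabilityTheory Filter Topology
open scoped ENNReal

namespace Pool.Agent.RWPP

noncomputable section

/-! ### Shifts -/

@[simp] lemma sh_apply (s t : ℤ) (ξ : Cf) : sh s ξ t = ξ (t + s) := rfl

@[simp] lemma sh_zero (ξ : Cf) : sh 0 ξ = ξ := by
  funext t; simp

lemma sh_sh (s t : ℤ) (ξ : Cf) : sh s (sh t ξ) = sh (s + t) ξ := by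
  funext u; simp [add_assoc]

lemma Fl_sh (s t : ℤ) (ξ : Cf) : Fl (sh t ξ) s ↔ Fl ξ (s + t) := by
  simp only [Fl, sh_apply]
  rw [show s + 1 + t = s + t + 1 by ring]

/-- Reversal. -/
def rev (ξ : Cf) : Cf := fun t => ξ (-t)

@[simp] lemma rev_apply (ξ : Cf) (t : ℤ) : rev ξ t = ξ (-t) := rfl

@[simp] lemma rev_rev (ξ : Cf) : rev (rev ξ) = ξ := by
  funext t; simp

lemma sh_rev (s : ℤ) (ξ : Cf) : sh s (rev ξ) = rev (sh (-s) ξ) := by
  funext t; simp only [sh_apply, rev_apply]; congr 1; ring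

lemma Fl_rev (s : ℤ) (ξ : Cf) : Fl (rev ξ) s ↔ Fl ξ (-s - 1) := by
  simp only [Fl, rev_apply]
  rw [show -(s + 1) = -s - 1 by ring, show -s - 1 + 1 = -s by ring]
  exact and_comm

lemma Good.shift {ξ : Cf} (h : Good ξ) (s : ℤ) : Good (sh s ξ) := by
  refine ⟨fun t => ?_, fun t => ?_, fun t => ?_⟩
  · have := h.1 (t + s)
    simp only [sh_apply]
    rwa [show t + 1 + s = t + s + 1 by ring]
  · obtain ⟨u, hu, hf⟩ := h.2.1 (t + s)
    refine ⟨u - s, by linarith, ?_⟩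
    rw [Fl_sh]; simpa using hf
  · obtain ⟨u, hu, hf⟩ := h.2.2 (t + s)
    refine ⟨u - s, by linarith, ?_⟩
    rw [Fl_sh]; simpa using hf

lemma Good.reverse {ξ : Cf} (h : Good ξ) : Good (rev ξ) := by
  refine ⟨fun t => ?_, fun t => ?_, fun t => ?_⟩
  · have := h.1 (-t - 1)
    simp only [rev_apply]
    rw [show -(t + 1) = -t - 1 by ring]
    rw [show -t - 1 + 1 = -t by ring] at this
    exact this.symm
  · obtain ⟨u, hu, hf⟩ := h.2.2 (-t - 1)
    refine ⟨-u - 1, by linarith, ?_⟩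
    rw [Fl_rev]; rw [show -(-u - 1) - 1 = u by ring]; exact hf
  · obtain ⟨u, hu, hf⟩ := h.2.1 (-t - 1)
    refine ⟨-u - 1, by linarith, ?_⟩
    rw [Fl_rev]; rw [show -(-u - 1) - 1 = u by ring]; exact hf

/-! ### The ends of the block of `0` -/

/-- The distance from `0` to the end of its block. -/
def rr (ξ : Cf) : ℕ := sInf {r : ℕ | Fl ξ r}

/-- The distance from `0` to the beginning of its block. -/
def oo (ξ : Cf) : ℕ := sInf {o : ℕ | Fl ξ (-(o : ℤ) - 1)}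

lemma rr_rev (ξ : Cf) : rr (rev ξ) = oo ξ := by
  unfold rr oo
  congr 1
  ext r
  simp only [Set.mem_ofPred_eq, Fl_rev]

lemma oo_rev (ξ : Cf) : oo (rev ξ) = rr ξ := by
  rw [← rr_rev, rev_rev]

lemma sInf_eq_of {S : Set ℕ} {k : ℕ} (hk : k ∈ S) (h : ∀ j < k, j ∉ S) : sInf S = k := by
  apply le_antisymm (Nat.sInf_le hk)
  by_contra hlt
  push Not at hlt
  exact h _ hlt (Nat.sInf_mem ⟨k, hk⟩)

lemma Good.rr_mem {ξ : Cf} (h : Good ξ) : Fl ξ (rr ξ) := by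
  have hne : {r : ℕ | Fl ξ r}.Nonempty := by
    obtain ⟨u, hu, hf⟩ := h.2.1 0
    refine ⟨u.toNat, ?_⟩
    simp only [Set.mem_ofPred_eq]
    rwa [Int.toNat_of_nonneg hu]
  exact Nat.sInf_mem hne

lemma not_Fl_of_lt_rr {ξ : Cf} {j : ℕ} (hj : j < rr ξ) : ¬ Fl ξ j :=
  fun h => Nat.notMem_of_lt_sInf hj h

lemma rr_of_Fl {ξ : Cf} (h : Fl ξ 0) : rr ξ = 0 := by
  apply sInf_eq_of (by simpa using h)
  intro j hj; omega

lemma oo_sh_one_of_Fl {ξ : Cf} (h : Fl ξ 0) : oo (sh 1 ξ) = 0 := by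
  apply sInf_eq_of
  · simp only [Set.mem_ofPred_eq, Fl_sh]; simpa using h
  · intro j hj; omega

lemma Good.rr_sh_one {ξ : Cf} (h : Good ξ) (h0 : ¬ Fl ξ 0) : rr (sh 1 ξ) + 1 = rr ξ := by
  have h1 : 1 ≤ rr ξ := by
    by_contra hlt
    have : rr ξ = 0 := by omega
    have h2 := h.rr_mem
    rw [this] at h2
    exact h0 (by simpa using h2)
  have : rr (sh 1 ξ) = rr ξ - 1 := by
    apply sInf_eq_of
    · simp only [Set.mem_ofPred_eq, Fl_sh]
      have h2 := h.rr_mem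
      rwa [show ((rr ξ - 1 : ℕ) : ℤ) + 1 = (rr ξ : ℤ) by omega]
    · intro j hj
      simp only [Set.mem_ofPred_eq, Fl_sh]
      have := not_Fl_of_lt_rr (ξ := ξ) (j := j + 1) (by omega)
      simpa using this
  omega

lemma Good.oo_sh_one {ξ : Cf} (h : Good ξ) (h0 : ¬ Fl ξ 0) : oo (sh 1 ξ) = oo ξ + 1 := by
  have hm : Fl ξ (-(oo ξ : ℤ) - 1) := by
    have := h.reverse.rr_mem
    rw [rr_rev, Fl_rev] at this
    exact this
  apply sInf_eq_of
  · simp only [Set.mem_ofPred_eq, Fl_sh]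
    have : (-((oo ξ + 1 : ℕ) : ℤ) - 1 + 1) = -(oo ξ : ℤ) - 1 := by push_cast; ring
    rwa [this]
  · intro j hj
    simp only [Set.mem_ofPred_eq, Fl_sh]
    rcases j with _ | j
    · simpa using h0
    · have h3 : j < oo ξ := by omega
      have h4 := Nat.notMem_of_lt_sInf h3
      simp only [Set.mem_ofPred_eq] at h4
      have : (-((j + 1 : ℕ) : ℤ) - 1 + 1) = -(j : ℤ) - 1 := by push_cast; ring
      rwa [this]

/-! ### The block currents -/

/-- The diagonal coefficient of the recurrence. -/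
def Dn (ξ : Cf) : ℝ := 3 + ((oo ξ : ℝ) + rr ξ) / 4

/-- A site of the next block. -/
def Aa (ξ : Cf) : Cf := sh (rr ξ + 1) ξ

/-- A site of the previous block. -/
def Bb (ξ : Cf) : Cf := sh (-(oo ξ + 1)) ξ

lemma three_le_Dn (ξ : Cf) : 3 ≤ Dn ξ := by
  unfold Dn; have : (0 : ℝ) ≤ oo ξ := by positivity
  have : (0 : ℝ) ≤ rr ξ := by positivity
  linarith

lemma Dn_pos (ξ : Cf) : 0 < Dn ξ := by linarith [three_le_Dn ξ]

/-- The iterates of the contraction. -/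
def Fit : ℕ → Cf → ℝ
  | 0, _ => 0
  | m + 1, ξ => (3 - Fit m (Aa ξ) - Fit m (Bb ξ)) / Dn ξ

lemma Fit_mem (m : ℕ) : ∀ ξ, 0 ≤ Fit m ξ ∧ Fit m ξ ≤ 1 := by
  induction m with
  | zero => intro ξ; simp [Fit]
  | succ m ih =>
    intro ξ
    have hA := ih (Aa ξ)
    have hB := ih (Bb ξ)
    have hD := three_le_Dn ξ
    simp only [Fit]
    constructor
    · apply div_nonneg <;> linarith [hA.1, hA.2, hB.1, hB.2]
    · rw [div_le_one (by linarith)]
      linarith [hA.1, hA.2, hB.1, hB.2]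

lemma Fit_step (m : ℕ) : ∀ ξ, |Fit (m + 1) ξ - Fit m ξ| ≤ (2 / 3 : ℝ) ^ m := by
  induction m with
  | zero =>
    intro ξ
    have := Fit_mem 1 ξ
    simp only [Fit, pow_zero, sub_zero] at this ⊢
    rw [abs_le]; constructor <;> linarith [this.1, this.2]
  | succ m ih =>
    intro ξ
    have hA := ih (Aa ξ)
    have hB := ih (Bb ξ)
    have hD := three_le_Dn ξ
    have hs : ∀ m ξ, Fit (m + 1) ξ = (3 - Fit m (Aa ξ) - Fit m (Bb ξ)) / Dn ξ :=
      fun _ _ => rfl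
    have e : Fit (m + 1 + 1) ξ - Fit (m + 1) ξ =
        -((Fit (m + 1) (Aa ξ) - Fit m (Aa ξ)) + (Fit (m + 1) (Bb ξ) - Fit m (Bb ξ))) / Dn ξ := by
      rw [hs (m + 1) ξ, hs m ξ]; ring
    rw [e, abs_div, abs_neg, abs_of_pos (Dn_pos ξ), div_le_iff₀ (Dn_pos ξ)]
    calc |Fit (m + 1) (Aa ξ) - Fit m (Aa ξ) + (Fit (m + 1) (Bb ξ) - Fit m (Bb ξ))|
        ≤ (2 / 3 : ℝ) ^ m + (2 / 3 : ℝ) ^ m := (abs_add_le _ _).trans (add_le_add hA hB)
      _ = (2 / 3 : ℝ) ^ (m + 1) * 3 := by ring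
      _ ≤ (2 / 3 : ℝ) ^ (m + 1) * Dn ξ := by gcongr

lemma Fit_tendsto (ξ : Cf) : ∃ x, Tendsto (fun m => Fit m ξ) atTop (𝓝 x) := by
  apply cauchySeq_tendsto_of_complete
  apply cauchySeq_of_le_geometric (2 / 3 : ℝ) 1 (by norm_num)
  intro n
  rw [Real.dist_eq, abs_sub_comm, one_mul]
  exact Fit_step n ξ

/-- The current through the block of `0`. -/
def F (ξ : Cf) : ℝ := (Fit_tendsto ξ).choose

lemma F_spec (ξ : Cf) : Tendsto (fun m => Fit m ξ) atTop (𝓝 (F ξ)) := (Fit_tendsto ξ).choose_spec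

lemma F_nonneg (ξ : Cf) : 0 ≤ F ξ := ge_of_tendsto' (F_spec ξ) fun m => (Fit_mem m ξ).1

lemma F_le_one (ξ : Cf) : F ξ ≤ 1 := le_of_tendsto' (F_spec ξ) fun m => (Fit_mem m ξ).2

lemma F_eq (ξ : Cf) : F ξ = (3 - F (Aa ξ) - F (Bb ξ)) / Dn ξ := by
  have h1 : Tendsto (fun m => Fit (m + 1) ξ) atTop (𝓝 (F ξ)) :=
    (F_spec ξ).comp (tendsto_add_atTop_nat 1)
  have h2 : Tendsto (fun m => Fit (m + 1) ξ) atTop (𝓝 ((3 - F (Aa ξ) - F (Bb ξ)) / Dn ξ)) := by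
    simp only [Fit]
    exact ((tendsto_const_nhds.sub (F_spec _)).sub (F_spec _)).div_const _
  exact tendsto_nhds_unique h1 h2

lemma F_mul (ξ : Cf) : F ξ * Dn ξ = 3 - F (Aa ξ) - F (Bb ξ) := by
  have h := Dn_pos ξ
  rw [F_eq ξ]; field_simp

lemma F_pos (ξ : Cf) : 0 < F ξ := by
  rw [F_eq ξ]
  apply div_pos _ (Dn_pos ξ)
  linarith [F_le_one (Aa ξ), F_le_one (Bb ξ)]

lemma Fit_rev (m : ℕ) : ∀ ξ, Fit m (rev ξ) = Fit m ξ := by
  induction m with
  | zero => intro ξ; rfl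
  | succ m ih =>
    intro ξ
    have hA : Aa (rev ξ) = rev (Bb ξ) := by
      unfold Aa Bb; rw [rr_rev, sh_rev]
    have hB : Bb (rev ξ) = rev (Aa ξ) := by
      unfold Aa Bb; rw [oo_rev, sh_rev, neg_neg]
    have hD : Dn (rev ξ) = Dn ξ := by
      unfold Dn; rw [rr_rev, oo_rev]; ring
    simp only [Fit, hA, hB, hD, ih]
    ring

lemma F_rev (ξ : Cf) : F (rev ξ) = F ξ := by
  apply tendsto_nhds_unique (F_spec (rev ξ))
  simp only [Fit_rev]
  exact F_spec ξ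

lemma Good.Aa_sh_one {ξ : Cf} (h : Good ξ) (h0 : ¬ Fl ξ 0) : Aa (sh 1 ξ) = Aa ξ := by
  have := h.rr_sh_one h0
  have e : ((rr (sh 1 ξ) : ℤ) + 1 + 1) = rr ξ + 1 := by omega
  unfold Aa
  rw [sh_sh, e]

lemma Good.Bb_sh_one {ξ : Cf} (h : Good ξ) (h0 : ¬ Fl ξ 0) : Bb (sh 1 ξ) = Bb ξ := by
  have e : (-(((oo ξ + 1 : ℕ) : ℤ) + 1) + 1) = -((oo ξ : ℤ) + 1) := by push_cast; ring
  unfold Bb
  rw [sh_sh, h.oo_sh_one h0, e]

lemma Good.Dn_sh_one {ξ : Cf} (h : Good ξ) (h0 : ¬ Fl ξ 0) : Dn (sh 1 ξ) = Dn ξ := by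
  unfold Dn
  rw [h.oo_sh_one h0, ← h.rr_sh_one h0]
  push_cast; ring

lemma Good.F_sh_one {ξ : Cf} (h : Good ξ) (h0 : ¬ Fl ξ 0) : F (sh 1 ξ) = F ξ := by
  rw [F_eq (sh 1 ξ), F_eq ξ, h.Aa_sh_one h0, h.Bb_sh_one h0, h.Dn_sh_one h0]

lemma Bb_sh_one_of_Fl {ξ : Cf} (h0 : Fl ξ 0) : Bb (sh 1 ξ) = ξ := by
  unfold Bb
  rw [sh_sh, oo_sh_one_of_Fl h0]
  simp

lemma Aa_of_Fl {ξ : Cf} (h0 : Fl ξ 0) : Aa ξ = sh 1 ξ := by
  unfold Aa
  rw [rr_of_Fl h0]
  simp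

/-! ### Cocycles -/

/-- The cocycle `∑_{0 ≤ t < s} g(sh t ξ)`, extended to negative `s`. -/
def coc (g : Cf → ℝ) (ξ : Cf) : ℤ → ℝ
  | (n : ℕ) => ∑ i ∈ Finset.range n, g (sh i ξ)
  | Int.negSucc n => - ∑ i ∈ Finset.range (n + 1), g (sh (-((i : ℤ) + 1)) ξ)

@[simp] lemma coc_zero (g : Cf → ℝ) (ξ : Cf) : coc g ξ 0 = 0 := by
  change coc g ξ ((0 : ℕ) : ℤ) = 0
  simp [coc]

lemma coc_natCast (g : Cf → ℝ) (ξ : Cf) (n : ℕ) :
    coc g ξ (n : ℤ) = ∑ i ∈ Finset.range n, g (sh i ξ) := rfl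

lemma coc_neg_succ (g : Cf → ℝ) (ξ : Cf) (n : ℕ) :
    coc g ξ (-((n : ℤ) + 1)) = - ∑ i ∈ Finset.range (n + 1), g (sh (-((i : ℤ) + 1)) ξ) := by
  rw [← Int.negSucc_eq]
  rfl

lemma coc_succ (g : Cf → ℝ) (ξ : Cf) (s : ℤ) : coc g ξ (s + 1) = coc g ξ s + g (sh s ξ) := by
  obtain ⟨n, rfl | rfl⟩ := s.eq_nat_or_neg
  · have : ((n : ℤ) + 1) = ((n + 1 : ℕ) : ℤ) := by push_cast; ring
    rw [this, coc_natCast, coc_natCast, Finset.sum_range_succ]
  · rcases n with _ | n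
    · simp only [Nat.cast_zero, neg_zero, zero_add, coc_zero]
      change coc g ξ ((1 : ℕ) : ℤ) = _
      rw [coc_natCast]; simp
    · have e1 : -(((n + 1 : ℕ) : ℤ)) = -((n : ℤ) + 1) := by push_cast; ring
      rw [e1, coc_neg_succ, Finset.sum_range_succ]
      rcases n with _ | n
      · simp
      · have e2 : -(((n + 1 : ℕ) : ℤ) + 1) + 1 = -((n : ℤ) + 1) := by push_cast; ring
        rw [e2, coc_neg_succ]
        ring

lemma coc_one (g : Cf → ℝ) (ξ : Cf) : coc g ξ 1 = g ξ := by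
  have := coc_succ g ξ 0
  simpa using this

lemma coc_add (g : Cf → ℝ) (ξ : Cf) (s t : ℤ) :
    coc g ξ (s + t) = coc g ξ s + coc g (sh s ξ) t := by
  induction t using Int.induction_on with
  | zero => simp
  | succ i ih =>
    rw [← add_assoc, coc_succ, ih, coc_succ, sh_sh, add_comm s (i : ℤ), add_assoc]
  | pred i ih =>
    have h1 := coc_succ g ξ (s + (-(i : ℤ) - 1))
    have h2 := coc_succ g (sh s ξ) (-(i : ℤ) - 1)
    rw [show s + (-(i : ℤ) - 1) + 1 = s + -(i : ℤ) by ring] at h1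
    rw [show (-(i : ℤ) - 1) + 1 = -(i : ℤ) by ring, sh_sh] at h2
    rw [show (-(i : ℤ) - 1) + s = s + (-(i : ℤ) - 1) by ring] at h2
    linarith

lemma coc_rev {g : Cf → ℝ} (hg : ∀ ζ, Good ζ → g (rev ζ) = g (sh (-1) ζ)) {ξ : Cf}
    (h : Good ξ) (s : ℤ) : coc g (rev ξ) s = - coc g ξ (-s) := by
  have key : ∀ t : ℤ, g (sh t (rev ξ)) = g (sh (-t - 1) ξ) := by
    intro t
    rw [sh_rev, hg _ (h.shift _), sh_sh]
    congr 2; ring
  induction s using Int.induction_on with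
  | zero => simp
  | succ i ih =>
    rw [coc_succ, ih, key]
    have h1 := coc_succ g ξ (-(i : ℤ) - 1)
    rw [show (-(i : ℤ) - 1) + 1 = -(i : ℤ) by ring] at h1
    rw [show -((i : ℤ) + 1) = -(i : ℤ) - 1 by ring]
    linarith
  | pred i ih =>
    have h0 := coc_succ g (rev ξ) (-(i : ℤ) - 1)
    rw [show (-(i : ℤ) - 1) + 1 = -(i : ℤ) by ring, key] at h0
    rw [show -(-(i : ℤ) - 1) - 1 = (i : ℤ) by ring] at h0
    have h1 := coc_succ g ξ (i : ℤ)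
    rw [show -(-(i : ℤ) - 1) = (i : ℤ) + 1 by ring]
    rw [neg_neg] at ih
    linarith

/-! ### The two cocycles -/

open Classical in
/-- The gradient of the harmonic coordinate. -/
def eta (ξ : Cf) : ℝ := if Fl ξ 0 then F ξ + F (sh 1 ξ) - 1 else F ξ / 4

open Classical in
/-- The indicator of a flip. -/
def fl1 (ξ : Cf) : ℝ := if Fl ξ 0 then 1 else 0

lemma Good.eta_rev {ξ : Cf} (h : Good ξ) : eta (rev ξ) = eta (sh (-1) ξ) := by
  unfold eta
  have e : sh 1 (sh (-1) ξ) = ξ := by rw [sh_sh]; simp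
  have h0 : Fl (rev ξ) 0 ↔ Fl (sh (-1) ξ) 0 := by
    rw [Fl_rev, Fl_sh]; simp
  by_cases hF : Fl (sh (-1) ξ) 0
  · rw [if_pos (h0.2 hF), if_pos hF, F_rev, sh_rev, F_rev, e]
    ring
  · rw [if_neg (fun h' => hF (h0.1 h')), if_neg hF, F_rev]
    have := (h.shift (-1)).F_sh_one hF
    rw [e] at this
    rw [this]

lemma fl1_rev (ξ : Cf) : fl1 (rev ξ) = fl1 (sh (-1) ξ) := by
  unfold fl1
  have h0 : Fl (rev ξ) 0 ↔ Fl (sh (-1) ξ) 0 := by
    rw [Fl_rev, Fl_sh]; simp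
  by_cases hF : Fl (sh (-1) ξ) 0
  · rw [if_pos (h0.2 hF), if_pos hF]
  · rw [if_neg (fun h' => hF (h0.1 h')), if_neg hF]

/-- Along a block. -/
lemma Good.block {ξ : Cf} (h : Good ξ) {t : ℕ} (ht : t ≤ rr ξ) :
    F (sh t ξ) = F ξ ∧ coc eta ξ t = t * F ξ / 4 ∧ coc fl1 ξ t = 0 := by
  induction t with
  | zero => simp
  | succ t ih =>
    obtain ⟨h1, h2, h3⟩ := ih (by omega)
    have hn : ¬ Fl (sh t ξ) 0 := by
      rw [Fl_sh]
      simpa using not_Fl_of_lt_rr (ξ := ξ) (j := t) (by omega)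
    have e : ((t + 1 : ℕ) : ℤ) = (t : ℤ) + 1 := by push_cast; ring
    refine ⟨?_, ?_, ?_⟩
    · have := (h.shift t).F_sh_one hn
      rw [sh_sh] at this
      rw [e, add_comm, this, h1]
    · rw [e, coc_succ, h2, eta, if_neg hn, h1]
      push_cast; ring
    · rw [e, coc_succ, h3, fl1, if_neg hn]; simp

/-- Through the end of the block. -/
lemma Good.block_end {ξ : Cf} (h : Good ξ) :
    coc eta ξ (rr ξ + 1) = rr ξ * F ξ / 4 + F ξ + F (Aa ξ) - 1 ∧ coc fl1 ξ (rr ξ + 1) = 1 := by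
  obtain ⟨h1, h2, h3⟩ := h.block le_rfl
  have hF : Fl (sh (rr ξ) ξ) 0 := by
    rw [Fl_sh]; simpa using h.rr_mem
  constructor
  · rw [coc_succ, h2, eta, if_pos hF, h1, sh_sh, Aa, add_comm (1 : ℤ)]
    ring
  · rw [coc_succ, h3, fl1, if_pos hF]; simp

/-! ### Jumps to the right -/

lemma tau_eq_of {σ : ℤ} {ξ : Cf} {k : ℕ} (hk : 1 ≤ k) (h : ξ (σ * k) = true)
    (h' : ∀ j : ℕ, 1 ≤ j → j < k → ξ (σ * j) = false) : tau σ ξ = k := by
  refine sInf_eq_of (S := {k : ℕ | 1 ≤ k ∧ ξ (σ * k) = true}) ⟨hk, h⟩ ?_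
  rintro j hj ⟨h1, h2⟩
  rw [h' j h1 hj] at h2
  exact absurd h2 (by simp)

lemma Good.jump_nonflip {ξ : Cf} (h : Good ξ) (h1 : ξ 1 = false) :
    jump 1 ξ = 2 ∧ jump 2 ξ = 2 := by
  have h2 : ξ 2 = true := by
    rcases h.1 1 with h' | h'
    · rw [h1] at h'; exact absurd h' (by simp)
    · simpa using h'
  constructor
  · have : tau 1 ξ = 2 := by
      apply tau_eq_of (by norm_num)
      · simpa using h2
      · intro j hj1 hj2
        have : j = 1 := by omega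
        subst this
        simpa using h1
    simp [jump, this]
  · have : tau 2 ξ = 1 := by
      apply tau_eq_of le_rfl
      · simpa using h2
      · intro j hj1 hj2; omega
    simp [jump, this]

/-- Inside a block points and empty sites alternate. -/
lemma Good.alternate {ξ : Cf} (h : Good ξ) (h0 : ξ 0 = true) {t : ℕ} (ht : t ≤ rr ξ) :
    (ξ t = true ↔ Even t) := by
  induction t with
  | zero => simpa using h0
  | succ t ih =>
    have ih' := ih (by omega)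
    have hn : ¬ Fl ξ t := not_Fl_of_lt_rr (by omega)
    have hg := h.1 t
    have e : ((t + 1 : ℕ) : ℤ) = (t : ℤ) + 1 := by push_cast; ring
    rw [e]
    by_cases hE : Even t
    · have h1 : ξ t = true := ih'.2 hE
      have h2 : ¬ ξ ((t : ℤ) + 1) = true := fun h' => hn ⟨h1, h'⟩
      constructor
      · intro h'; exact absurd h' h2
      · intro h'; rw [Nat.even_add_one] at h'; exact absurd hE h'
    · have h1 : ¬ ξ t = true := fun h' => hE (ih'.1 h')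
      have h2 : ξ ((t : ℤ) + 1) = true := by
        rcases hg with h' | h'
        · exact absurd h' h1
        · exact h'
      exact ⟨fun _ => by rw [Nat.even_add_one]; exact hE, fun _ => h2⟩

lemma Good.jump_flip {ξ : Cf} (h : Good ξ) (h0 : ξ 0 = true) (h1 : ξ 1 = true) :
    jump 1 ξ = 1 ∧ jump 2 ξ = rr (sh 1 ξ) + 2 := by
  constructor
  · have : tau 1 ξ = 1 := by
      apply tau_eq_of le_rfl
      · simpa using h1
      · intro j hj1 hj2; omega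
    simp [jump, this]
  · set ζ := sh 1 ξ with hζ
    have hG : Good ζ := h.shift 1
    have hz0 : ζ 0 = true := by simpa [hζ] using h1
    have hend := hG.rr_mem
    have hev : Even (rr ζ) := (hG.alternate hz0 le_rfl).1 hend.1
    obtain ⟨m, hm⟩ := hev
    have h2 : ξ (2 * ((m + 1 : ℕ) : ℤ)) = true := by
      have := hend.2
      simp only [hζ, sh_apply] at this
      rw [← hζ] at this
      have e : (2 * ((m + 1 : ℕ) : ℤ)) = (rr ζ : ℤ) + 1 + 1 := by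
        rw [hm]; push_cast; ring
      rw [e]; exact this
    have : tau 2 ξ = m + 1 := by
      apply tau_eq_of (by omega) h2
      intro j hj1 hj2
      have h3 : 2 * j - 1 ≤ rr ζ := by omega
      have h4 := hG.alternate hz0 h3
      have h5 : ¬ Even (2 * j - 1) := by
        rw [Nat.not_even_iff_odd]
        exact ⟨j - 1, by omega⟩
      have h6 : ¬ ζ ((2 * j - 1 : ℕ) : ℤ) = true := fun h' => h5 (h4.1 h')
      have e : (2 * (j : ℤ)) = ((2 * j - 1 : ℕ) : ℤ) + 1 := by omega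
      rw [e]
      simpa [hζ] using h6
    rw [jump, this, hm]
    push_cast; ring

/-- The right part of the harmonicity relations. -/
lemma Good.right {ξ : Cf} (h : Good ξ) (h0 : ξ 0 = true) :
    coc eta ξ (jump 1 ξ) + coc eta ξ (jump 2 ξ) = F ξ ∧
    |coc eta ξ (jump 1 ξ)| ≤ 1 ∧ |coc eta ξ (jump 2 ξ)| ≤ 1 ∧
    ((jump 1 ξ : ℤ) : ℝ) + coc fl1 ξ (jump 1 ξ) / 3 + coc fl1 ξ (jump 2 ξ) / 3 = 2 ∧
    |((jump 1 ξ : ℤ) : ℝ) + coc fl1 ξ (jump 1 ξ) / 3| ≤ 2 ∧ |coc fl1 ξ (jump 2 ξ) / 3| ≤ 1 := by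
  have hF0 := F_nonneg ξ
  have hF1 := F_le_one ξ
  by_cases h1 : ξ 1 = true
  · obtain ⟨j1, j2⟩ := h.jump_flip h0 h1
    have hfl : Fl ξ 0 := ⟨h0, by simpa using h1⟩
    set ζ := sh 1 ξ with hζ
    have hG : Good ζ := h.shift 1
    obtain ⟨b1, b2⟩ := hG.block_end
    have hz0 := F_nonneg ζ
    have hz1 := F_le_one ζ
    have hm := F_mul ζ
    rw [hζ, Bb_sh_one_of_Fl hfl, Dn, oo_sh_one_of_Fl hfl, ← hζ] at hm
    have c1 : coc eta ξ (jump 1 ξ) = F ξ + F ζ - 1 := by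
      rw [j1, coc_one, eta, if_pos hfl]
    have c2 : coc eta ξ (jump 2 ξ) = 1 - F ζ := by
      rw [j2, show (rr ζ : ℤ) + 2 = 1 + (rr ζ + 1) by ring, coc_add, coc_one, eta, if_pos hfl,
        ← hζ, b1]
      push_cast at hm
      linarith
    have c3 : coc fl1 ξ (jump 1 ξ) = 1 := by
      rw [j1, coc_one, fl1, if_pos hfl]
    have c4 : coc fl1 ξ (jump 2 ξ) = 2 := by
      rw [j2, show (rr ζ : ℤ) + 2 = 1 + (rr ζ + 1) by ring, coc_add, coc_one, fl1, if_pos hfl,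
        ← hζ, b2]
      norm_num
    rw [c1, c2, c3, c4, j1]
    refine ⟨by ring, ?_, ?_, by norm_num, by norm_num, by norm_num⟩
    · rw [abs_le]; constructor <;> linarith
    · rw [abs_le]; constructor <;> linarith
  · have h1' : ξ 1 = false := by simpa using h1
    obtain ⟨j1, j2⟩ := h.jump_nonflip h1'
    have n0 : ¬ Fl ξ 0 := fun h' => h1 (by simpa using h'.2)
    have n1 : ¬ Fl (sh 1 ξ) 0 := by
      rw [Fl_sh]; intro h'; exact h1 (by simpa using h'.1)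
    have c1 : coc eta ξ 2 = F ξ / 2 := by
      rw [show (2 : ℤ) = 1 + 1 by norm_num, coc_succ, coc_one, eta, if_neg n0, eta, if_neg n1,
        h.F_sh_one n0]
      ring
    have c2 : coc fl1 ξ 2 = 0 := by
      rw [show (2 : ℤ) = 1 + 1 by norm_num, coc_succ, coc_one, fl1, if_neg n0, fl1, if_neg n1]
      ring
    rw [j1, j2, c1, c2]
    refine ⟨by ring, ?_, ?_, by norm_num, by norm_num, by norm_num⟩
    · rw [abs_le]; constructor <;> linarith
    · rw [abs_le]; constructor <;> linarith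

lemma tau_neg (σ : ℤ) (ξ : Cf) : tau (-σ) ξ = tau σ (rev ξ) := by
  unfold tau
  congr 1
  ext k
  simp only [Set.mem_ofPred_eq, rev_apply]
  rw [neg_mul]

lemma jump_neg (σ : ℤ) (ξ : Cf) : jump (-σ) ξ = - jump σ (rev ξ) := by
  unfold jump
  rw [tau_neg]; ring

/-- The left part of the harmonicity relations. -/
lemma Good.left {ξ : Cf} (h : Good ξ) (h0 : ξ 0 = true) :
    coc eta ξ (jump (-1) ξ) + coc eta ξ (jump (-2) ξ) = - F ξ ∧
    |coc eta ξ (jump (-1) ξ)| ≤ 1 ∧ |coc eta ξ (jump (-2) ξ)| ≤ 1 ∧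
    ((jump (-1) ξ : ℤ) : ℝ) + coc fl1 ξ (jump (-1) ξ) / 3 + coc fl1 ξ (jump (-2) ξ) / 3 = -2 ∧
    |((jump (-1) ξ : ℤ) : ℝ) + coc fl1 ξ (jump (-1) ξ) / 3| ≤ 2 ∧
    |coc fl1 ξ (jump (-2) ξ) / 3| ≤ 1 := by
  obtain ⟨r1, r2, r3, r4, r5, r6⟩ := h.reverse.right (by simpa using h0)
  have e1 : ∀ s, coc eta ξ (-s) = - coc eta (rev ξ) s := by
    intro s
    rw [coc_rev (fun ζ hζ => hζ.eta_rev) h]; ring
  have e2 : ∀ s, coc fl1 ξ (-s) = - coc fl1 (rev ξ) s := by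
    intro s
    rw [coc_rev (fun ζ _ => fl1_rev ζ) h]; ring
  rw [F_rev] at r1
  rw [jump_neg, jump_neg, e1, e1, e2, e2, abs_neg, abs_neg]
  refine ⟨by linarith, r2, r3, by push_cast; linarith, ?_, ?_⟩
  · rw [show ((-jump 1 (rev ξ) : ℤ) : ℝ) + -coc fl1 (rev ξ) (jump 1 (rev ξ)) / 3 =
      -(((jump 1 (rev ξ) : ℤ) : ℝ) + coc fl1 (rev ξ) (jump 1 (rev ξ)) / 3) by push_cast; ring,
      abs_neg]
    exact r5
  · rw [show -coc fl1 (rev ξ) (jump 2 (rev ξ)) / 3 = -(coc fl1 (rev ξ) (jump 2 (rev ξ)) / 3) by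
      ring, abs_neg]
    exact r6

end

end Pool.Agent.RWPP
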