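import Pool.Agent.Lib_MP_68f671_pr.Model

/-!
# Random walk on discrete point processes: one-dimensional configurations
-/

open MeasureTheory ProbabilityTheory Filter Topology
open scoped ENNReal

namespace Pool.Agent.RWPP

noncomputable section

/-! ## One-dimensional configurations -/

/-- Configurations on `ℤ`. -/
abbrev Cf := ℤ → Bool

/-- The shift on `Cf`. -/
def sh (s : ℤ) (ξ : Cf) : Cf := fun t => ξ (t + s)

/-- There is a flip at `s`: both `s` and `s + 1` are points. -/
def Fl (ξ : Cf) (s : ℤ) : Prop := ξ s = true ∧ ξ (s + 1) = true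

/-- No two consecutive empty sites, and infinitely many flips on both sides. -/
def Good (ξ : Cf) : Prop :=
  (∀ s, ξ s = true ∨ ξ (s + 1) = true) ∧ (∀ s, ∃ t ≥ s, Fl ξ t) ∧ (∀ s, ∃ t ≤ s, Fl ξ t)

/-- The least `k ≥ 1` such that `σ k` is a point. -/
def tau (σ : ℤ) (ξ : Cf) : ℕ := sInf {k : ℕ | 1 ≤ k ∧ ξ (σ * k) = true}

/-- The jump in the direction `σ`. -/
def jump (σ : ℤ) (ξ : Cf) : ℤ := σ * tau σ ξ

/-- The four directions `e₁, -e₁, e₂, -e₂` act on `s = 2x + y` as `2, -2, 1, -1`. -/
def sg (e : Fin 2 × Bool) : ℤ := (if e.1 = 0 then 2 else 1) * (if e.2 then 1 else -1)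

/-- The environment seen after a step in direction `e`. -/
def T (e : Fin 2 × Bool) (ξ : Cf) : Cf := sh (jump (sg e) ξ) ξ

/-- The uniform law on a finite type. -/
def unif (E : Type*) [Fintype E] [Nonempty E] [MeasurableSpace E] : Measure E :=
  (PMF.uniformOfFintype E).toMeasure

instance (E : Type*) [Fintype E] [Nonempty E] [MeasurableSpace E] :
    IsProbabilityMeasure (unif E) := by
  unfold unif; infer_instance

/-- The skew product: apply the map chosen by the first letter, then shift the word. -/
def skew {α E : Type*} (T : E → α → α) (p : α × (ℕ → E)) : α × (ℕ → E) :=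
  (T (p.2 0) p.1, fun n => p.2 (n + 1))

end

end Pool.Agent.RWPP
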