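import Pool.Agent.Lib_MP_68f671_pr.Defs

/-!
P7: an explicit environment on `ℤ` with non square integrable return times.
-/

open MeasureTheory ProbabilityTheory Filter Topology Metric Set
open scoped ENNReal

namespace Pool.Agent.RWPP

noncomputable section

namespace Env

/-- the circle -/
abbrev Ci := UnitAddCircle

/-- the rotation angle -/
def al : Ci := ((√2 : ℝ) : Ci)

theorem norm_nsmul_al {i : ℕ} (hi : 1 ≤ i) : 1 / (4 * i : ℝ) ≤ ‖i • al‖ := by
  have h1 : i • al = (((i : ℝ) * √2 : ℝ) : Ci) := by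
    rw [al, ← AddCircle.coe_nsmul]; simp [nsmul_eq_mul]
  rw [h1, UnitAddCircle.norm_eq]
  set p : ℤ := round ((i:ℝ) * √2) with hp
  have hi' : (1:ℝ) ≤ i := by exact_mod_cast hi
  have hs : √2 ^ 2 = (2:ℝ) := Real.sq_sqrt (by norm_num)
  have hs0 : 0 ≤ √(2:ℝ) := Real.sqrt_nonneg _
  have hs1 : √(2:ℝ) ≤ 3 / 2 := by
    rw [Real.sqrt_le_left (by norm_num)]; norm_num
  have h2 : |(i:ℝ) * √2 - p| ≤ 1 / 2 := abs_sub_round _
  have h3 : (2 * (i:ℤ) ^ 2 - p ^ 2) ≠ 0 := by
    intro h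
    have h4 : (√2 : ℝ) = |(p:ℝ)| / i := by
      have h5 : (2:ℝ) * (i:ℝ) ^ 2 = (p:ℝ) ^ 2 := by
        have : ((2 * (i:ℤ) ^ 2 - p ^ 2 : ℤ) : ℝ) = 0 := by rw [h]; simp
        push_cast at this; linarith
      rw [eq_div_iff (by positivity)]
      have h6 : (√2 * (i:ℝ)) ^ 2 = |(p:ℝ)| ^ 2 := by
        rw [sq_abs, ← h5, mul_pow, hs]
      exact (sq_eq_sq₀ (by positivity) (abs_nonneg _)).mp h6
    apply irrational_sqrt_two
    refine ⟨(|p| : ℤ) / (i : ℕ), ?_⟩
    rw [h4]; push_cast; rfl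
  have h4 : (1:ℝ) ≤ |2 * (i:ℝ) ^ 2 - (p:ℝ) ^ 2| := by
    have : (1:ℤ) ≤ |2 * (i:ℤ) ^ 2 - p ^ 2| := Int.one_le_abs h3
    exact_mod_cast this
  have h5 : |2 * (i:ℝ) ^ 2 - (p:ℝ) ^ 2| = |(i:ℝ) * √2 - p| * |(i:ℝ) * √2 + p| := by
    rw [← abs_mul]; congr 1
    nlinarith
  have h6 : |(i:ℝ) * √2 + p| ≤ 4 * i := by
    have : (i:ℝ) * √2 + p = 2 * ((i:ℝ) * √2) - ((i:ℝ) * √2 - p) := by ring
    rw [this]
    refine (abs_sub _ _).trans ?_
    rw [abs_of_nonneg (by positivity)]
    nlinarith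
  rw [h5] at h4
  rw [div_le_iff₀ (by positivity)]
  calc (1:ℝ) ≤ |(i:ℝ) * √2 - p| * |(i:ℝ) * √2 + p| := h4
    _ ≤ |(i:ℝ) * √2 - p| * (4 * i) := by gcongr

theorem addOrderOf_al (m : ℕ) (hm : 1 ≤ m) : addOrderOf (m • al) = 0 := by
  rw [addOrderOf_eq_zero_iff']
  intro n hn h
  rw [← mul_nsmul'] at h
  have h1 := norm_nsmul_al (i := n * m) (by nlinarith)
  rw [show (n * m) • al = 0 by rw [mul_comm]; rw [mul_comm] at h; exact h] at h1
  rw [norm_zero] at h1
  have : (0:ℝ) < 1 / (4 * ((n * m : ℕ) : ℝ)) := by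
    have : 0 < n * m := by positivity
    positivity
  linarith

/-- the scales -/
def M : ℕ → ℕ
  | 0 => 16
  | k + 1 => 4 * M k ^ 3

def r (k : ℕ) : ℝ := ((M k : ℝ) ^ 3)⁻¹

theorem M_ge (k : ℕ) : 16 ≤ M k := by
  induction k with
  | zero => exact le_rfl
  | succ k ih =>
    rw [M]
    have : M k ^ 3 ≥ 16 ^ 3 := Nat.pow_le_pow_left ih 3
    omega

theorem M_double (k : ℕ) : 2 * M k ≤ M (k + 1) := by
  rw [M]
  have h1 := M_ge k
  nlinarith [Nat.pow_le_pow_left h1 2]

theorem M_mono : Monotone M := monotone_nat_of_le_succ fun k => by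
  have := M_double k; omega

theorem M_ge' (k : ℕ) : k ≤ M k := by
  induction k with
  | zero => exact Nat.zero_le _
  | succ k ih =>
    have := M_double k
    have := M_ge k
    omega

theorem r_pos (k : ℕ) : 0 < r k := by
  have := M_ge k
  rw [r]; positivity

theorem r_anti {k m : ℕ} (h : k ≤ m) : r m ≤ r k := by
  have h1 : (M k : ℝ) ≤ M m := by exact_mod_cast M_mono h
  have h2 : (0:ℝ) < M k := by exact_mod_cast (by have := M_ge k; omega : 0 < M k)
  rw [r, r]
  gcongr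

theorem tail_bound (k j : ℕ) : 2 * ((M (k + 1 + j) : ℝ))⁻¹ ≤ r k * (1 / 2) ^ (j + 1) := by
  induction j with
  | zero =>
    have h2 : (0:ℝ) < M k := by exact_mod_cast (by have := M_ge k; omega : 0 < M k)
    have h1 : (M (k + 1 + 0) : ℝ) = 4 * (M k : ℝ) ^ 3 := by
      rw [add_zero, M]; push_cast; ring
    rw [h1, r, mul_inv]
    have : (0:ℝ) < ((M k : ℝ) ^ 3)⁻¹ := by positivity
    norm_num
    linarith
  | succ j ih =>
    have h2 : (0:ℝ) < M (k + 1 + j) := by
      exact_mod_cast (by have := M_ge (k + 1 + j); omega : 0 < M (k + 1 + j))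
    have h1 : 2 * (M (k + 1 + j) : ℝ) ≤ M (k + 1 + (j + 1)) := by
      exact_mod_cast M_double (k + 1 + j)
    calc 2 * ((M (k + 1 + (j + 1)) : ℝ))⁻¹ ≤ 2 * (2 * (M (k + 1 + j) : ℝ))⁻¹ := by gcongr
      _ = (1 / 2) * (2 * ((M (k + 1 + j) : ℝ))⁻¹) := by rw [mul_inv]; ring
      _ ≤ (1 / 2) * (r k * (1 / 2) ^ (j + 1)) := by gcongr
      _ = _ := by ring

/-- the set of good starting points -/
def W : Set Ci := {u | ∀ k i : ℕ, 1 ≤ i → i ≤ M k ^ 2 → r k < ‖u - i • al‖}

/-- the complement of the point set -/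
def V : Set Ci := {u | ∃ m : ℕ, 1 ≤ m ∧ u - (2 * m) • al ∈ W ∧ ∀ i < 2 * m, u - i • al ∉ W}

open Classical in
/-- the coding -/
def Phi (u : Ci) : Cf := fun s => decide (u + s • al ∉ V)

theorem measurable_sub_nsmul (i : ℕ) : Measurable fun u : Ci => u - i • al :=
  (continuous_id.sub continuous_const).measurable

theorem W_meas : MeasurableSet W := by
  have : W = ⋂ k : ℕ, ⋂ i : ℕ, ⋂ _ : 1 ≤ i, ⋂ _ : i ≤ M k ^ 2, {u | r k < ‖u - i • al‖} := by
    ext; simp [W]
  rw [this]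
  refine MeasurableSet.iInter fun k => MeasurableSet.iInter fun i => MeasurableSet.iInter fun _ =>
    MeasurableSet.iInter fun _ => ?_
  exact (isOpen_lt continuous_const ((continuous_id.sub continuous_const).norm)).measurableSet

theorem V_meas : MeasurableSet V := by
  have : V = ⋃ m : ℕ, ⋃ _ : 1 ≤ m, ((fun u : Ci => u - (2 * m) • al) ⁻¹' W ∩
      ⋂ i : ℕ, ⋂ _ : i < 2 * m, ((fun u : Ci => u - i • al) ⁻¹' W)ᶜ) := by
    ext u
    simp only [V, mem_ofPred_eq, mem_iUnion, mem_inter_iff, mem_preimage, mem_iInter,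
      mem_compl_iff, exists_prop]
  rw [this]
  refine MeasurableSet.iUnion fun m => MeasurableSet.iUnion fun _ => ?_
  refine (measurable_sub_nsmul _ W_meas).inter ?_
  refine MeasurableSet.iInter fun i => MeasurableSet.iInter fun _ => ?_
  exact (measurable_sub_nsmul _ W_meas).compl

theorem Phi_apply (u : Ci) (s : ℤ) : Phi u s = true ↔ u + s • al ∉ V := by
  simp [Phi]

theorem Phi_meas : Measurable Phi := by
  rw [measurable_pi_iff]
  intro s
  apply measurable_to_bool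
  have : (fun u => Phi u s) ⁻¹' {true} = ((fun u : Ci => u + s • al) ⁻¹' V)ᶜ := by
    ext u
    simp only [mem_preimage, mem_singleton_iff, Phi_apply, mem_compl_iff]
  rw [this]
  exact (((continuous_id.add continuous_const).measurable) V_meas).compl

/-- no two consecutive empty sites -/
theorem V_step {u : Ci} (h : u ∈ V) : u + al ∉ V := by
  rintro ⟨m', hm', h1, h2⟩
  obtain ⟨m, hm, h3, h4⟩ := h
  have e1 : ∀ i : ℕ, u + al - (i + 1) • al = u - i • al := by
    intro i; rw [add_nsmul, one_nsmul]; abel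
  have e2 : u + al - (2 * m') • al = u - (2 * m' - 1) • al := by
    rw [← e1]; congr 2; omega
  rw [e2] at h1
  have h5 : 2 * m ≤ 2 * m' - 1 := by
    by_contra hcon
    push Not at hcon
    exact h4 _ hcon h1
  have h6 := h2 (2 * m + 1) (by omega)
  rw [e1] at h6
  exact h6 h3

/-- points of `W` are flips -/
theorem W_flip {u : Ci} (h : u ∈ W) : u ∉ V ∧ u + al ∉ V := by
  constructor
  · rintro ⟨m, hm, -, h2⟩
    have := h2 0 (by omega)
    simp only [zero_nsmul, sub_zero] at this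
    exact this h
  · rintro ⟨m, hm, -, h2⟩
    have := h2 1 (by omega)
    rw [one_nsmul, add_sub_cancel_right] at this
    exact this h

/-- near the centre of `B_k` there is a long block -/
theorem long_block {k : ℕ} {u : Ci} (h : u ∈ W) (hB : ‖u‖ ≤ r k) {j : ℕ} (hj : 1 ≤ j)
    (hjL : 2 * j ≤ M k ^ 2) : u + (2 * j) • al ∈ V := by
  refine ⟨j, hj, by rwa [add_sub_cancel_right], fun i hi hW => ?_⟩
  have h1 := hW k (2 * j - i) (by omega) (by omega)
  have h2 : u + (2 * j) • al - i • al - (2 * j - i) • al = u := by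
    have : (2 * j) • al = i • al + (2 * j - i) • al := by
      rw [← add_nsmul]; congr 1; omega
    rw [this]; abel
  rw [h2] at h1
  linarith

/-- bound for the bad part of `B_k` -/
theorem measure_bad (k : ℕ) :
    volume (closedBall (0 : Ci) (r k) \ W) ≤ ENNReal.ofReal (r k) := by
  have hsub : closedBall (0 : Ci) (r k) \ W ⊆ ⋃ j : ℕ,
      ⋃ i ∈ Finset.Icc 1 (M (k + 1 + j) ^ 2), closedBall (i • al) (r (k + 1 + j)) := by
    rintro u ⟨hu, hW⟩
    rw [mem_closedBall_zero_iff] at hu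
    simp only [W, mem_ofPred_eq, not_forall, not_lt] at hW
    obtain ⟨m, i, hi, hiL, hle⟩ := hW
    by_cases hm : m ≤ k
    · exfalso
      have h1 := norm_nsmul_al hi
      have h2 : ‖i • al‖ ≤ r k + r m := by
        have : i • al = u - (u - i • al) := by abel
        rw [this]
        exact (norm_sub_le _ _).trans (add_le_add hu hle)
      have h3 := r_anti hm
      have h4 : (16:ℝ) ≤ M m := by exact_mod_cast M_ge m
      have h5 : (i:ℝ) ≤ (M m : ℝ) ^ 2 := by exact_mod_cast hiL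
      have h6 : (1:ℝ) ≤ i := by exact_mod_cast hi
      have h7 : 1 / (4 * (M m : ℝ) ^ 2) ≤ 1 / (4 * i : ℝ) := by gcongr
      have h8 : 1 / (4 * (M m : ℝ) ^ 2) ≤ 2 * r m := by linarith
      rw [r] at h8
      have h9 : (0:ℝ) < M m := by linarith
      have h10 : 2 * ((M m : ℝ) ^ 3)⁻¹ = 2 / (M m : ℝ) ^ 3 := by ring
      rw [h10, div_le_div_iff₀ (by positivity) (by positivity)] at h8
      nlinarith [pow_pos h9 2]
    · push Not at hm
      obtain ⟨j, rfl⟩ := Nat.exists_eq_add_of_le (show k + 1 ≤ m from hm)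
      refine mem_iUnion.mpr ⟨j, mem_iUnion₂.mpr ⟨i, Finset.mem_Icc.mpr ⟨hi, hiL⟩, ?_⟩⟩
      rw [mem_closedBall, dist_eq_norm]; exact hle
  refine (measure_mono hsub).trans ((measure_iUnion_le _).trans ?_)
  have h1 : ∀ j : ℕ, volume (⋃ i ∈ Finset.Icc 1 (M (k + 1 + j) ^ 2),
      closedBall (i • al) (r (k + 1 + j))) ≤ ENNReal.ofReal (r k * (1 / 2) ^ (j + 1)) := by
    intro j
    refine (measure_biUnion_finset_le _ _).trans ?_
    have h2 : ∀ i ∈ Finset.Icc 1 (M (k + 1 + j) ^ 2),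
        volume (closedBall (i • al) (r (k + 1 + j))) ≤ ENNReal.ofReal (2 * r (k + 1 + j)) := by
      intro i _
      rw [AddCircle.volume_closedBall]
      exact ENNReal.ofReal_le_ofReal (min_le_right _ _)
    refine (Finset.sum_le_sum h2).trans ?_
    rw [Finset.sum_const, Nat.card_Icc, nsmul_eq_mul]
    have h3 : ((M (k + 1 + j) ^ 2 + 1 - 1 : ℕ) : ℝ≥0∞) =
        ENNReal.ofReal ((M (k + 1 + j) : ℝ) ^ 2) := by
      rw [Nat.add_sub_cancel, ← ENNReal.ofReal_natCast]; push_cast; rfl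
    rw [h3, ← ENNReal.ofReal_mul (by positivity)]
    apply ENNReal.ofReal_le_ofReal
    have h4 := tail_bound k j
    have h5 : (0:ℝ) < M (k + 1 + j) := by
      exact_mod_cast (by have := M_ge (k + 1 + j); omega : 0 < M (k + 1 + j))
    calc (M (k + 1 + j) : ℝ) ^ 2 * (2 * r (k + 1 + j)) = 2 * ((M (k + 1 + j) : ℝ))⁻¹ := by
          rw [r]; field_simp
      _ ≤ _ := h4
  refine (ENNReal.tsum_le_tsum h1).trans ?_
  rw [← ENNReal.ofReal_tsum_of_nonneg]
  · apply ENNReal.ofReal_le_ofReal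
    rw [tsum_mul_left]
    have : ∑' j : ℕ, ((1:ℝ) / 2) ^ (j + 1) = 1 := by
      simp_rw [pow_succ]
      rw [tsum_mul_right, tsum_geometric_two]; norm_num
    rw [this, mul_one]
  · intro j; have := r_pos k; positivity
  · refine Summable.mul_left _ ?_
    simp_rw [pow_succ]
    exact summable_geometric_two.mul_right _

theorem r_le (k : ℕ) : r k ≤ 1 / 4 := by
  have h4 : (16:ℝ) ≤ M k := by exact_mod_cast M_ge k
  rw [r, inv_eq_one_div]
  apply one_div_le_one_div_of_le (by norm_num)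
  have : (16:ℝ) ^ 3 ≤ (M k : ℝ) ^ 3 := by gcongr
  linarith

theorem measure_good (k : ℕ) :
    ENNReal.ofReal (r k) ≤ volume (closedBall (0 : Ci) (r k) ∩ W) := by
  have h1 := measure_inter_add_sdiff (μ := (volume : Measure Ci)) (closedBall (0 : Ci) (r k)) W_meas
  have h2 : volume (closedBall (0 : Ci) (r k)) = ENNReal.ofReal (2 * r k) := by
    rw [AddCircle.volume_closedBall, min_eq_right]
    have := r_le k; linarith
  rw [h2] at h1
  have h3 := measure_bad k
  have h4 : ENNReal.ofReal (2 * r k) = ENNReal.ofReal (r k) + ENNReal.ofReal (r k) := by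
    rw [← ENNReal.ofReal_add (r_pos k).le (r_pos k).le]; congr 1; ring
  rw [h4] at h1
  have h5 : ENNReal.ofReal (r k) + ENNReal.ofReal (r k) ≤
      volume (closedBall (0 : Ci) (r k) ∩ W) + ENNReal.ofReal (r k) := by
    rw [← h1]; gcongr
  exact (ENNReal.add_le_add_iff_right ENNReal.ofReal_ne_top).mp h5

theorem W_pos : 0 < volume W := by
  have h1 := measure_good 0
  have h2 : 0 < ENNReal.ofReal (r 0) := ENNReal.ofReal_pos.mpr (r_pos 0)
  exact h2.trans_le (h1.trans (measure_mono inter_subset_right))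

theorem erg_al : Ergodic (fun u : Ci => al + u) volume := by
  have h := addOrderOf_al 1 le_rfl
  rw [one_nsmul] at h
  exact AddCircle.ergodic_add_left.mpr h

theorem erg_al2 : Ergodic (fun u : Ci => 2 • al + u) volume :=
  AddCircle.ergodic_add_left.mpr (addOrderOf_al 2 (by norm_num))

theorem Phi_semiconj (n : ℕ) (u : Ci) : Phi (n • al + u) = sh n (Phi u) := by
  ext s
  have : n • al + u + s • al = u + (s + n) • al := by
    rw [add_zsmul, natCast_zsmul]; abel
  rw [sh, Phi, Phi, this]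

/-- visits to `W` in the future -/
theorem ae_future : ∀ᵐ u : Ci, ∀ s : ℤ, ∃ t ≥ s, u + t • al ∈ W := by
  rw [ae_all_iff]
  intro s
  set A : Set Ci := {u | ∃ t ≥ s, u + t • al ∈ W} with hA
  have hAm : MeasurableSet A := by
    have : A = ⋃ t : ℤ, ⋃ _ : t ≥ s, (fun u : Ci => u + t • al) ⁻¹' W := by
      ext; simp [hA]
    rw [this]
    exact MeasurableSet.iUnion fun t => MeasurableSet.iUnion fun _ =>
      ((continuous_id.add continuous_const).measurable) W_meas
  have hle : (fun u : Ci => al + u) ⁻¹' A ⊆ A := by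
    rintro u ⟨t, ht, hW⟩
    refine ⟨t + 1, by omega, ?_⟩
    have : u + (t + 1) • al = al + u + t • al := by
      rw [add_zsmul, one_zsmul]; abel
    rwa [this]
  rcases erg_al.ae_empty_or_univ_of_preimage_ae_le hAm.nullMeasurableSet
    (LE.le.eventuallyLE hle) with h | h
  · exfalso
    have h1 : volume A = 0 := by rw [measure_congr h]; simp
    have h2 : volume ((fun u : Ci => u + s • al) ⁻¹' W) = volume W :=
      measure_preimage_add_right volume _ _
    have h3 : volume ((fun u : Ci => u + s • al) ⁻¹' W) ≤ volume A :=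
      measure_mono fun u hu => ⟨s, le_rfl, hu⟩
    rw [h1, h2] at h3
    exact absurd W_pos (not_lt.mpr h3)
  · filter_upwards [h.mem_iff] with u hu
    exact hu.mpr trivial

/-- visits to `W` in the past -/
theorem ae_past : ∀ᵐ u : Ci, ∀ s : ℤ, ∃ t ≤ s, u + t • al ∈ W := by
  rw [ae_all_iff]
  intro s
  set A : Set Ci := {u | ∃ t ≤ s, u + t • al ∈ W} with hA
  have hAm : MeasurableSet A := by
    have : A = ⋃ t : ℤ, ⋃ _ : t ≤ s, (fun u : Ci => u + t • al) ⁻¹' W := by
      ext; simp [hA]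
    rw [this]
    exact MeasurableSet.iUnion fun t => MeasurableSet.iUnion fun _ =>
      ((continuous_id.add continuous_const).measurable) W_meas
  have hle : A ⊆ (fun u : Ci => al + u) ⁻¹' A := by
    rintro u ⟨t, ht, hW⟩
    refine ⟨t - 1, by omega, ?_⟩
    have : al + u + (t - 1) • al = u + t • al := by
      rw [sub_zsmul, one_zsmul]; abel
    rwa [this]
  rcases erg_al.ae_empty_or_univ_of_ae_le_preimage hAm.nullMeasurableSet
    (LE.le.eventuallyLE hle) with h | h
  · exfalso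
    have h1 : volume A = 0 := by rw [measure_congr h]; simp
    have h2 : volume ((fun u : Ci => u + s • al) ⁻¹' W) = volume W :=
      measure_preimage_add_right volume _ _
    have h3 : volume ((fun u : Ci => u + s • al) ⁻¹' W) ≤ volume A :=
      measure_mono fun u hu => ⟨s, le_rfl, hu⟩
    rw [h1, h2] at h3
    exact absurd W_pos (not_lt.mpr h3)
  · filter_upwards [h.mem_iff] with u hu
    exact hu.mpr trivial

theorem Fl_of_W {u : Ci} {t : ℤ} (h : u + t • al ∈ W) : Fl (Phi u) t := by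
  have h1 := W_flip h
  refine ⟨(Phi_apply u t).mpr h1.1, (Phi_apply u (t + 1)).mpr ?_⟩
  rw [add_zsmul, one_zsmul, ← add_assoc]
  exact h1.2

theorem Phi_step (u : Ci) (s : ℤ) : Phi u s = true ∨ Phi u (s + 1) = true := by
  rw [Phi_apply, Phi_apply]
  by_cases h : u + s • al ∈ V
  · right
    rw [add_zsmul, one_zsmul, ← add_assoc]
    exact V_step h
  · exact Or.inl h

theorem ae_good : ∀ᵐ u : Ci, Good (Phi u) := by
  filter_upwards [ae_future, ae_past] with u h1 h2
  refine ⟨Phi_step u, fun s => ?_, fun s => ?_⟩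
  · obtain ⟨t, ht, hW⟩ := h1 s
    exact ⟨t, ht, Fl_of_W hW⟩
  · obtain ⟨t, ht, hW⟩ := h2 s
    exact ⟨t, ht, Fl_of_W hW⟩

theorem tau_set_nonempty {ξ : Cf} (h : Good ξ) : ∃ k : ℕ, 1 ≤ k ∧ ξ (2 * k) = true := by
  obtain ⟨t, ht, h1, h2⟩ := h.2.1 1
  rcases Int.even_or_odd' t with ⟨c, hc | hc⟩
  · refine ⟨c.toNat, by omega, ?_⟩
    rw [Int.toNat_of_nonneg (by omega), ← hc]; exact h1
  · refine ⟨(c + 1).toNat, by omega, ?_⟩
    rw [Int.toNat_of_nonneg (by omega)]
    have : 2 * (c + 1) = t + 1 := by omega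
    rw [this]; exact h2

theorem tau_ge {k : ℕ} {u : Ci} (h : u ∈ W) (hB : ‖u‖ ≤ r k) (hg : Good (Phi u)) :
    M k ^ 2 < 2 * tau 2 (Phi u) := by
  by_contra hcon
  push Not at hcon
  have h1 : tau 2 (Phi u) ∈ {k : ℕ | 1 ≤ k ∧ Phi u (2 * k) = true} :=
    Nat.sInf_mem (tau_set_nonempty hg)
  have h2 := long_block h hB h1.1 hcon
  have h3 := (Phi_apply u _).mp h1.2
  apply h3
  have : (2 * ((tau 2 (Phi u) : ℕ) : ℤ)) • al = (2 * tau 2 (Phi u)) • al := by
    rw [← natCast_zsmul]; push_cast; rfl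
  rw [this]; exact h2

end Env

namespace Env

/-- measurable sets on which the return time is large -/
def S (k : ℕ) : Set Cf := {ξ | ξ 0 = true ∧ (∃ j : ℕ, 1 ≤ j ∧ ξ (2 * j) = true) ∧
  ∀ j : ℕ, 1 ≤ j → 2 * j ≤ M k ^ 2 → ¬ ξ (2 * j) = true}

theorem coord_meas (t : ℤ) : MeasurableSet {ξ : Cf | ξ t = true} := by
  have h : MeasurableSet ((fun f : Cf => f t) ⁻¹' {true}) :=
    measurable_pi_apply t (measurableSet_singleton true)
  exact h

theorem S_meas (k : ℕ) : MeasurableSet (S k) := by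
  have : S k = {ξ : Cf | ξ 0 = true} ∩ ((⋃ j : ℕ, ⋃ _ : 1 ≤ j, {ξ : Cf | ξ (2 * j) = true}) ∩
      ⋂ j : ℕ, ⋂ _ : 1 ≤ j, ⋂ _ : 2 * j ≤ M k ^ 2, {ξ : Cf | ξ (2 * j) = true}ᶜ) := by
    ext ξ
    simp only [S, mem_ofPred_eq, mem_iUnion, mem_inter_iff, mem_iInter, mem_compl_iff,
      exists_prop]
  rw [this]
  refine (coord_meas 0).inter ((MeasurableSet.iUnion fun j => MeasurableSet.iUnion fun _ =>
    coord_meas _).inter ?_)
  exact MeasurableSet.iInter fun j => MeasurableSet.iInter fun _ => MeasurableSet.iInter fun _ =>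
    (coord_meas _).compl

theorem tau_S {k : ℕ} {ξ : Cf} (h : ξ ∈ S k) : M k ^ 2 < 2 * tau 2 ξ := by
  by_contra hcon
  push Not at hcon
  have h1 : tau 2 ξ ∈ {k : ℕ | 1 ≤ k ∧ ξ (2 * k) = true} := Nat.sInf_mem h.2.1
  exact h.2.2 _ h1.1 hcon h1.2

theorem Phi_mem_S {k : ℕ} {u : Ci} (h : u ∈ W) (hB : ‖u‖ ≤ r k) (hg : Good (Phi u)) :
    Phi u ∈ S k := by
  refine ⟨?_, tau_set_nonempty hg, fun j hj hjL hcon => ?_⟩
  · rw [Phi_apply, zero_zsmul, add_zero]; exact (W_flip h).1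
  · have h2 := long_block h hB hj hjL
    have h3 := (Phi_apply u _).mp hcon
    apply h3
    have : (2 * (j : ℤ)) • al = (2 * j) • al := by
      rw [← natCast_zsmul]; push_cast; rfl
    rw [this]; exact h2

end Env

open Env in
/-- P7 (Env.lean). -/
theorem exists_env : ∃ μ : Measure Cf, IsProbabilityMeasure μ ∧ Ergodic (sh 1) μ ∧
    Ergodic (sh 2) μ ∧ (∀ᵐ ξ ∂μ, Good ξ) ∧
    ∫⁻ ξ in {ξ : Cf | ξ 0 = true}, (tau 2 ξ : ℝ≥0∞) ^ 2 ∂μ = ∞ := by
  have hsh : ∀ s : ℤ, Measurable (sh s) := fun s =>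
    measurable_pi_iff.mpr fun t => measurable_pi_apply _
  set μ : Measure Cf := (volume : Measure Ci).map Phi with hμ
  have hmp : MeasurePreserving Phi (volume : Measure Ci) μ := ⟨Phi_meas, rfl⟩
  have hprob0 : IsProbabilityMeasure (volume : Measure Ci) :=
    ⟨by rw [AddCircle.measure_univ]; simp⟩
  have hprob : IsProbabilityMeasure μ :=
    Measure.isProbabilityMeasure_map Phi_meas.aemeasurable
  have hFlm : ∀ t : ℤ, MeasurableSet {ξ : Cf | Fl ξ t} := fun t =>
    (coord_meas t).inter (coord_meas (t + 1))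
  have hgm : MeasurableSet {ξ : Cf | Good ξ} := by
    have : {ξ : Cf | Good ξ} = (⋂ s : ℤ, ({ξ : Cf | ξ s = true} ∪ {ξ : Cf | ξ (s + 1) = true})) ∩
        ((⋂ s : ℤ, ⋃ t : ℤ, ⋃ _ : t ≥ s, {ξ : Cf | Fl ξ t}) ∩
        (⋂ s : ℤ, ⋃ t : ℤ, ⋃ _ : t ≤ s, {ξ : Cf | Fl ξ t})) := by
      ext ξ
      simp only [Good, mem_ofPred_eq, mem_iUnion, mem_inter_iff, mem_iInter, mem_union,
        exists_prop]
    rw [this]
    refine (MeasurableSet.iInter fun s => (coord_meas _).union (coord_meas _)).inter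
      ((MeasurableSet.iInter fun s => MeasurableSet.iUnion fun t => MeasurableSet.iUnion fun _ =>
      hFlm t).inter (MeasurableSet.iInter fun s => MeasurableSet.iUnion fun t =>
      MeasurableSet.iUnion fun _ => hFlm t))
  refine ⟨μ, hprob, ?_, ?_, ?_, ?_⟩
  · refine hmp.ergodic_of_ergodic_semiconj erg_al (hsh 1) fun u => ?_
    have := Phi_semiconj 1 u
    rw [one_nsmul] at this
    exact this
  · exact hmp.ergodic_of_ergodic_semiconj erg_al2 (hsh 2) fun u => Phi_semiconj 2 u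
  · exact (ae_map_iff Phi_meas.aemeasurable hgm).mpr ae_good
  · have hSk : ∀ k, ENNReal.ofReal (r k) ≤ μ (S k) := by
      intro k
      rw [hμ, Measure.map_apply Phi_meas (S_meas k)]
      refine (measure_good k).trans ?_
      refine measure_mono_ae ?_
      filter_upwards [ae_good] with u hg hu
      exact Phi_mem_S hu.2 (mem_closedBall_zero_iff.mp hu.1) hg
    have hlow : ∀ k : ℕ, ENNReal.ofReal ((M k : ℝ) / 4) ≤
        ∫⁻ ξ in {ξ : Cf | ξ 0 = true}, (tau 2 ξ : ℝ≥0∞) ^ 2 ∂μ := by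
      intro k
      have h1 : ∫⁻ ξ in S k, (ENNReal.ofReal ((M k : ℝ) ^ 2 / 2)) ^ 2 ∂μ ≤
          ∫⁻ ξ in {ξ : Cf | ξ 0 = true}, (tau 2 ξ : ℝ≥0∞) ^ 2 ∂μ := by
        refine (setLIntegral_mono' (S_meas k) (g := fun ξ => (tau 2 ξ : ℝ≥0∞) ^ 2)
          fun ξ hξ => ?_).trans (lintegral_mono_set fun ξ hξ => hξ.1)
        have h2 := tau_S hξ
        have h3 : (M k : ℝ) ^ 2 / 2 ≤ (tau 2 ξ : ℝ) := by
          have : ((M k ^ 2 : ℕ) : ℝ) < ((2 * tau 2 ξ : ℕ) : ℝ) := by exact_mod_cast h2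
          push_cast at this; linarith
        have h4 : ENNReal.ofReal ((M k : ℝ) ^ 2 / 2) ≤ (tau 2 ξ : ℝ≥0∞) := by
          rw [← ENNReal.ofReal_natCast]; exact ENNReal.ofReal_le_ofReal h3
        gcongr
      refine le_trans ?_ h1
      rw [setLIntegral_const]
      have h5 : ENNReal.ofReal ((M k : ℝ) / 4) =
          (ENNReal.ofReal ((M k : ℝ) ^ 2 / 2)) ^ 2 * ENNReal.ofReal (r k) := by
        rw [← ENNReal.ofReal_pow (by positivity), ← ENNReal.ofReal_mul (by positivity)]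
        congr 1
        have : (0:ℝ) < M k := by exact_mod_cast (by have := M_ge k; omega : 0 < M k)
        rw [r]; field_simp; ring
      rw [h5]
      gcongr
      exact hSk k
    rw [← top_le_iff]
    refine le_of_tendsto' (f := fun k : ℕ => ENNReal.ofReal ((M k : ℝ) / 4)) (x := atTop) ?_ hlow
    refine ENNReal.tendsto_ofReal_nhds_top.mpr ?_
    refine Tendsto.atTop_div_const (by norm_num) ?_
    refine tendsto_natCast_atTop_atTop.comp ?_
    exact tendsto_atTop_mono M_ge' tendsto_id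

end

end Pool.Agent.RWPP
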