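import Pool.Agent.Lib_MP_68f671_pr.Law
import Pool.Agent.Lib_MP_68f671_pr.Env

/-!
# The central limit theorem for `ω(x, y) = ξ(2x + y)`
-/

open MeasureTheory ProbabilityTheory Filter Topology
open scoped ENNReal

namespace Pool.Agent.RWPP

noncomputable section

/-! ### Nondegeneracy -/

lemma flip_vals {ξ : Cf} (hξ : ξ ∈ GG) (hf : Fl ξ 0) :
    dH (1, true) ξ = F ξ + F (sh 1 ξ) - 1 ∧ dM (1, true) ξ = 4 / 3 ∧
    dH (0, true) ξ = 1 - F (sh 1 ξ) ∧ dM (0, true) ξ = 2 / 3 ∧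
    F ξ + 3 * F (sh 1 ξ) - 3 < 0 := by
  obtain ⟨h, h0⟩ := hξ
  have h1 : ξ 1 = true := by simpa using hf.2
  obtain ⟨j1, j2⟩ := h.jump_flip h0 h1
  set ζ := sh 1 ξ with hζ
  have hG : Good ζ := h.shift 1
  obtain ⟨b1, b2⟩ := hG.block_end
  have hz0 := F_pos ζ
  have hm := F_mul ζ
  have hA := F_pos (Aa ζ)
  rw [hζ, Bb_sh_one_of_Fl hf, Dn, oo_sh_one_of_Fl hf, ← hζ] at hm
  have hr : 0 ≤ (rr ζ : ℝ) * F ζ := by positivity
  refine ⟨?_, ?_, ?_, ?_, ?_⟩
  · rw [dH, sg_10, j1, coc_one, eta, if_pos hf]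
  · rw [dM, dY, dN, sg_10, j1, coc_one, fl1, if_pos hf]; norm_num
  · rw [dH, sg_00, j2, show (rr ζ : ℤ) + 2 = 1 + (rr ζ + 1) by ring, coc_add, coc_one, eta,
      if_pos hf, ← hζ, b1]
    push_cast at hm
    linarith
  · rw [dM, dY, dN, sg_00, j2, show (rr ζ : ℤ) + 2 = 1 + (rr ζ + 1) by ring, coc_add, coc_one,
      fl1, if_pos hf, ← hζ, b2]
    norm_num
  · push_cast at hm
    nlinarith

lemma ae_of_ae_Pc {μ : Measure Cf} [IsProbabilityMeasure μ] {p : Cf → Prop}
    (h : ∀ᵐ ξ ∂(Pc μ), p ξ) : ∀ᵐ ξ ∂μ, ξ ∈ U0 → p ξ := by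
  unfold Pc ProbabilityTheory.cond at h
  rw [ae_iff, Measure.smul_apply, smul_eq_mul, mul_eq_zero] at h
  rcases h with h | h
  · rw [ENNReal.inv_eq_zero] at h
    exact absurd h (measure_ne_top μ U0)
  · have h' : ∀ᵐ ξ ∂(μ.restrict U0), p ξ := h
    exact (ae_restrict_iff' measurableSet_U0).1 h'

theorem var2_pos {μ : Measure Cf} [IsProbabilityMeasure μ] (hμ : Ergodic (sh 1) μ)
    (hG : ∀ᵐ ξ ∂μ, Good ξ) {a b : ℝ} (hab : a ≠ 0 ∨ b ≠ 0) : 0 < var2 μ a b := by
  have : IsProbabilityMeasure (Pc μ) := cond_isProbabilityMeasure (U0_pos hμ hG)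
  set q : Cf → ℝ := fun ξ => (Fintype.card (Fin 2 × Bool) : ℝ)⁻¹ * ∑ e, dL a b e ξ ^ 2 with hq
  have hq0 : 0 ≤ q := fun ξ => by
    simp only [hq]
    exact mul_nonneg (by positivity) (Finset.sum_nonneg fun e _ => sq_nonneg _)
  have hI : ∀ {f g : Fin 2 × Bool → Cf → ℝ} {A B : ℝ}, (∀ e, Measurable (f e)) →
      (∀ e, Measurable (g e)) → (∀ ξ ∈ GG, ∀ e, |f e ξ| ≤ A) → (∀ ξ ∈ GG, ∀ e, |g e ξ| ≤ B) →
      Integrable (cv f g) (Pc μ) := by
    intro f g A B hf hg hA hB
    refine Integrable.of_bound (measurable_cv hf hg).aestronglyMeasurable (A * B) ?_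
    filter_upwards [ae_GG hG] with ξ hξ
    rw [Real.norm_eq_abs]
    exact abs_cv_le (hA ξ hξ) (hB ξ hξ)
  have i11 := hI measurable_dH measurable_dH (fun ξ h e => abs_dH_le e h)
    (fun ξ h e => abs_dH_le e h)
  have i12 := hI measurable_dH measurable_dM (fun ξ h e => abs_dH_le e h)
    (fun ξ h e => abs_dM_le e h)
  have i22 := hI measurable_dM measurable_dM (fun ξ h e => abs_dM_le e h)
    (fun ξ h e => abs_dM_le e h)
  have hqe : q = fun ξ => a ^ 2 * cv dH dH ξ + (2 * a * b * cv dH dM ξ + b ^ 2 * cv dM dM ξ) := by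
    funext ξ; exact cv_dL a b ξ
  have j1 : Integrable (fun ξ => a ^ 2 * cv dH dH ξ) (Pc μ) := i11.const_mul _
  have j2 : Integrable (fun ξ => 2 * a * b * cv dH dM ξ) (Pc μ) := i12.const_mul _
  have j3 : Integrable (fun ξ => b ^ 2 * cv dM dM ξ) (Pc μ) := i22.const_mul _
  have j4 : Integrable (fun ξ => 2 * a * b * cv dH dM ξ + b ^ 2 * cv dM dM ξ) (Pc μ) := j2.add j3
  have hint : Integrable q (Pc μ) := by rw [hqe]; exact j1.add j4
  have hval : ∫ ξ, q ξ ∂(Pc μ) = var2 μ a b := by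
    rw [hqe, var2, integral_add j1 j4, integral_add j2 j3, integral_const_mul,
      integral_const_mul, integral_const_mul]
  rw [← hval]
  rcases (integral_nonneg hq0 : 0 ≤ ∫ ξ, q ξ ∂(Pc μ)).lt_or_eq with h | h
  · exact h
  · exfalso
    have h1 : q =ᵐ[Pc μ] 0 := (integral_eq_zero_iff_of_nonneg hq0 hint).1 h.symm
    have h2 : ∀ᵐ ξ ∂(Pc μ), ¬ Fl ξ 0 := by
      filter_upwards [h1, ae_GG hG] with ξ h1 hξ hf
      obtain ⟨v1, v2, v3, v4, v5⟩ := flip_vals hξ hf
      have h3 : ∑ e, dL a b e ξ ^ 2 = 0 := by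
        have : q ξ = 0 := h1
        simp only [hq] at this
        rw [card_dir] at this
        linarith
      have h4 := (Finset.sum_eq_zero_iff_of_nonneg (fun e _ => sq_nonneg (dL a b e ξ))).1 h3
      have h5 : dL a b (1, true) ξ = 0 := by
        have := h4 (1, true) (Finset.mem_univ _)
        exact pow_eq_zero_iff (two_ne_zero) |>.1 this
      have h6 : dL a b (0, true) ξ = 0 := by
        have := h4 (0, true) (Finset.mem_univ _)
        exact pow_eq_zero_iff (two_ne_zero) |>.1 this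
      rw [dL, v1, v2] at h5
      rw [dL, v3, v4] at h6
      have h7 : a * (F ξ + 3 * F (sh 1 ξ) - 3) = 0 := by linarith
      rcases mul_eq_zero.1 h7 with h8 | h8
      · rw [h8] at h6
        have : b = 0 := by linarith
        rcases hab with h9 | h9
        · exact h9 h8
        · exact h9 this
      · linarith
    have h3 := ae_of_ae_Pc h2
    have h4 : ∀ᵐ ξ ∂μ, fl1 ξ = 0 := by
      filter_upwards [h3] with ξ hξ
      rw [fl1, if_neg]
      intro hf
      exact hξ hf.1 hf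
    have h5 := fl1_int_pos hμ.toMeasurePreserving hG
    rw [integral_congr_ae (g := fun _ => (0 : ℝ)) h4] at h5
    simp at h5

/-! ### The covariance matrix -/

/-- The off-diagonal covariance. -/
def crs (μ : Measure Cf) (a b a' b' : ℝ) : ℝ :=
  a * a' * (∫ ξ, cv dH dH ξ ∂(Pc μ)) + ((a * b' + a' * b) * (∫ ξ, cv dH dM ξ ∂(Pc μ))
    + b * b' * (∫ ξ, cv dM dM ξ ∂(Pc μ)))

/-- The limiting covariance matrix. -/
def Dmat (μ : Measure Cf) : Matrix (Fin 2) (Fin 2) ℝ :=
  !![var2 μ (aa μ 1 0) (-1 / 2), crs μ (aa μ 1 0) (-1 / 2) (aa μ 0 1) 1;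
     crs μ (aa μ 1 0) (-1 / 2) (aa μ 0 1) 1, var2 μ (aa μ 0 1) 1]

open Matrix in
lemma Dmat_quad (μ : Measure Cf) (t : Fin 2 → ℝ) :
    t ⬝ᵥ (Dmat μ *ᵥ t) = var2 μ (aa μ (t 0) (t 1)) (t 1 - t 0 / 2) := by
  have ha : aa μ (t 0) (t 1) = t 0 * aa μ 1 0 + t 1 * aa μ 0 1 := by
    unfold aa; ring
  simp only [Dmat, dotProduct, mulVec, Fin.sum_univ_two, Matrix.of_apply, Matrix.cons_val_zero,
    Matrix.cons_val_one, Matrix.cons_val', Matrix.cons_val_fin_one]
  rw [ha]
  unfold var2 crs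
  ring

lemma Dmat_posDef {μ : Measure Cf} [IsProbabilityMeasure μ] (hμ : Ergodic (sh 1) μ)
    (hG : ∀ᵐ ξ ∂μ, Good ξ) : (Dmat μ).PosDef := by
  have hc : 0 < cc μ := by
    have h1 := speed_ge hμ.toMeasurePreserving hG
    have h2 := fl1_int_pos hμ.toMeasurePreserving hG
    unfold cc
    linarith
  apply Matrix.PosDef.of_dotProduct_mulVec_pos
  · ext i j
    fin_cases i <;> fin_cases j <;> simp [Dmat]
  · intro x hx
    rw [star_trivial, Dmat_quad]
    apply var2_pos hμ hG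
    by_contra hcon
    push Not at hcon
    obtain ⟨h1, h2⟩ := hcon
    apply hx
    unfold aa at h1
    rw [h2, zero_mul, zero_div, sub_zero, div_eq_zero_iff] at h1
    have h0 : x 0 = 0 := by
      rcases h1 with h1 | h1
      · linarith
      · exact absurd h1 hc.ne'
    funext i
    fin_cases i
    · exact h0
    · simp only [Fin.mk_one, Pi.zero_apply]
      rw [h0] at h2; linarith

/-- The quenched CLT on `Cf`. -/
theorem clt_Cf {μ : Measure Cf} [IsProbabilityMeasure μ] (hμ : Ergodic (sh 1) μ)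
    (hG : ∀ᵐ ξ ∂μ, Good ξ) :
    ∀ᵐ ξ ∂(Pc μ), Tendsto (fun n => scaledLaw (om ξ) n) atTop (𝓝 (normalLaw (Dmat μ))) := by
  filter_upwards [path_clt hμ hG] with ξ h
  rw [ProbabilityMeasure.tendsto_iff_tendsto_charFun]
  intro t
  have h1 := h (t 0) (t 1)
  have h2 : charFun (normalLaw (Dmat μ) : Measure (EuclideanSpace ℝ (Fin 2))) t =
      Complex.exp (-(var2 μ (aa μ (t 0) (t 1)) (t 1 - t 0 / 2) / 2 : ℝ)) := by
    change charFun (multivariateGaussian 0 (Dmat μ)) t = _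
    rw [charFun_multivariateGaussian (Dmat_posDef hμ hG).posSemidef]
    have h3 := Dmat_quad μ t
    rw [h3]
    simp
  rw [h2]
  simp_rw [charFun_scaledLaw]
  exact h1

/-! ### Transfer to the two-dimensional configurations -/

lemma measurable_om : Measurable om :=
  measurable_pi_lambda _ fun v => measurable_pi_apply (2 * v 0 + v 1)

lemma om_injective : Function.Injective om := by
  intro ξ ξ' h
  funext s
  have := congrFun h ![0, s]
  simpa [om] using this

lemma om_embedding : MeasurableEmbedding om := measurable_om.measurableEmbedding om_injective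

lemma palm_map (μ : Measure Cf) : palm (μ.map om) = (Pc μ).map om := by
  have hs : MeasurableSet {ω : Conf 2 | ω 0 = true} := by
    have h : Measurable fun ω : Conf 2 => ω 0 := measurable_pi_apply 0
    exact h (measurableSet_singleton true)
  have hpre : om ⁻¹' {ω : Conf 2 | ω 0 = true} = U0 := by
    ext ξ; simp [om, U0]
  unfold palm Pc ProbabilityTheory.cond
  rw [Measure.restrict_map measurable_om hs, Measure.map_apply measurable_om hs, hpre,
    Measure.map_smul]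

lemma om_semiconj (i : Fin 2) : Function.Semiconj om (sh (sg (i, true))) (shift (dir (i, true))) := by
  intro ξ
  rw [shift_om, ell_dir]

theorem isPointProcess_map {μ : Measure Cf} [IsProbabilityMeasure μ] (h1 : Ergodic (sh 1) μ)
    (h2 : Ergodic (sh 2) μ) (hG : ∀ᵐ ξ ∂μ, Good ξ) : IsPointProcess (μ.map om) := by
  have hmp : MeasurePreserving om μ (μ.map om) := ⟨measurable_om, rfl⟩
  have hms : ∀ x : Zd 2, Measurable (shift x : Conf 2 → Conf 2) := fun x =>
    measurable_pi_lambda _ fun y => measurable_pi_apply (x + y)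
  refine ⟨Measure.isProbabilityMeasure_map measurable_om.aemeasurable, ?_, ?_⟩
  · intro i
    refine hmp.ergodic_of_ergodic_semiconj ?_ (hms _) (om_semiconj i)
    fin_cases i
    · simpa using h2
    · simpa using h1
  · have hm : MeasurableSet {ω : Conf 2 | ∀ x, ω x = false} := by
      have : {ω : Conf 2 | ∀ x, ω x = false} = ⋂ x : Zd 2, {ω | ω x = false} := by
        ext ω; simp
      rw [this]
      refine MeasurableSet.iInter fun x => ?_
      have h : Measurable fun ω : Conf 2 => ω x := measurable_pi_apply x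
      exact h (measurableSet_singleton false)
    rw [Measure.map_apply measurable_om hm]
    have : μ (om ⁻¹' {ω : Conf 2 | ∀ x, ω x = false}) = 0 := by
      rw [measure_eq_zero_iff_ae_notMem]
      filter_upwards [hG] with ξ hξ h
      have h0 := h ![0, 0]
      have h1 := h ![0, 1]
      rcases hξ.1 0 with h' | h'
      · simp [om, h'] at h0
      · simp only [zero_add] at h'
        simp [om, h'] at h1
    rw [this]
    exact one_pos

/-- The main theorem. -/
theorem main : ∃ Q : Measure (Conf 2), IsPointProcess Q ∧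
    (∫⁻ ω, (gap (0, true) ω : ℝ≥0∞) ^ 2 ∂(palm Q) = ∞) ∧
    ∃ D : Matrix (Fin 2) (Fin 2) ℝ, D.PosDef ∧
      ∀ᵐ ω ∂(palm Q), Tendsto (fun n => scaledLaw ω n) atTop (𝓝 (normalLaw D)) := by
  obtain ⟨μ, hp, h1, h2, hG, hinf⟩ := exists_env
  refine ⟨μ.map om, isPointProcess_map h1 h2 hG, ?_, Dmat μ, Dmat_posDef h1 hG, ?_⟩
  · rw [palm_map, om_embedding.lintegral_map]
    have e : ∀ ξ, ((gap (0, true) (om ξ) : ℕ) : ℝ≥0∞) ^ 2 = (tau 2 ξ : ℝ≥0∞) ^ 2 := by
      intro ξ; rw [gap_om, sg_00]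
    simp_rw [e]
    unfold Pc ProbabilityTheory.cond
    rw [lintegral_smul_measure]
    have hU : ∫⁻ ξ in U0, (tau 2 ξ : ℝ≥0∞) ^ 2 ∂μ = ∞ := hinf
    rw [hU, smul_eq_mul, ENNReal.mul_top]
    simp only [ne_eq, ENNReal.inv_eq_zero]
    exact measure_ne_top μ U0
  · rw [palm_map, om_embedding.ae_map_iff]
    exact clt_Cf h1 hG

end

end Pool.Agent.RWPP
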