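import Mathlib

/-!
# The first return map of an invertible measure preserving map
-/

open MeasureTheory Filter Topology
open scoped ENNReal

namespace Pool.Agent.RWPP

section

variable {α : Type*}

/-- The points whose first return to `U` under `S` happens at time `k + 1`. -/
def firstRet (S : α → α) (U : Set α) (k : ℕ) : Set α :=
  {x | S^[k + 1] x ∈ U ∧ ∀ j, 1 ≤ j → j < k + 1 → S^[j] x ∉ U}

theorem sInf_of_mem_firstRet {S : α → α} {U : Set α} {k : ℕ} {x : α}
    (hx : x ∈ firstRet S U k) : sInf {k : ℕ | 1 ≤ k ∧ S^[k] x ∈ U} = k + 1 := by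
  apply le_antisymm
  · exact Nat.sInf_le ⟨by omega, hx.1⟩
  · refine le_csInf ⟨k + 1, by omega, hx.1⟩ ?_
    rintro j ⟨hj1, hj2⟩
    by_contra hlt
    exact hx.2 j hj1 (by omega) hj2

theorem exists_firstRet {S : α → α} {U : Set α} {x : α} {n : ℕ} (hn : 1 ≤ n)
    (hx : S^[n] x ∈ U) : ∃ k, x ∈ firstRet S U k := by
  classical
  have hne : ∃ k : ℕ, 1 ≤ k ∧ S^[k] x ∈ U := ⟨n, hn, hx⟩
  have h1 := Nat.find_spec hne
  have h2 := fun m hm => Nat.find_min hne (m := m) hm
  obtain ⟨k, hk⟩ : ∃ k, Nat.find hne = k + 1 := ⟨Nat.find hne - 1, by omega⟩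
  rw [hk] at h1 h2
  exact ⟨k, h1.2, fun j hj1 hj2 hj3 => h2 j hj2 ⟨hj1, hj3⟩⟩

theorem disjoint_firstRet (S : α → α) (U : Set α) {i j : ℕ} (hij : i ≠ j) :
    Disjoint (firstRet S U i) (firstRet S U j) := by
  rw [Set.disjoint_left]
  intro x hi hj
  have h1 := sInf_of_mem_firstRet hi
  have h2 := sInf_of_mem_firstRet hj
  omega

theorem iterate_cancel {S S' : α → α} (h2 : ∀ x, S' (S x) = x) (n : ℕ) (x : α) :
    S'^[n] (S^[n] x) = x := by
  induction n generalizing x with
  | zero => rfl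
  | succ n ih =>
    rw [Function.iterate_succ_apply', Function.iterate_succ_apply, ih, h2]

theorem firstRet_inter_preimage {S S' : α → α} (h2 : ∀ x, S' (S x) = x) (U A : Set α)
    (k : ℕ) : firstRet S U k ∩ (S^[k + 1] ⁻¹' A) ∩ U
      = S^[k + 1] ⁻¹' (firstRet S' U k ∩ A ∩ U) := by
  have key : ∀ x, ∀ j ≤ k + 1, S'^[j] (S^[k + 1] x) = S^[k + 1 - j] x := by
    intro x j hj
    have : S^[k + 1] x = S^[j] (S^[k + 1 - j] x) := by
      rw [← Function.iterate_add_apply, Nat.add_sub_cancel' hj]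
    rw [this, iterate_cancel h2]
  ext x
  simp only [firstRet, Set.mem_inter_iff, Set.mem_ofPred_eq, Set.mem_preimage]
  constructor
  · rintro ⟨⟨⟨ha, hb⟩, hc⟩, hd⟩
    refine ⟨⟨⟨?_, ?_⟩, hc⟩, ha⟩
    · rw [key x (k + 1) le_rfl]
      simpa using hd
    · intro j hj1 hj2
      rw [key x j (by omega)]
      exact hb _ (by omega) (by omega)
  · rintro ⟨⟨⟨ha, hb⟩, hc⟩, hd⟩
    rw [key x (k + 1) le_rfl] at ha
    refine ⟨⟨⟨hd, ?_⟩, hc⟩, by simpa using ha⟩
    intro j hj1 hj2
    have := hb (k + 1 - j) (by omega) (by omega)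
    rw [key x _ (by omega)] at this
    rwa [show k + 1 - (k + 1 - j) = j by omega] at this

variable [MeasurableSpace α] {μ : Measure α}

theorem measurableSet_firstRet {S : α → α} (hS : Measurable S) {U : Set α}
    (hU : MeasurableSet U) (k : ℕ) : MeasurableSet (firstRet S U k) := by
  have : firstRet S U k = (S^[k + 1] ⁻¹' U) ∩
      ⋂ j, ⋂ (_ : 1 ≤ j), ⋂ (_ : j < k + 1), (S^[j] ⁻¹' U)ᶜ := by
    ext x
    simp [firstRet]
  rw [this]
  exact ((hS.iterate _) hU).inter (MeasurableSet.iInter fun j => MeasurableSet.iInter fun _ =>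
    MeasurableSet.iInter fun _ => ((hS.iterate j) hU).compl)

theorem ae_exists_firstRet [IsFiniteMeasure μ] {S : α → α} (hS : MeasurePreserving S μ μ)
    {U : Set α} (hU : MeasurableSet U) : ∀ᵐ x ∂μ, x ∈ U → ∃ k, x ∈ firstRet S U k := by
  filter_upwards [hS.conservative.ae_mem_imp_frequently_image_mem hU.nullMeasurableSet]
    with x hx hxU
  obtain ⟨n, hn1, hn2⟩ := (hx hxU).forall_exists_of_atTop 1
  exact exists_firstRet hn1 hn2

end

/-- P2: the first return map to `U` preserves the restricted measure. -/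
theorem induced_measurePreserving {α : Type*} [MeasurableSpace α] {μ : Measure α}
    [IsFiniteMeasure μ] {S S' : α → α} (hS : MeasurePreserving S μ μ)
    (hS' : MeasurePreserving S' μ μ) (h1 : ∀ x, S (S' x) = x) (h2 : ∀ x, S' (S x) = x)
    {U : Set α} (hU : MeasurableSet U) :
    MeasurePreserving (fun x => S^[sInf {k : ℕ | 1 ≤ k ∧ S^[k] x ∈ U}] x)
      (μ.restrict U) (μ.restrict U) := by
  set R : α → α := fun x => S^[sInf {k : ℕ | 1 ≤ k ∧ S^[k] x ∈ U}] x with hR
  have hRk : ∀ k, ∀ x ∈ firstRet S U k, R x = S^[k + 1] x := by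
    intro k x hx
    simp only [hR, sInf_of_mem_firstRet hx]
  have hR0 : ∀ x, (∀ k, x ∉ firstRet S U k) → R x = x := by
    intro x hx
    have : {k : ℕ | 1 ≤ k ∧ S^[k] x ∈ U} = ∅ := by
      ext k
      simp only [Set.mem_ofPred_eq, Set.mem_empty_iff_false, iff_false, not_and]
      intro hk1 hk2
      obtain ⟨j, hj⟩ := exists_firstRet hk1 hk2
      exact hx j hj
    simp only [hR, this, Nat.sInf_empty, Function.iterate_zero, id]
  have hFm := fun k => measurableSet_firstRet hS.measurable hU k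
  have hpre : ∀ A : Set α, R ⁻¹' A = ((⋃ k, firstRet S U k)ᶜ ∩ A) ∪
      ⋃ k, (firstRet S U k ∩ S^[k + 1] ⁻¹' A) := by
    intro A
    ext x
    simp only [Set.mem_preimage, Set.mem_union, Set.mem_inter_iff, Set.mem_compl_iff,
      Set.mem_iUnion, not_exists]
    by_cases hx : ∃ k, x ∈ firstRet S U k
    · obtain ⟨k, hk⟩ := hx
      rw [hRk k x hk]
      constructor
      · intro h; exact Or.inr ⟨k, hk, h⟩
      · rintro (⟨h, -⟩ | ⟨j, hj1, hj2⟩)
        · exact absurd hk (h k)
        · have : j = k := by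
            have e1 := sInf_of_mem_firstRet hj1
            have e2 := sInf_of_mem_firstRet hk
            omega
          subst this
          exact hj2
    · push Not at hx
      rw [hR0 x hx]
      constructor
      · intro h; exact Or.inl ⟨hx, h⟩
      · rintro (⟨-, h⟩ | ⟨j, hj1, -⟩)
        · exact h
        · exact absurd hj1 (hx j)
  have hRm : Measurable R := by
    intro A hA
    rw [hpre]
    exact ((MeasurableSet.iUnion hFm).compl.inter hA).union
      (MeasurableSet.iUnion fun k => (hFm k).inter ((hS.measurable.iterate _) hA))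
  refine ⟨hRm, ?_⟩
  ext A hA
  rw [Measure.map_apply hRm hA, Measure.restrict_apply (hRm hA), Measure.restrict_apply hA]
  have hG : ∀ k, MeasurableSet (firstRet S' U k ∩ A ∩ U) := fun k =>
    ((measurableSet_firstRet hS'.measurable hU k).inter hA).inter hU
  have step1 : μ (R ⁻¹' A ∩ U) = μ (⋃ k, (firstRet S U k ∩ S^[k + 1] ⁻¹' A ∩ U)) := by
    apply measure_congr
    filter_upwards [ae_exists_firstRet hS hU] with x hx
    apply propext
    change (x ∈ R ⁻¹' A ∩ U) ↔ x ∈ ⋃ k, (firstRet S U k ∩ S^[k + 1] ⁻¹' A ∩ U)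
    rw [hpre]
    simp only [Set.mem_preimage, Set.mem_union, Set.mem_inter_iff, Set.mem_compl_iff,
      Set.mem_iUnion, not_exists]
    constructor
    · rintro ⟨⟨h, -⟩ | ⟨k, hk1, hk2⟩, hxU⟩
      · obtain ⟨k, hk⟩ := hx hxU
        exact absurd hk (h k)
      · exact ⟨k, ⟨hk1, hk2⟩, hxU⟩
    · rintro ⟨k, ⟨hk1, hk2⟩, hxU⟩
      exact ⟨Or.inr ⟨k, hk1, hk2⟩, hxU⟩
  have step2 : μ (A ∩ U) = μ (⋃ k, (firstRet S' U k ∩ A ∩ U)) := by
    apply measure_congr
    filter_upwards [ae_exists_firstRet hS' hU] with x hx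
    apply propext
    change (x ∈ A ∩ U) ↔ x ∈ ⋃ k, (firstRet S' U k ∩ A ∩ U)
    simp only [Set.mem_inter_iff, Set.mem_iUnion]
    constructor
    · rintro ⟨hxA, hxU⟩
      obtain ⟨k, hk⟩ := hx hxU
      exact ⟨k, ⟨hk, hxA⟩, hxU⟩
    · rintro ⟨k, ⟨hk1, hk2⟩, hxU⟩
      exact ⟨hk2, hxU⟩
  rw [step1, step2, measure_iUnion, measure_iUnion]
  · refine tsum_congr fun k => ?_
    rw [firstRet_inter_preimage h2, (hS.iterate (k + 1)).measure_preimage
      (hG k).nullMeasurableSet]
  · intro i j hij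
    exact (disjoint_firstRet S' U hij).mono
      (Set.inter_subset_left.trans Set.inter_subset_left)
      (Set.inter_subset_left.trans Set.inter_subset_left)
  · exact hG
  · intro i j hij
    exact (disjoint_firstRet S U hij).mono
      (Set.inter_subset_left.trans Set.inter_subset_left)
      (Set.inter_subset_left.trans Set.inter_subset_left)
  · intro k
    exact ((hFm k).inter ((hS.measurable.iterate _) hA)).inter hU

end Pool.Agent.RWPP
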