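import Pool.Agent.Lib_MP_68f671_pr.PathClt

/-!
# The law of the walk on `ℤ²`
-/

open MeasureTheory ProbabilityTheory Filter Topology
open scoped ENNReal

namespace Pool.Agent.RWPP

noncomputable section

open OpCLT

/-- The two-dimensional configuration `ω(x, y) = ξ(2x + y)`. -/
def om (ξ : Cf) : Conf 2 := fun v => ξ (2 * v 0 + v 1)

/-- The linear form `2x + y`. -/
def ell (v : Zd 2) : ℤ := 2 * v 0 + v 1

lemma ell_add (v w : Zd 2) : ell (v + w) = ell v + ell w := by
  simp only [ell, Pi.add_apply]; ring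

lemma ell_smul (k : ℤ) (v : Zd 2) : ell (k • v) = k * ell v := by
  simp only [ell, Pi.smul_apply, smul_eq_mul]; ring

lemma ell_dir (e : Fin 2 × Bool) : ell (dir e) = sg e := by
  revert e
  apply forall_dir <;> simp [ell, dir, Pi.single_apply]

lemma shift_om (v : Zd 2) (ξ : Cf) : shift v (om ξ) = om (sh (ell v) ξ) := by
  funext y
  simp only [shift, om, sh_apply, ell, Pi.add_apply]
  congr 1; ring

lemma om_smul_dir (k : ℤ) (e : Fin 2 × Bool) (ξ : Cf) : om ξ (k • dir e) = ξ (sg e * k) := by
  have h : om ξ (k • dir e) = ξ (ell (k • dir e)) := rfl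
  rw [h, ell_smul, ell_dir, mul_comm]

lemma gap_om (e : Fin 2 × Bool) (ξ : Cf) : gap e (om ξ) = tau (sg e) ξ := by
  unfold gap tau
  congr 1
  ext k
  simp only [Set.mem_ofPred_eq, om_smul_dir]

/-- The displacement in direction `e`. -/
def disp (e : Fin 2 × Bool) (ξ : Cf) : Zd 2 := (tau (sg e) ξ : ℤ) • dir e

lemma ell_disp (e : Fin 2 × Bool) (ξ : Cf) : ell (disp e ξ) = jump (sg e) ξ := by
  rw [disp, ell_smul, ell_dir, jump, mul_comm]

lemma disp_one (e : Fin 2 × Bool) (ξ : Cf) : ((disp e ξ 1 : ℤ) : ℝ) = dY e ξ := by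
  revert e
  apply forall_dir <;> simp [disp, dir, dY, jump, Pi.single_apply]

lemma measurable_disp (e : Fin 2 × Bool) : Measurable (disp e) :=
  (measurable_from_top (f := fun n : ℕ => (n : ℤ) • dir e)).comp (measurable_tau _)

/-- The position after `n` steps. -/
def posn (n : ℕ) (p : Cf × (ℕ → Fin 2 × Bool)) : Zd 2 :=
  birkhoffSum (skew T) (fun p => disp (p.2 0) p.1) n p

lemma measurable_posn (n : ℕ) : Measurable (posn n) := by
  have h1 : Measurable fun p : Cf × (Fin 2 × Bool) => disp p.2 p.1 :=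
    measurable_from_prod_countable_left fun e => measurable_disp e
  have h2 : Measurable fun p : Cf × (ℕ → Fin 2 × Bool) => disp (p.2 0) p.1 :=
    h1.comp (measurable_fst.prodMk ((measurable_pi_apply 0).comp measurable_snd))
  induction n with
  | zero => exact measurable_const
  | succ n ih =>
    have e : posn (n + 1) = fun p => posn n p + disp (((skew T)^[n] p).2 0) ((skew T)^[n] p).1 := by
      funext p
      simp only [posn, birkhoffSum_succ]
    rw [e]
    have h3 : Measurable fun p => disp (((skew T)^[n] p).2 0) ((skew T)^[n] p).1 :=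
      h2.comp ((OpCLT.measurable_skew T measurable_T).iterate n)
    have h4 : Measurable fun q : Zd 2 × Zd 2 => q.1 + q.2 := measurable_of_countable _
    exact h4.comp (ih.prodMk h3)

lemma ell_posn (n : ℕ) (p : Cf × (ℕ → Fin 2 × Bool)) : ell (posn n p) = SS n p := by
  induction n with
  | zero => simp [posn, SS, ell]
  | succ n ih =>
    simp only [posn, SS, birkhoffSum_succ] at ih ⊢
    rw [ell_add, ih, ell_disp]

lemma posn_one (n : ℕ) (p : Cf × (ℕ → Fin 2 × Bool)) : ((posn n p 1 : ℤ) : ℝ) = YY n p := by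
  induction n with
  | zero => simp [posn, YY]
  | succ n ih =>
    simp only [posn, YY, birkhoffSum_succ, Pi.add_apply] at ih ⊢
    rw [Int.cast_add, ih, disp_one]

/-- The law of the walk started from `v`, first-step recursion. -/
def wl (ω : Conf 2) : ℕ → Zd 2 → PMF (Zd 2)
  | 0, v => PMF.pure v
  | n + 1, v => (stepLaw ω v).bind (wl ω n)

lemma wl_bind (ω : Conf 2) (n : ℕ) : ∀ v, (wl ω n v).bind (stepLaw ω) = wl ω (n + 1) v := by
  induction n with
  | zero =>
    intro v
    simp only [wl, PMF.pure_bind]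
    exact (PMF.bind_pure _).symm
  | succ n ih =>
    intro v
    change ((stepLaw ω v).bind (wl ω n)).bind (stepLaw ω) = (stepLaw ω v).bind (wl ω (n + 1))
    rw [PMF.bind_bind]
    congr 1
    funext v'
    exact ih v'

lemma walkLaw_eq (ω : Conf 2) (n : ℕ) : walkLaw ω n = wl ω n 0 := by
  induction n with
  | zero => rfl
  | succ n ih => rw [walkLaw, ih, wl_bind]

lemma wl_succ (ξ : Cf) (n : ℕ) (v : Zd 2) :
    wl (om ξ) (n + 1) v = (PMF.uniformOfFintype (Fin 2 × Bool)).bind
      fun e => wl (om ξ) n (v + disp e (sh (ell v) ξ)) := by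
  have h : stepLaw (om ξ) v = (PMF.uniformOfFintype (Fin 2 × Bool)).map
      fun e => v + disp e (sh (ell v) ξ) := by
    unfold stepLaw disp
    congr 1
    funext e
    rw [shift_om, gap_om]
  rw [wl, h, PMF.bind_map]
  rfl

theorem law_eq (ξ : Cf) (n : ℕ) : ∀ v : Zd 2,
    (wl (om ξ) n v).toMeasure = NW.map fun w => v + posn n (sh (ell v) ξ, w) := by
  have hadd : ∀ v : Zd 2, Measurable fun u : Zd 2 => v + u := fun v => measurable_of_countable _
  have hm : ∀ (n : ℕ) (v : Zd 2) (ζ : Cf), Measurable fun w => v + posn n (ζ, w) := fun n v ζ =>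
    (hadd v).comp ((measurable_posn n).comp measurable_prodMk_left)
  induction n with
  | zero =>
    intro v
    ext A hA
    rw [wl, PMF.toMeasure_pure]
    have : (fun w => v + posn 0 (sh (ell v) ξ, w)) = fun _ : ℕ → Fin 2 × Bool => v := by
      funext w; simp [posn]
    rw [this, Measure.map_const]
    simp
  | succ n ih =>
    intro v
    ext A hA
    rw [wl_succ, PMF.toMeasure_bind_apply _ _ _ hA, tsum_fintype, Measure.map_apply (hm _ _ _) hA]
    have hN : NW = NN (Fin 2 × Bool) := rfl
    rw [hN, NN_apply ((hm _ _ _) hA), Finset.mul_sum]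
    apply Finset.sum_congr rfl
    intro e _
    rw [PMF.uniformOfFintype_apply, ih, Measure.map_apply (hm _ _ _) hA, hN]
    congr 2
    ext w
    simp only [Set.mem_preimage, Set.mem_ofPred_eq]
    have h1 : posn (n + 1) (sh (ell v) ξ, consW (e, w)) =
        disp e (sh (ell v) ξ) + posn n (sh (ell (v + disp e (sh (ell v) ξ))) ξ, w) := by
      rw [posn, birkhoffSum_succ', posn]
      congr 2
      rw [ell_add, ell_disp]
      change (T e (sh (ell v) ξ), w) = _
      rw [T, sh_sh, add_comm]
    rw [h1, add_assoc]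

lemma inner_scale (n : ℕ) (v : Zd 2) (t : EuclideanSpace ℝ (Fin 2)) :
    inner ℝ (scale n v) t =
      ((t 0 / 2 * ell v + (t 1 - t 0 / 2) * ((v 1 : ℤ) : ℝ)) / √n : ℝ) := by
  rw [PiLp.inner_apply, Fin.sum_univ_two]
  simp only [scale, ell]
  simp
  ring

lemma charFun_scaledLaw (ξ : Cf) (n : ℕ) (t : EuclideanSpace ℝ (Fin 2)) :
    charFun (scaledLaw (om ξ) n : Measure (EuclideanSpace ℝ (Fin 2))) t =
      ∫ w, Complex.exp (Complex.I *
        (((t 0 / 2 * SS n (ξ, w) + (t 1 - t 0 / 2) * YY n (ξ, w)) / √n : ℝ) : ℂ)) ∂NW := by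
  have h0 : (walkLaw (om ξ) n).toMeasure = NW.map fun w => posn n (ξ, w) := by
    rw [walkLaw_eq, law_eq]
    simp [ell]
  have hp : Measurable fun w => posn n (ξ, w) := (measurable_posn n).comp measurable_prodMk_left
  rw [charFun_apply]
  change ∫ x, Complex.exp (inner ℝ x t * Complex.I)
    ∂((walkLaw (om ξ) n).toMeasure.map (scale n)) = _
  have hc : Continuous fun x : EuclideanSpace ℝ (Fin 2) =>
      Complex.exp ((inner ℝ x t : ℝ) * Complex.I) := by fun_prop
  rw [integral_map (measurable_of_countable _).aemeasurable hc.aestronglyMeasurable, h0,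
    integral_map hp.aemeasurable (measurable_of_countable _).aestronglyMeasurable]
  congr 1
  funext w
  rw [inner_scale, ell_posn, posn_one, mul_comm]

end

end Pool.Agent.RWPP
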