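import Pool.Agent.Lib_MP_68f671_pr.Meas
import Pool.Agent.Lib_MP_68f671_pr.Birkhoff

/-!
# Law of large numbers for the cocycles
-/

open MeasureTheory ProbabilityTheory Filter Topology
open scoped ENNReal

namespace Pool.Agent.RWPP

noncomputable section

lemma lin_bound {a : ℕ → ℝ} {m : ℝ} (h : Tendsto (fun n : ℕ => a n / n) atTop (𝓝 m)) {ε : ℝ}
    (hε : 0 < ε) : ∃ K, 0 ≤ K ∧ ∀ n : ℕ, |a n - m * n| ≤ ε * n + K := by
  rw [Metric.tendsto_atTop] at h
  obtain ⟨N, hN⟩ := h ε hε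
  refine ⟨∑ n ∈ Finset.range (N + 1), |a n - m * n|, Finset.sum_nonneg fun _ _ => abs_nonneg _,
    fun n => ?_⟩
  have hs : 0 ≤ ∑ n ∈ Finset.range (N + 1), |a n - m * n| :=
    Finset.sum_nonneg fun _ _ => abs_nonneg _
  by_cases hn : n < N + 1
  · have h1 : |a n - m * n| ≤ ∑ n ∈ Finset.range (N + 1), |a n - m * n| :=
      Finset.single_le_sum (f := fun n : ℕ => |a n - m * n|) (fun _ _ => abs_nonneg _)
        (Finset.mem_range.2 hn)
    have h2 : 0 ≤ ε * n := by positivity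
    linarith
  · have hn' : N ≤ n := by omega
    have h1 := hN n hn'
    rw [Real.dist_eq] at h1
    have hpos : (0 : ℝ) < n := by
      have : 0 < n := by omega
      exact_mod_cast this
    have h2 : |a n - m * n| = |a n / n - m| * n := by
      rw [← abs_of_pos hpos, ← abs_mul, abs_of_pos hpos]
      congr 1
      field_simp
    rw [h2]
    nlinarith

lemma sh_iterate (s : ℤ) (n : ℕ) (ξ : Cf) : (sh s)^[n] ξ = sh (s * n) ξ := by
  induction n generalizing ξ with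
  | zero => simp
  | succ n ih =>
    rw [Function.iterate_succ_apply', ih, sh_sh]
    congr 1; push_cast; ring

lemma coc_eq_birkhoff (g : Cf → ℝ) (ξ : Cf) (n : ℕ) :
    coc g ξ n = birkhoffSum (sh 1) g n ξ := by
  rw [coc_natCast, birkhoffSum]
  apply Finset.sum_congr rfl
  intro i _
  rw [sh_iterate]; simp

lemma coc_neg_eq_birkhoff (g : Cf → ℝ) (ξ : Cf) (n : ℕ) :
    coc g ξ (-(n : ℤ)) = - birkhoffSum (sh (-1)) g n (sh (-1) ξ) := by
  rcases n with _ | n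
  · simp
  · have : (-((n + 1 : ℕ) : ℤ)) = -((n : ℤ) + 1) := by push_cast; ring
    rw [this, coc_neg_succ, birkhoffSum]
    congr 1
    apply Finset.sum_congr rfl
    intro i _
    rw [sh_iterate, sh_sh]
    congr 2; ring

theorem lln {μ : Measure Cf} [IsProbabilityMeasure μ] (hμ : Ergodic (sh 1) μ) {g : Cf → ℝ}
    (hg : Measurable g) {C : ℝ} (hC : ∀ ξ, |g ξ| ≤ C) :
    ∀ᵐ ξ ∂μ, ∀ ε > 0, ∃ K, 0 ≤ K ∧ ∀ s : ℤ,
      |coc g ξ s - (∫ ζ, g ζ ∂μ) * s| ≤ ε * |(s : ℝ)| + K := by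
  have hμ' := ergodic_sh_neg hμ
  have hi : Integrable g μ := integrable_of_bdd hg hC
  have h1 := birkhoff hμ hi
  have h2 := hμ'.toMeasurePreserving.quasiMeasurePreserving.ae (birkhoff hμ' hi)
  filter_upwards [h1, h2] with ξ h1 h2 ε hε
  obtain ⟨K1, hK1, hb1⟩ := lin_bound h1 hε
  obtain ⟨K2, hK2, hb2⟩ := lin_bound h2 hε
  refine ⟨K1 + K2, by linarith, fun s => ?_⟩
  obtain ⟨n, rfl | rfl⟩ := s.eq_nat_or_neg
  · have := hb1 n
    rw [coc_eq_birkhoff]
    simp only [Int.cast_natCast, Nat.abs_cast]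
    linarith
  · have := hb2 n
    rw [coc_neg_eq_birkhoff]
    simp only [Int.cast_neg, Int.cast_natCast, abs_neg, Nat.abs_cast]
    rw [show -birkhoffSum (sh (-1)) g n (sh (-1) ξ) - (∫ ζ, g ζ ∂μ) * -(n : ℝ) =
      -(birkhoffSum (sh (-1)) g n (sh (-1) ξ) - (∫ ζ, g ζ ∂μ) * n) by ring, abs_neg]
    linarith

end

end Pool.Agent.RWPP
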