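import Pool.Agent.Lib_MP_68f671_pr.Blocks

/-!
# Measurability, and the positive speed of the harmonic coordinate
-/

open MeasureTheory ProbabilityTheory Filter Topology
open scoped ENNReal

namespace Pool.Agent.RWPP

noncomputable section

lemma measurable_sh (s : ℤ) : Measurable (sh s) :=
  measurable_pi_lambda _ fun t => measurable_pi_apply (t + s)

lemma measurableSet_site (t : ℤ) : MeasurableSet {ξ : Cf | ξ t = true} := by
  have h : Measurable fun ξ : Cf => ξ t := measurable_pi_apply t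
  exact h (measurableSet_singleton true)

lemma measurableSet_Fl (s : ℤ) : MeasurableSet {ξ : Cf | Fl ξ s} := by
  exact (measurableSet_site s).inter (measurableSet_site (s + 1))

lemma measurable_sInf_nat {α : Type*} [MeasurableSpace α] {p : ℕ → α → Prop}
    (hp : ∀ r, MeasurableSet {x | p r x}) : Measurable fun x => sInf {r : ℕ | p r x} := by
  apply measurable_to_countable'
  intro k
  have h1 : MeasurableSet {x | (∀ j < k, ¬ p j x) ∧ p k x} := by
    have : {x | (∀ j < k, ¬ p j x) ∧ p k x} =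
        (⋂ j, ⋂ (_ : j < k), {x | p j x}ᶜ) ∩ {x | p k x} := by
      ext x; simp
    rw [this]
    exact (MeasurableSet.iInter fun j => MeasurableSet.iInter fun _ => (hp j).compl).inter (hp k)
  have h2 : MeasurableSet {x | ∀ j, ¬ p j x} := by
    have : {x | ∀ j, ¬ p j x} = ⋂ j, {x | p j x}ᶜ := by
      ext x; simp
    rw [this]
    exact MeasurableSet.iInter fun j => (hp j).compl
  rcases Nat.eq_zero_or_pos k with hk | hk
  · subst hk
    have : (fun x => sInf {r : ℕ | p r x}) ⁻¹' {0} =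
        {x | (∀ j < 0, ¬ p j x) ∧ p 0 x} ∪ {x | ∀ j, ¬ p j x} := by
      ext x
      simp only [Set.mem_preimage, Set.mem_singleton_iff, Nat.sInf_eq_zero, Set.mem_ofPred_eq,
        Set.mem_union, Set.eq_empty_iff_forall_notMem]
      simp
    rw [this]
    exact h1.union h2
  · have : (fun x => sInf {r : ℕ | p r x}) ⁻¹' {k} = {x | (∀ j < k, ¬ p j x) ∧ p k x} := by
      ext x
      simp only [Set.mem_preimage, Set.mem_singleton_iff, Set.mem_ofPred_eq]
      constructor
      · intro h
        have hne : {r : ℕ | p r x}.Nonempty := by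
          rw [Set.nonempty_iff_ne_empty]
          intro he
          rw [he] at h
          simp at h
          omega
        refine ⟨fun j hj hpj => ?_, ?_⟩
        · have := Nat.notMem_of_lt_sInf (s := {r : ℕ | p r x}) (m := j) (by omega)
          exact this hpj
        · have := Nat.sInf_mem hne
          rw [h] at this
          exact this
      · rintro ⟨h3, h4⟩
        exact sInf_eq_of h4 h3
    rw [this]
    exact h1

lemma measurable_rr : Measurable rr :=
  measurable_sInf_nat fun r => measurableSet_Fl r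

lemma measurable_oo : Measurable oo :=
  measurable_sInf_nat fun r => measurableSet_Fl (-(r : ℤ) - 1)

lemma measurable_Dn : Measurable Dn := by
  unfold Dn
  have h1 : Measurable fun ξ => (oo ξ : ℝ) := measurable_from_top.comp measurable_oo
  have h2 : Measurable fun ξ => (rr ξ : ℝ) := measurable_from_top.comp measurable_rr
  exact measurable_const.add ((h1.add h2).div_const 4)

lemma measurable_sh_comp {n : Cf → ℤ} (hn : Measurable n) : Measurable fun ξ => sh (n ξ) ξ := by
  have h : Measurable fun p : ℤ × Cf => sh p.1 p.2 :=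
    measurable_from_prod_countable_right fun s => measurable_sh s
  exact h.comp (hn.prodMk measurable_id)

lemma measurable_Aa : Measurable Aa :=
  measurable_sh_comp (n := fun ξ => (rr ξ : ℤ) + 1)
    ((measurable_from_top (f := fun n : ℕ => (n : ℤ) + 1)).comp measurable_rr)

lemma measurable_Bb : Measurable Bb :=
  measurable_sh_comp (n := fun ξ => -((oo ξ : ℤ) + 1))
    ((measurable_from_top (f := fun n : ℕ => -((n : ℤ) + 1))).comp measurable_oo)

lemma measurable_Fit (m : ℕ) : Measurable (Fit m) := by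
  induction m with
  | zero => exact measurable_const
  | succ m ih =>
    exact ((measurable_const.sub (ih.comp measurable_Aa)).sub (ih.comp measurable_Bb)).div
      measurable_Dn

lemma measurable_F : Measurable F :=
  measurable_of_tendsto_metrizable measurable_Fit (tendsto_pi_nhds.2 F_spec)

lemma measurable_eta : Measurable eta := by
  unfold eta
  refine Measurable.ite (measurableSet_Fl 0) ?_ ?_
  · exact (measurable_F.add (measurable_F.comp (measurable_sh 1))).sub_const 1
  · exact measurable_F.div_const 4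

lemma measurable_fl1 : Measurable fl1 := by
  unfold fl1
  exact Measurable.ite (measurableSet_Fl 0) measurable_const measurable_const

lemma abs_eta_le (ξ : Cf) : |eta ξ| ≤ 1 := by
  unfold eta
  have h0 := F_nonneg ξ
  have h1 := F_le_one ξ
  have h2 := F_nonneg (sh 1 ξ)
  have h3 := F_le_one (sh 1 ξ)
  split_ifs
  · rw [abs_le]; constructor <;> linarith
  · rw [abs_le]; constructor <;> linarith

lemma fl1_nonneg (ξ : Cf) : 0 ≤ fl1 ξ := by
  unfold fl1; split_ifs <;> norm_num

lemma abs_fl1_le (ξ : Cf) : |fl1 ξ| ≤ 1 := by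
  unfold fl1; split_ifs <;> norm_num

/-- The potential drop from the beginning of the block. -/
def kap (ξ : Cf) : ℝ := oo ξ * F ξ / 4

lemma kap_nonneg (ξ : Cf) : 0 ≤ kap ξ := by
  unfold kap
  have := F_nonneg ξ
  positivity

lemma kap_le (ξ : Cf) : kap ξ ≤ 3 := by
  have h := F_mul ξ
  have h1 := F_nonneg (Aa ξ)
  have h2 := F_nonneg (Bb ξ)
  have h3 := F_nonneg ξ
  have h4 : 0 ≤ (rr ξ : ℝ) * F ξ := by positivity
  unfold kap
  unfold Dn at h
  nlinarith

lemma measurable_kap : Measurable kap := by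
  have h1 : Measurable fun ξ => (oo ξ : ℝ) := measurable_from_top.comp measurable_oo
  exact (h1.mul measurable_F).div_const 4

/-- The pointwise lower bound for `eta`. -/
lemma Good.eta_ge {ξ : Cf} (h : Good ξ) :
    fl1 ξ / 5 + (kap (sh 1 ξ) - kap ξ) + 3 / 5 * (F (sh 1 ξ) - F ξ)
      + 2 / 5 * (F (Bb (sh 1 ξ)) - F (Bb ξ)) ≤ eta ξ := by
  by_cases h0 : Fl ξ 0
  · have hm := F_mul ξ
    rw [Aa_of_Fl h0, Dn, rr_of_Fl h0] at hm
    have hk : kap (sh 1 ξ) = 0 := by
      unfold kap; rw [oo_sh_one_of_Fl h0]; simp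
    rw [Bb_sh_one_of_Fl h0, hk, fl1, if_pos h0, eta, if_pos h0]
    have hF := F_nonneg ξ
    have ho : (0 : ℝ) ≤ oo ξ * F ξ := by positivity
    unfold kap
    push_cast at hm
    nlinarith
  · rw [h.F_sh_one h0, h.Bb_sh_one h0, fl1, if_neg h0, eta, if_neg h0]
    have hk : kap (sh 1 ξ) = kap ξ + F ξ / 4 := by
      unfold kap; rw [h.oo_sh_one h0, h.F_sh_one h0]; push_cast; ring
    rw [hk]; linarith

lemma integrable_of_bdd {μ : Measure Cf} [IsProbabilityMeasure μ] {g : Cf → ℝ}
    (hg : Measurable g) {C : ℝ} (hC : ∀ ξ, |g ξ| ≤ C) : Integrable g μ :=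
  Integrable.of_bound hg.aestronglyMeasurable C (ae_of_all _ fun ξ => by
    rw [Real.norm_eq_abs]; exact hC ξ)

lemma integral_diff_eq_zero {μ : Measure Cf} [IsProbabilityMeasure μ]
    (hμ : MeasurePreserving (sh 1) μ μ) {g : Cf → ℝ} (hg : Measurable g) {C : ℝ}
    (hC : ∀ ξ, |g ξ| ≤ C) :
    Integrable (fun ξ => g (sh 1 ξ) - g ξ) μ ∧ ∫ ξ, (g (sh 1 ξ) - g ξ) ∂μ = 0 := by
  have h1 : Integrable g μ := integrable_of_bdd hg hC
  have h2 : Integrable (fun ξ => g (sh 1 ξ)) μ := hμ.integrable_comp_of_integrable h1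
  refine ⟨h2.sub h1, ?_⟩
  rw [integral_sub h2 h1]
  have : ∫ ξ, g (sh 1 ξ) ∂μ = ∫ ξ, g ξ ∂μ := by
    conv_rhs => rw [← hμ.map_eq]
    rw [integral_map hμ.aemeasurable hg.aestronglyMeasurable]
  rw [this, sub_self]

/-- The speed of the harmonic coordinate is at least one fifth of the density of flips. -/
theorem speed_ge {μ : Measure Cf} [IsProbabilityMeasure μ] (hμ : MeasurePreserving (sh 1) μ μ)
    (hG : ∀ᵐ ξ ∂μ, Good ξ) : (∫ ξ, fl1 ξ ∂μ) / 5 ≤ ∫ ξ, eta ξ ∂μ := by
  obtain ⟨i1, e1⟩ := integral_diff_eq_zero hμ measurable_kap (C := 3) (fun ξ => by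
    rw [abs_of_nonneg (kap_nonneg ξ)]; exact kap_le ξ)
  obtain ⟨i2, e2⟩ := integral_diff_eq_zero hμ measurable_F (C := 1) (fun ξ => by
    rw [abs_of_nonneg (F_nonneg ξ)]; exact F_le_one ξ)
  obtain ⟨i3, e3⟩ := integral_diff_eq_zero hμ (measurable_F.comp measurable_Bb) (C := 1)
    (fun ξ => by
      simp only [Function.comp]
      rw [abs_of_nonneg (F_nonneg _)]; exact F_le_one _)
  simp only [Function.comp] at i3 e3
  have i0 : Integrable (fun ξ => fl1 ξ / 5) μ :=
    (integrable_of_bdd measurable_fl1 abs_fl1_le).div_const 5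
  have j1 : Integrable (fun ξ => fl1 ξ / 5 + (kap (sh 1 ξ) - kap ξ)) μ := i0.add i1
  have j2 : Integrable (fun ξ => 3 / 5 * (F (sh 1 ξ) - F ξ)) μ := i2.const_mul _
  have j3 : Integrable (fun ξ => 2 / 5 * (F (Bb (sh 1 ξ)) - F (Bb ξ))) μ := i3.const_mul _
  have j4 : Integrable (fun ξ => fl1 ξ / 5 + (kap (sh 1 ξ) - kap ξ)
      + 3 / 5 * (F (sh 1 ξ) - F ξ)) μ := j1.add j2
  have hle : ∫ ξ, (fl1 ξ / 5 + (kap (sh 1 ξ) - kap ξ) + 3 / 5 * (F (sh 1 ξ) - F ξ)
      + 2 / 5 * (F (Bb (sh 1 ξ)) - F (Bb ξ))) ∂μ ≤ ∫ ξ, eta ξ ∂μ := by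
    apply integral_mono_ae (j4.add j3) (integrable_of_bdd measurable_eta abs_eta_le)
    filter_upwards [hG] with ξ hξ using hξ.eta_ge
  rw [integral_add j4 j3, integral_add j1 j2, integral_add i0 i1, integral_const_mul,
    integral_const_mul, e1, e2, e3, integral_div] at hle
  linarith

lemma fl1_int_pos {μ : Measure Cf} [IsProbabilityMeasure μ] (hμ : MeasurePreserving (sh 1) μ μ)
    (hG : ∀ᵐ ξ ∂μ, Good ξ) : 0 < ∫ ξ, fl1 ξ ∂μ := by
  rcases (integral_nonneg fl1_nonneg : 0 ≤ ∫ ξ, fl1 ξ ∂μ).lt_or_eq with h | h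
  · exact h
  · exfalso
    have h1 : fl1 =ᵐ[μ] 0 :=
      (integral_eq_zero_iff_of_nonneg fl1_nonneg
        (integrable_of_bdd measurable_fl1 abs_fl1_le)).1 h.symm
    have h2 : ∀ᵐ ξ ∂μ, ∀ n : ℕ, fl1 ((sh 1)^[n] ξ) = 0 := by
      rw [ae_all_iff]
      intro n
      have := (hμ.iterate n).quasiMeasurePreserving.ae h1
      simpa using this
    have h3 : ∀ (n : ℕ) (ξ : Cf), (sh 1)^[n] ξ = sh n ξ := by
      intro n
      induction n with
      | zero => intro ξ; simp
      | succ n ih =>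
        intro ξ
        rw [Function.iterate_succ_apply', ih, sh_sh]
        congr 1; push_cast; ring
    obtain ⟨ξ, hξ, hξ'⟩ := (h2.and hG).exists
    obtain ⟨t, ht, hf⟩ := hξ'.2.1 0
    have := hξ t.toNat
    rw [h3, fl1, if_pos] at this
    · norm_num at this
    · rw [Fl_sh, Int.toNat_of_nonneg ht]; simpa using hf

lemma ergodic_sh_neg {μ : Measure Cf} (hμ : Ergodic (sh 1) μ) : Ergodic (sh (-1)) μ := by
  have h1 : ∀ ξ, sh (-1) (sh 1 ξ) = ξ := fun ξ => by rw [sh_sh]; simp
  have h2 : ∀ ξ, sh 1 (sh (-1) ξ) = ξ := fun ξ => by rw [sh_sh]; simp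
  let e : Cf ≃ᵐ Cf :=
    { toFun := sh 1
      invFun := sh (-1)
      left_inv := h1
      right_inv := h2
      measurable_toFun := measurable_sh 1
      measurable_invFun := measurable_sh (-1) }
  have hmp : MeasurePreserving (sh (-1)) μ μ := by
    have : MeasurePreserving e μ μ := hμ.toMeasurePreserving
    exact this.symm
  refine ⟨hmp, ⟨fun s hs hs' => ?_⟩⟩
  apply hμ.toPreErgodic.aeconst_set hs
  ext ξ
  rw [Set.mem_preimage]
  conv_rhs => rw [← h1 ξ]
  rw [← Set.mem_preimage (f := sh (-1)), hs']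

end

end Pool.Agent.RWPP
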