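import Mathlib

/-!
# Random walk on discrete point processes: the model

Configurations on `ℤ^d`, coordinate nearest points, the walk, the normal laws.
-/

open MeasureTheory ProbabilityTheory Filter Topology
open scoped ENNReal

namespace Pool.Agent.RWPP

noncomputable section

/-- The lattice `ℤ^d`. -/
abbrev Zd (d : ℕ) := Fin d → ℤ

/-- Configurations `{0,1}^{ℤ^d}`, with the product sigma-algebra. -/
abbrev Conf (d : ℕ) := Zd d → Bool

/-- The shift `(θ_x ω)(y) = ω(x + y)`. -/
def shift {d : ℕ} (x : Zd d) (ω : Conf d) : Conf d := fun y => ω (x + y)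

/-- The unit vectors: `(i, true)` stands for `e_i`, `(i, false)` for `-e_i`. -/
def dir {d : ℕ} (e : Fin d × Bool) : Zd d := Pi.single e.1 (if e.2 then 1 else -1)

/-- `f_e(ω) = min {k ≥ 1 : ω(k e) = 1}`. -/
def gap {d : ℕ} (e : Fin d × Bool) (ω : Conf d) : ℕ :=
  sInf {k : ℕ | 1 ≤ k ∧ ω ((k : ℤ) • dir e) = true}

/-- The conditions on the law `Q` of the point process: a probability measure, stationary and
ergodic under each `θ_{e_i}`, with `Q(ω ≡ 0) < 1`. -/
structure IsPointProcess {d : ℕ} (Q : Measure (Conf d)) : Prop where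
  prob : IsProbabilityMeasure Q
  ergodic : ∀ i : Fin d, Ergodic (shift (dir (i, true))) Q
  nonzero : Q {ω | ∀ x, ω x = false} < 1

/-- `P = Q( · | ω(0) = 1)`. -/
def palm {d : ℕ} (Q : Measure (Conf d)) : Measure (Conf d) := Q[|{ω | ω 0 = true}]

/-- One step of the walk from `v`: uniform on the `2d` coordinate nearest points
`v + f_e(θ_v ω) e`. -/
def stepLaw {d : ℕ} [NeZero d] (ω : Conf d) (v : Zd d) : PMF (Zd d) :=
  (PMF.uniformOfFintype (Fin d × Bool)).map fun e => v + (gap e (shift v ω) : ℤ) • dir e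

/-- The law of `X_n` under `P_ω`, started from `X_0 = 0`. -/
def walkLaw {d : ℕ} [NeZero d] (ω : Conf d) : ℕ → PMF (Zd d)
  | 0 => PMF.pure 0
  | n + 1 => (walkLaw ω n).bind (stepLaw ω)

/-- The point `v / √n` of Euclidean space. -/
def scale {d : ℕ} (n : ℕ) (v : Zd d) : EuclideanSpace ℝ (Fin d) :=
  WithLp.toLp 2 fun i => (v i : ℝ) / √n

/-- The law of `X_n / √n` under `P_ω`. -/
def scaledLaw {d : ℕ} [NeZero d] (ω : Conf d) (n : ℕ) :
    ProbabilityMeasure (EuclideanSpace ℝ (Fin d)) :=
  ⟨(walkLaw ω n).toMeasure.map (scale n),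
    Measure.isProbabilityMeasure_map (measurable_of_countable _).aemeasurable⟩

/-- The centred normal law `N(0, D)`. -/
def normalLaw {d : ℕ} (D : Matrix (Fin d) (Fin d) ℝ) :
    ProbabilityMeasure (EuclideanSpace ℝ (Fin d)) :=
  ⟨multivariateGaussian 0 D, inferInstance⟩

end

end Pool.Agent.RWPP
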