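import Pool.Agent.Lib_MP_68f671_pr.Defs

/-!
# A central limit theorem for bounded martingale additive functionals of a skew product

`second_moment`, `clt_core`: the operator argument.
-/

open MeasureTheory ProbabilityTheory Filter Topology
open scoped ENNReal

namespace Pool.Agent.RWPP

namespace OpCLT

variable {α E : Type*}

/-- Prepend a letter to a word. -/
def cons (a : E) (w : ℕ → E) : ℕ → E := fun n => Nat.casesOn n a w

@[simp] theorem cons_zero (a : E) (w : ℕ → E) : cons a w 0 = a := rfl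

@[simp] theorem cons_succ (a : E) (w : ℕ → E) (n : ℕ) : cons a w (n + 1) = w n := rfl

theorem cons_tail (a : E) (w : ℕ → E) : (fun n => cons a w (n + 1)) = w := rfl

section Integral

variable [Fintype E] [Nonempty E] [MeasurableSpace E] [MeasurableSingletonClass E]

omit [Fintype E] [Nonempty E] [MeasurableSingletonClass E] in
theorem measurable_cons : Measurable (fun p : E × (ℕ → E) => cons p.1 p.2) := by
  refine measurable_pi_lambda _ fun n => ?_
  cases n with
  | zero => exact measurable_fst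
  | succ n => exact (measurable_pi_apply n).comp measurable_snd

theorem unif_real_singleton (a : E) : (unif E).real {a} = (Fintype.card E : ℝ)⁻¹ := by
  unfold unif
  rw [Measure.real, PMF.toMeasure_apply_singleton _ _ (measurableSet_singleton a)]
  simp

omit [MeasurableSingletonClass E] in
theorem map_cons :
    ((unif E).prod (Measure.infinitePi fun _ : ℕ => unif E)).map (fun p => cons p.1 p.2) =
      Measure.infinitePi fun _ : ℕ => unif E := by
  classical
  refine Measure.eq_infinitePi _ fun s t ht => ?_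
  obtain ⟨n, hn⟩ : ∃ n, s ⊆ Finset.range (n + 1) := by
    refine ⟨s.sup id, fun i hi => ?_⟩
    have : i ≤ s.sup id := Finset.le_sup (f := id) hi
    simp only [Finset.mem_range]; omega
  set t' : ℕ → Set E := fun i => if i ∈ s then t i else Set.univ with ht'
  have hmt' : ∀ i, MeasurableSet (t' i) := by
    intro i; simp only [ht']; split_ifs
    · exact ht i
    · exact MeasurableSet.univ
  have h1 : Set.pi (s : Set ℕ) t = Set.pi (Finset.range (n + 1) : Set ℕ) t' := by
    ext w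
    simp only [Set.mem_pi, Finset.mem_coe, ht']
    constructor
    · intro h i _
      split_ifs with hi
      · exact h i hi
      · trivial
    · intro h i hi
      have := h i (hn hi)
      rwa [if_pos hi] at this
  have h2 : ∏ i ∈ s, unif E (t i) = ∏ i ∈ Finset.range (n + 1), unif E (t' i) := by
    rw [← Finset.prod_subset hn]
    · exact Finset.prod_congr rfl fun i hi => by simp only [ht', if_pos hi]
    · intro i _ hi
      simp only [ht', if_neg hi, measure_univ]
  rw [h1, h2, Measure.map_apply measurable_cons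
    (MeasurableSet.pi (Finset.countable_toSet _) fun i _ => hmt' i)]
  have h3 : (fun p : E × (ℕ → E) => cons p.1 p.2) ⁻¹' Set.pi (Finset.range (n + 1) : Set ℕ) t' =
      t' 0 ×ˢ Set.pi (Finset.range n : Set ℕ) (fun i => t' (i + 1)) := by
    ext ⟨a, w⟩
    simp only [Set.mem_preimage, Set.mem_pi, Finset.mem_coe, Finset.mem_range, Set.mem_prod]
    constructor
    · intro h
      exact ⟨h 0 (by omega), fun i hi => h (i + 1) (by omega)⟩
    · rintro ⟨h0, h⟩ i hi
      cases i with
      | zero => exact h0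
      | succ i => exact h i (by omega)
  rw [h3, Measure.prod_prod, Measure.infinitePi_pi _ fun i _ => hmt' (i + 1),
    Finset.prod_range_succ', mul_comm]

theorem integral_cons {X : Type*} [NormedAddCommGroup X] [NormedSpace ℝ X] [CompleteSpace X]
    {F : (ℕ → E) → X} (hF : Integrable F (Measure.infinitePi fun _ : ℕ => unif E)) :
    ∫ w, F w ∂(Measure.infinitePi fun _ : ℕ => unif E) =
      (Fintype.card E : ℝ)⁻¹ • ∑ a, ∫ w, F (cons a w) ∂(Measure.infinitePi fun _ : ℕ => unif E) := by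
  have hmp : MeasurePreserving (fun p : E × (ℕ → E) => cons p.1 p.2)
      ((unif E).prod (Measure.infinitePi fun _ : ℕ => unif E))
      (Measure.infinitePi fun _ : ℕ => unif E) := ⟨measurable_cons, map_cons⟩
  have hint : Integrable (fun p : E × (ℕ → E) => F (cons p.1 p.2))
      ((unif E).prod (Measure.infinitePi fun _ : ℕ => unif E)) :=
    hmp.integrable_comp_of_integrable hF
  calc ∫ w, F w ∂(Measure.infinitePi fun _ : ℕ => unif E)
      = ∫ w, F w ∂(((unif E).prod (Measure.infinitePi fun _ : ℕ => unif E)).map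
          (fun p => cons p.1 p.2)) := by rw [map_cons]
    _ = ∫ p : E × (ℕ → E), F (cons p.1 p.2)
          ∂((unif E).prod (Measure.infinitePi fun _ : ℕ => unif E)) := by
        refine integral_map measurable_cons.aemeasurable ?_
        rw [map_cons]; exact hF.1
    _ = ∫ a, ∫ w, F (cons a w) ∂(Measure.infinitePi fun _ : ℕ => unif E) ∂(unif E) :=
        integral_prod _ hint
    _ = _ := by
        rw [integral_fintype hint.integral_prod_left, Finset.smul_sum]
        exact Finset.sum_congr rfl fun a _ => by rw [unif_real_singleton]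

end Integral

section Birk

variable (T : E → α → α)

theorem skew_cons (z : α) (a : E) (w : ℕ → E) : skew T (z, cons a w) = (T a z, w) := rfl

/-- the additive functional along the walk -/
theorem bs_cons {M : Type*} [AddCommMonoid M] (g : α × (ℕ → E) → M) (n : ℕ) (z : α) (a : E)
    (w : ℕ → E) : birkhoffSum (skew T) g (n + 1) (z, cons a w) =
      g (z, cons a w) + birkhoffSum (skew T) g n (T a z, w) := by
  rw [birkhoffSum_succ', skew_cons]

theorem cons_eta (w : ℕ → E) : cons (w 0) (fun n => w (n + 1)) = w := by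
  funext n; cases n <;> rfl

variable [MeasurableSpace α] [MeasurableSpace E] [Fintype E] [MeasurableSingletonClass E]

theorem measurable_skew (hT : ∀ e, Measurable (T e)) : Measurable (skew T) := by
  have h1 : Measurable (fun p : α × E => T p.2 p.1) :=
    measurable_from_prod_countable_left fun e => hT e
  refine Measurable.prodMk ?_ ?_
  · exact h1.comp (measurable_fst.prodMk ((measurable_pi_apply 0).comp measurable_snd))
  · exact measurable_pi_lambda _ fun n => (measurable_pi_apply (n + 1)).comp measurable_snd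

theorem measurable_bs (hT : ∀ e, Measurable (T e)) {g : α × (ℕ → E) → ℝ} (hg : Measurable g)
    (n : ℕ) : Measurable (birkhoffSum (skew T) g n) := by
  unfold birkhoffSum
  exact Finset.measurable_sum _ fun k _ => hg.comp ((measurable_skew T hT).iterate k)

theorem measurable_step (δ : E → α → ℝ) (hδ : ∀ e, Measurable (δ e)) :
    Measurable (fun p : α × (ℕ → E) => δ (p.2 0) p.1) := by
  have h1 : Measurable (fun p : α × E => δ p.2 p.1) :=
    measurable_from_prod_countable_left fun e => hδ e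
  exact h1.comp (measurable_fst.prodMk ((measurable_pi_apply 0).comp measurable_snd))

omit [MeasurableSingletonClass E] in
theorem measurable_var (δ : E → α → ℝ) (hδ : ∀ e, Measurable (δ e)) :
    Measurable (fun p : α × (ℕ → E) => (Fintype.card E : ℝ)⁻¹ * ∑ e, δ e p.1 ^ 2) := by
  refine Measurable.const_mul (Finset.measurable_sum _ fun e _ => ?_) _
  exact ((hδ e).comp measurable_fst).pow_const 2

end Birk

section Bounds

variable (T : E → α → α) (G : Set α) (hG : ∀ e, ∀ z ∈ G, T e z ∈ G)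

include hG in
theorem bs_bound (g : α × (ℕ → E) → ℝ) (B : ℝ) (hB : ∀ z ∈ G, ∀ w, |g (z, w)| ≤ B) (n : ℕ) :
    ∀ z ∈ G, ∀ w, |birkhoffSum (skew T) g n (z, w)| ≤ n * B := by
  induction n with
  | zero => intro z _ w; simp
  | succ n ih =>
    intro z hz w
    rw [← cons_eta w, bs_cons]
    refine (abs_add_le _ _).trans ?_
    have h1 := hB z hz (cons (w 0) (fun n => w (n + 1)))
    have h2 := ih (T (w 0) z) (hG _ z hz) (fun n => w (n + 1))
    push_cast
    linarith

end Bounds

theorem integral_const_add_sq {Ω : Type*} [MeasurableSpace Ω] {P : Measure Ω}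
    [IsProbabilityMeasure P] {f : Ω → ℝ} (hf : Integrable f P)
    (hf2 : Integrable (fun x => f x ^ 2) P) (h0 : ∫ x, f x ∂P = 0) (c : ℝ) :
    ∫ x, (c + f x) ^ 2 ∂P = c ^ 2 + ∫ x, f x ^ 2 ∂P := by
  have e1 : ∀ x, (c + f x) ^ 2 = (c ^ 2 + 2 * c * f x) + f x ^ 2 := fun x => by ring
  have i1 : Integrable (fun x => 2 * c * f x) P := hf.const_mul _
  have i2 : Integrable (fun x => c ^ 2 + 2 * c * f x) P := (integrable_const _).add i1
  simp_rw [e1]
  rw [integral_add i2 hf2, integral_add (integrable_const _) i1, integral_const_mul, h0]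
  simp

section Moments

variable [MeasurableSpace α] [Fintype E] [Nonempty E]
    [MeasurableSpace E] [MeasurableSingletonClass E] (T : E → α → α)

theorem integrable_bs (hT : ∀ e, Measurable (T e)) {g : α × (ℕ → E) → ℝ} (hgm : Measurable g)
    (G : Set α) (hG : ∀ e, ∀ z ∈ G, T e z ∈ G) (B : ℝ) (hB : ∀ z ∈ G, ∀ w, |g (z, w)| ≤ B)
    (n : ℕ) (z : α) (hz : z ∈ G) :
    Integrable (fun w => birkhoffSum (skew T) g n (z, w))
      (Measure.infinitePi fun _ : ℕ => unif E) := by
  refine Integrable.of_bound (C := n * B) ?_ (ae_of_all _ fun w => ?_)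
  · exact ((measurable_bs T hT hgm n).comp measurable_prodMk_left).aestronglyMeasurable
  · exact bs_bound T G hG g B hB n z hz w

theorem integrable_bs_sq (hT : ∀ e, Measurable (T e)) {g : α × (ℕ → E) → ℝ} (hgm : Measurable g)
    (G : Set α) (hG : ∀ e, ∀ z ∈ G, T e z ∈ G) (B : ℝ) (hB : ∀ z ∈ G, ∀ w, |g (z, w)| ≤ B)
    (n : ℕ) (z : α) (hz : z ∈ G) :
    Integrable (fun w => birkhoffSum (skew T) g n (z, w) ^ 2)
      (Measure.infinitePi fun _ : ℕ => unif E) := by
  refine Integrable.of_bound (C := (n * B) ^ 2) ?_ (ae_of_all _ fun w => ?_)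
  · exact (((measurable_bs T hT hgm n).comp measurable_prodMk_left).pow_const 2).aestronglyMeasurable
  · rw [Real.norm_eq_abs, abs_pow]
    exact pow_le_pow_left₀ (abs_nonneg _) (bs_bound T G hG g B hB n z hz w) 2

variable (hT : ∀ e, Measurable (T e)) (δ : E → α → ℝ) (hδ : ∀ e, Measurable (δ e)) (G : Set α)
    (hG : ∀ e, ∀ z ∈ G, T e z ∈ G) (B : ℝ) (hB : ∀ e, ∀ z ∈ G, |δ e z| ≤ B)
    (h0 : ∀ z ∈ G, ∑ e, δ e z = 0)

include hT hδ hG hB h0

theorem first_moment (n : ℕ) : ∀ z ∈ G,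
    ∫ w, birkhoffSum (skew T) (fun p => δ (p.2 0) p.1) n (z, w)
      ∂(Measure.infinitePi fun _ : ℕ => unif E) = 0 := by
  induction n with
  | zero => intro z _; simp
  | succ n ih =>
    intro z hz
    have hint := integrable_bs T hT (measurable_step δ hδ) G hG B
      (fun z hz w => hB _ z hz)
    rw [integral_cons (hint (n + 1) z hz)]
    have key : ∀ a, ∫ w, birkhoffSum (skew T) (fun p => δ (p.2 0) p.1) (n + 1) (z, cons a w)
        ∂(Measure.infinitePi fun _ : ℕ => unif E) = δ a z := by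
      intro a
      simp_rw [bs_cons, cons_zero]
      rw [integral_add (integrable_const _) (hint n (T a z) (hG a z hz)), ih _ (hG a z hz)]
      simp
    simp_rw [key]
    rw [h0 z hz, smul_zero]

theorem second_moment' (n : ℕ) : ∀ z ∈ G,
    ∫ w, (birkhoffSum (skew T) (fun p => δ (p.2 0) p.1) n (z, w)) ^ 2
      ∂(Measure.infinitePi fun _ : ℕ => unif E) ≤ n * B ^ 2 := by
  induction n with
  | zero => intro z _; simp
  | succ n ih =>
    intro z hz
    have hint := integrable_bs T hT (measurable_step δ hδ) G hG B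
      (fun z hz w => hB _ z hz)
    have hint2 := integrable_bs_sq T hT (measurable_step δ hδ) G hG B
      (fun z hz w => hB _ z hz)
    rw [integral_cons (hint2 (n + 1) z hz)]
    have key : ∀ a, ∫ w, (birkhoffSum (skew T) (fun p => δ (p.2 0) p.1) (n + 1) (z, cons a w)) ^ 2
        ∂(Measure.infinitePi fun _ : ℕ => unif E) ≤ (n + 1) * B ^ 2 := by
      intro a
      simp_rw [bs_cons, cons_zero]
      rw [integral_const_add_sq (hint n _ (hG a z hz)) (hint2 n _ (hG a z hz))
        (first_moment T hT δ hδ G hG B hB h0 n _ (hG a z hz))]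
      have h2 := ih _ (hG a z hz)
      have h3 : δ a z ^ 2 ≤ B ^ 2 := by
        have := hB a z hz
        rw [← sq_abs]
        exact pow_le_pow_left₀ (abs_nonneg _) this 2
      linarith
    rw [smul_eq_mul]
    have hc : (0 : ℝ) < Fintype.card E := by exact_mod_cast Fintype.card_pos
    rw [inv_mul_le_iff₀ hc]
    refine (Finset.sum_le_sum fun a _ => key a).trans ?_
    simp

end Moments

section Taylor

theorem taylor3 (x : ℂ) {R : ℝ} (h : ‖x‖ ≤ R) :
    ‖Complex.exp x - (1 + x + x ^ 2 / 2)‖ ≤ ‖x‖ ^ 3 * Real.exp R := by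
  have h1 := Complex.norm_exp_sub_sum_le_norm_mul_exp x 3
  have h2 : ∑ m ∈ Finset.range 3, x ^ m / (m.factorial : ℂ) = 1 + x + x ^ 2 / 2 := by
    simp [Finset.sum_range_succ, Nat.factorial]
  rw [h2] at h1
  exact h1.trans (mul_le_mul_of_nonneg_left (Real.exp_le_exp.mpr h) (by positivity))

theorem avg_taylor [Fintype E] [Nonempty E] (d : E → ℝ) (B s : ℝ) (hs0 : 0 ≤ s) (hs1 : s ≤ 1)
    (hB0 : 0 ≤ B) (hd : ∀ a, |d a| ≤ B) (h0 : ∑ a, d a = 0) :
    ‖(Fintype.card E : ℂ)⁻¹ * ∑ a, Complex.exp (Complex.I * ((s * d a : ℝ) : ℂ) +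
      ((s ^ 2 / 2 * ((Fintype.card E : ℝ)⁻¹ * ∑ e, d e ^ 2) : ℝ) : ℂ)) - 1‖ ≤
      s ^ 3 * ((B + B ^ 2) ^ 3 * Real.exp (B + B ^ 2) + B ^ 4) := by
  have hc : (0 : ℝ) < Fintype.card E := by exact_mod_cast Fintype.card_pos
  have hcC : (Fintype.card E : ℂ) ≠ 0 := by
    exact_mod_cast hc.ne'
  set q : ℝ := (Fintype.card E : ℝ)⁻¹ * ∑ e, d e ^ 2 with hq
  have hd2 : ∀ a, d a ^ 2 ≤ B ^ 2 := fun a => by
    rw [← sq_abs]; exact pow_le_pow_left₀ (abs_nonneg _) (hd a) 2
  have hq0 : 0 ≤ q := by rw [hq]; positivity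
  have hqB : q ≤ B ^ 2 := by
    rw [hq, inv_mul_le_iff₀ hc]
    refine (Finset.sum_le_sum fun a _ => hd2 a).trans ?_
    simp
  have hsumd2 : ∑ a, d a ^ 2 = Fintype.card E * q := by
    rw [hq]; field_simp
  set u : E → ℂ := fun a => Complex.I * ((s * d a : ℝ) : ℂ) + ((s ^ 2 / 2 * q : ℝ) : ℂ) with hu
  have hunorm : ∀ a, ‖u a‖ ≤ s * (B + B ^ 2) := by
    intro a
    refine (norm_add_le _ _).trans ?_
    rw [norm_mul, Complex.norm_I, one_mul, Complex.norm_real, Complex.norm_real,
      Real.norm_eq_abs, Real.norm_eq_abs, abs_mul, abs_of_nonneg hs0,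
      abs_of_nonneg (by positivity : 0 ≤ s ^ 2 / 2 * q)]
    have h1 : s * |d a| ≤ s * B := mul_le_mul_of_nonneg_left (hd a) hs0
    have h2 : s ^ 2 / 2 * q ≤ s * B ^ 2 := by
      have h3 : s ^ 2 / 2 ≤ s := by nlinarith
      exact mul_le_mul h3 hqB hq0 hs0
    linarith
  have hunorm1 : ∀ a, ‖u a‖ ≤ B + B ^ 2 := fun a => (hunorm a).trans (by
    have : 0 ≤ B + B ^ 2 := by positivity
    nlinarith)
  have hsum : ∑ a, (1 + u a + u a ^ 2 / 2) = (Fintype.card E : ℂ) * (1 + ((s ^ 4 * q ^ 2 / 8 : ℝ) : ℂ)) := by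
    have e1 : ∀ a, (1 + u a + u a ^ 2 / 2) =
        (1 + ((s ^ 2 / 2 * q : ℝ) : ℂ) + ((s ^ 4 * q ^ 2 / 8 : ℝ) : ℂ)) +
        (Complex.I * s + Complex.I * ((s ^ 3 * q / 2 : ℝ) : ℂ)) * (d a : ℂ)
        - ((s ^ 2 / 2 : ℝ) : ℂ) * ((d a ^ 2 : ℝ) : ℂ) := by
      intro a
      simp only [hu]
      push_cast
      ring_nf
      rw [Complex.I_sq]
      ring
    simp_rw [e1]
    rw [Finset.sum_sub_distrib, Finset.sum_add_distrib, ← Finset.mul_sum, ← Finset.mul_sum,
      ← Complex.ofReal_sum, ← Complex.ofReal_sum, h0, hsumd2]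
    simp only [Finset.sum_const, Finset.card_univ, nsmul_eq_mul]
    push_cast
    ring
  have hsplit : (Fintype.card E : ℂ)⁻¹ * ∑ a, Complex.exp (u a) - 1 =
      (Fintype.card E : ℂ)⁻¹ * ∑ a, (Complex.exp (u a) - (1 + u a + u a ^ 2 / 2)) +
        ((s ^ 4 * q ^ 2 / 8 : ℝ) : ℂ) := by
    rw [Finset.sum_sub_distrib, hsum]
    field_simp
    ring
  rw [hsplit]
  refine (norm_add_le _ _).trans ?_
  have hA : ‖(Fintype.card E : ℂ)⁻¹ * ∑ a, (Complex.exp (u a) - (1 + u a + u a ^ 2 / 2))‖ ≤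
      s ^ 3 * ((B + B ^ 2) ^ 3 * Real.exp (B + B ^ 2)) := by
    rw [norm_mul, norm_inv, Complex.norm_natCast, inv_mul_le_iff₀ hc]
    refine (norm_sum_le _ _).trans ?_
    have : ∀ a ∈ Finset.univ, ‖Complex.exp (u a) - (1 + u a + u a ^ 2 / 2)‖ ≤
        s ^ 3 * ((B + B ^ 2) ^ 3 * Real.exp (B + B ^ 2)) := by
      intro a _
      refine (taylor3 (u a) (hunorm1 a)).trans ?_
      have h1 : ‖u a‖ ^ 3 ≤ (s * (B + B ^ 2)) ^ 3 := pow_le_pow_left₀ (norm_nonneg _) (hunorm a) 3
      calc ‖u a‖ ^ 3 * Real.exp (B + B ^ 2) ≤ (s * (B + B ^ 2)) ^ 3 * Real.exp (B + B ^ 2) :=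
            mul_le_mul_of_nonneg_right h1 (Real.exp_pos _).le
        _ = _ := by ring
    refine (Finset.sum_le_sum this).trans ?_
    simp
  have hBq : ‖((s ^ 4 * q ^ 2 / 8 : ℝ) : ℂ)‖ ≤ s ^ 3 * B ^ 4 := by
    rw [Complex.norm_real, Real.norm_eq_abs, abs_of_nonneg (by positivity)]
    have h1 : q ^ 2 ≤ B ^ 4 := by
      calc q ^ 2 ≤ (B ^ 2) ^ 2 := pow_le_pow_left₀ hq0 hqB 2
        _ = B ^ 4 := by ring
    have h2 : s ^ 4 ≤ s ^ 3 := by
      have : 0 ≤ s ^ 3 := by positivity
      nlinarith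
    have h3 : s ^ 4 * q ^ 2 ≤ s ^ 3 * B ^ 4 := mul_le_mul h2 h1 (by positivity) (by positivity)
    have h4 : 0 ≤ s ^ 4 * q ^ 2 := by positivity
    linarith
  calc _ ≤ s ^ 3 * ((B + B ^ 2) ^ 3 * Real.exp (B + B ^ 2)) + s ^ 3 * B ^ 4 := add_le_add hA hBq
    _ = _ := by ring

end Taylor

theorem re_aux (a b : ℝ) : (Complex.I * (a : ℂ) + (b : ℂ)).re = b := by simp

section Core

variable [MeasurableSpace α] [Fintype E] [Nonempty E]
    [MeasurableSpace E] [MeasurableSingletonClass E] (T : E → α → α)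

/-- the conditional variance -/
noncomputable def var (δ : E → α → ℝ) (p : α × (ℕ → E)) : ℝ :=
  (Fintype.card E : ℝ)⁻¹ * ∑ e, δ e p.1 ^ 2

/-- `s M_m` in exponential form, corrected by the conditional variances. -/
noncomputable def Sf (δ : E → α → ℝ) (s : ℝ) (m : ℕ) (z : α) (w : ℕ → E) : ℂ :=
  Complex.exp (Complex.I *
      ((s * birkhoffSum (skew T) (fun p => δ (p.2 0) p.1) m (z, w) : ℝ) : ℂ) +
    ((s ^ 2 / 2 * birkhoffSum (skew T) (var δ) m (z, w) : ℝ) : ℂ))

omit [Nonempty E] in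
theorem measurable_Sf (hT : ∀ e, Measurable (T e)) (δ : E → α → ℝ) (hδ : ∀ e, Measurable (δ e))
    (s : ℝ) (m : ℕ) (z : α) : Measurable (Sf T δ s m z) := by
  unfold Sf
  have h1 := (measurable_bs T hT (measurable_step δ hδ) m).comp
    (measurable_prodMk_left (x := z) (β := ℕ → E))
  have h2 := (measurable_bs T hT (g := var δ) (measurable_var δ hδ) m).comp
    (measurable_prodMk_left (x := z) (β := ℕ → E))
  refine Complex.measurable_exp.comp (Measurable.add ?_ ?_)
  · exact (Complex.measurable_ofReal.comp (h1.const_mul s)).const_mul _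
  · exact Complex.measurable_ofReal.comp (h2.const_mul _)

omit [MeasurableSpace α] [Nonempty E] [MeasurableSpace E] [MeasurableSingletonClass E] in
theorem norm_Sf (δ : E → α → ℝ) (s : ℝ) (m : ℕ) (z : α) (w : ℕ → E) :
    ‖Sf T δ s m z w‖ = Real.exp (s ^ 2 / 2 * birkhoffSum (skew T) (var δ) m (z, w)) := by
  unfold Sf
  rw [Complex.norm_exp, re_aux]

omit [MeasurableSpace α] [Nonempty E] [MeasurableSpace E] [MeasurableSingletonClass E] in
theorem Sf_cons (δ : E → α → ℝ) (s : ℝ) (m : ℕ) (z : α) (a : E) (w : ℕ → E) :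
    Sf T δ s (m + 1) z (cons a w) = Complex.exp (Complex.I * ((s * δ a z : ℝ) : ℂ) +
      ((s ^ 2 / 2 * ((Fintype.card E : ℝ)⁻¹ * ∑ e, δ e z ^ 2) : ℝ) : ℂ)) *
        Sf T δ s m (T a z) w := by
  unfold Sf
  rw [bs_cons, bs_cons, ← Complex.exp_add]
  congr 1
  simp only [cons_zero, var]
  push_cast
  ring

variable (hT : ∀ e, Measurable (T e)) (δ : E → α → ℝ) (hδ : ∀ e, Measurable (δ e)) (G : Set α)
    (hG : ∀ e, ∀ z ∈ G, T e z ∈ G) (B : ℝ) (hB : ∀ e, ∀ z ∈ G, |δ e z| ≤ B)
    (h0 : ∀ z ∈ G, ∑ e, δ e z = 0)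

omit [MeasurableSpace α] [MeasurableSpace E] [MeasurableSingletonClass E] in
include hB in
theorem var_bounds (z : α) (hz : z ∈ G) (w : ℕ → E) : 0 ≤ var δ (z, w) ∧ var δ (z, w) ≤ B ^ 2 := by
  have hc : (0 : ℝ) < Fintype.card E := by exact_mod_cast Fintype.card_pos
  unfold var
  refine ⟨by positivity, ?_⟩
  rw [inv_mul_le_iff₀ hc]
  have hd2 : ∀ a ∈ Finset.univ, δ a z ^ 2 ≤ B ^ 2 := fun a _ => by
    rw [← sq_abs]; exact pow_le_pow_left₀ (abs_nonneg _) (hB a z hz) 2
  refine (Finset.sum_le_sum hd2).trans ?_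
  simp

omit [MeasurableSpace α] [MeasurableSpace E] [MeasurableSingletonClass E] in
include hG hB in
theorem bs_var_bounds (m : ℕ) : ∀ z ∈ G, ∀ w, 0 ≤ birkhoffSum (skew T) (var δ) m (z, w) ∧
    birkhoffSum (skew T) (var δ) m (z, w) ≤ m * B ^ 2 := by
  induction m with
  | zero => intro z _ w; simp
  | succ m ih =>
    intro z hz w
    rw [← cons_eta w, bs_cons]
    have h1 := var_bounds δ G B hB z hz (cons (w 0) (fun n => w (n + 1)))
    have h2 := ih (T (w 0) z) (hG _ z hz) (fun n => w (n + 1))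
    push_cast
    constructor <;> linarith [h1.1, h1.2, h2.1, h2.2]

include hT hδ hG hB in
theorem integrable_Sf (s : ℝ) (m : ℕ) (z : α) (hz : z ∈ G) :
    Integrable (Sf T δ s m z) (Measure.infinitePi fun _ : ℕ => unif E) := by
  refine Integrable.of_bound (C := Real.exp (s ^ 2 / 2 * (m * B ^ 2)))
    (measurable_Sf T hT δ hδ s m z).aestronglyMeasurable (ae_of_all _ fun w => ?_)
  rw [norm_Sf]
  refine Real.exp_le_exp.mpr (mul_le_mul_of_nonneg_left ?_ (by positivity))
  exact (bs_var_bounds T δ G hG B hB m z hz w).2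

include hT hδ hG hB h0 in
theorem integral_Sf_bound (hB0 : 0 ≤ B) (s : ℝ) (hs0 : 0 ≤ s) (hs1 : s ≤ 1) (m : ℕ) : ∀ z ∈ G,
    ‖∫ w, Sf T δ s m z w ∂(Measure.infinitePi fun _ : ℕ => unif E) - 1‖ ≤
      m * (s ^ 3 * ((B + B ^ 2) ^ 3 * Real.exp (B + B ^ 2) + B ^ 4)) *
        Real.exp (m * (s ^ 2 * B ^ 2 / 2)) := by
  have hc : (0 : ℝ) < Fintype.card E := by exact_mod_cast Fintype.card_pos
  have hcC : (Fintype.card E : ℂ) ≠ 0 := by exact_mod_cast hc.ne'
  set C := s ^ 3 * ((B + B ^ 2) ^ 3 * Real.exp (B + B ^ 2) + B ^ 4) with hC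
  have hC0 : 0 ≤ C := by positivity
  set r := s ^ 2 * B ^ 2 / 2 with hr
  have hr0 : 0 ≤ r := by positivity
  induction m with
  | zero =>
    intro z _
    simp [Sf]
  | succ m ih =>
    intro z hz
    rw [integral_cons (integrable_Sf T hT δ hδ G hG B hB s (m + 1) z hz)]
    simp_rw [Sf_cons]
    simp_rw [integral_const_mul]
    set u : E → ℂ := fun a => Complex.exp (Complex.I * ((s * δ a z : ℝ) : ℂ) +
      ((s ^ 2 / 2 * ((Fintype.card E : ℝ)⁻¹ * ∑ e, δ e z ^ 2) : ℝ) : ℂ)) with hu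
    have hun : ∀ a, ‖u a‖ ≤ Real.exp r := by
      intro a
      simp only [hu]
      rw [Complex.norm_exp]
      refine Real.exp_le_exp.mpr ?_
      have h1 := (var_bounds δ G B hB z hz (fun _ => a)).2
      unfold var at h1
      have h2 : (Complex.I * ((s * δ a z : ℝ) : ℂ) +
        ((s ^ 2 / 2 * ((Fintype.card E : ℝ)⁻¹ * ∑ e, δ e z ^ 2) : ℝ) : ℂ)).re =
          s ^ 2 / 2 * ((Fintype.card E : ℝ)⁻¹ * ∑ e, δ e z ^ 2) := re_aux _ _
      rw [h2, hr]
      have h3 : s ^ 2 / 2 * ((Fintype.card E : ℝ)⁻¹ * ∑ e, δ e z ^ 2) ≤ s ^ 2 / 2 * B ^ 2 :=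
        mul_le_mul_of_nonneg_left h1 (by positivity)
      linarith
    have hsplit : (Fintype.card E : ℝ)⁻¹ • ∑ a, u a *
        ∫ w, Sf T δ s m (T a z) w ∂(Measure.infinitePi fun _ : ℕ => unif E) - 1 =
        (Fintype.card E : ℂ)⁻¹ * ∑ a, u a *
          (∫ w, Sf T δ s m (T a z) w ∂(Measure.infinitePi fun _ : ℕ => unif E) - 1) +
        ((Fintype.card E : ℂ)⁻¹ * ∑ a, u a - 1) := by
      simp_rw [mul_sub]
      rw [Finset.sum_sub_distrib, Complex.real_smul]
      simp only [mul_one]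
      push_cast
      ring
    rw [hsplit]
    refine (norm_add_le _ _).trans ?_
    have hA : ‖(Fintype.card E : ℂ)⁻¹ * ∑ a, u a *
        (∫ w, Sf T δ s m (T a z) w ∂(Measure.infinitePi fun _ : ℕ => unif E) - 1)‖ ≤
        Real.exp r * (m * C * Real.exp (m * r)) := by
      rw [norm_mul, norm_inv, Complex.norm_natCast, inv_mul_le_iff₀ hc]
      refine (norm_sum_le _ _).trans ?_
      have : ∀ a ∈ Finset.univ, ‖u a *
          (∫ w, Sf T δ s m (T a z) w ∂(Measure.infinitePi fun _ : ℕ => unif E) - 1)‖ ≤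
          Real.exp r * (m * C * Real.exp (m * r)) := by
        intro a _
        rw [norm_mul]
        exact mul_le_mul (hun a) (ih _ (hG a z hz)) (norm_nonneg _) (Real.exp_pos _).le
      refine (Finset.sum_le_sum this).trans ?_
      simp
    have hD : ‖(Fintype.card E : ℂ)⁻¹ * ∑ a, u a - 1‖ ≤ C :=
      avg_taylor (fun a => δ a z) B s hs0 hs1 hB0 (fun a => hB a z hz) (h0 z hz)
    have hE : Real.exp r * (m * C * Real.exp (m * r)) = m * C * Real.exp ((m + 1) * r) := by
      rw [add_mul, one_mul, Real.exp_add]; ring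
    have h1 : 1 ≤ Real.exp ((m + 1) * r) := Real.one_le_exp (by positivity)
    push_cast
    rw [hE] at hA
    calc _ ≤ m * C * Real.exp ((m + 1) * r) + C * 1 := by rw [mul_one]; exact add_le_add hA hD
      _ ≤ m * C * Real.exp ((m + 1) * r) + C * Real.exp ((m + 1) * r) := by gcongr
      _ = _ := by ring

end Core

end OpCLT

open OpCLT

/-- P5a. -/
theorem second_moment {α E : Type*} [MeasurableSpace α] [Fintype E] [Nonempty E]
    [MeasurableSpace E] [MeasurableSingletonClass E] (T : E → α → α)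
    (hT : ∀ e, Measurable (T e)) (δ : E → α → ℝ) (hδ : ∀ e, Measurable (δ e)) (G : Set α)
    (hG : ∀ e, ∀ z ∈ G, T e z ∈ G) (B : ℝ) (hB : ∀ e, ∀ z ∈ G, |δ e z| ≤ B)
    (h0 : ∀ z ∈ G, ∑ e, δ e z = 0) (z : α) (hz : z ∈ G) (n : ℕ) :
    ∫ w, (birkhoffSum (skew T) (fun p => δ (p.2 0) p.1) n (z, w)) ^ 2
      ∂(Measure.infinitePi fun _ : ℕ => unif E) ≤ n * B ^ 2 :=
  second_moment' T hT δ hδ G hG B hB h0 n z hz

/-- P5b. -/
theorem clt_core {α E : Type*} [MeasurableSpace α] [Fintype E] [Nonempty E]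
    [MeasurableSpace E] [MeasurableSingletonClass E] (T : E → α → α)
    (hT : ∀ e, Measurable (T e)) (δ : E → α → ℝ) (hδ : ∀ e, Measurable (δ e)) (G : Set α)
    (hG : ∀ e, ∀ z ∈ G, T e z ∈ G) (B : ℝ) (hB : ∀ e, ∀ z ∈ G, |δ e z| ≤ B)
    (h0 : ∀ z ∈ G, ∑ e, δ e z = 0) (z : α) (hz : z ∈ G) (D : ℝ)
    (hD : ∀ᵐ w ∂(Measure.infinitePi fun _ : ℕ => unif E),
      Tendsto (fun n : ℕ => birkhoffSum (skew T)
        (fun p => (Fintype.card E : ℝ)⁻¹ * ∑ e, δ e p.1 ^ 2) n (z, w) / n) atTop (𝓝 D)) :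
    Tendsto (fun n : ℕ => ∫ w, Complex.exp (Complex.I *
        ((birkhoffSum (skew T) (fun p => δ (p.2 0) p.1) n (z, w) / √n : ℝ) : ℂ))
      ∂(Measure.infinitePi fun _ : ℕ => unif E)) atTop (𝓝 (Complex.exp (-(D / 2 : ℝ)))) := by
  classical
  have hB0 : 0 ≤ B := (abs_nonneg _).trans (hB (Classical.arbitrary E) z hz)
  set N := Measure.infinitePi fun _ : ℕ => unif E with hN
  -- the corrected exponential integrals tend to one
  have h1 : Tendsto (fun n : ℕ => ∫ w, Sf T δ (1 / √n) n z w ∂N) atTop (𝓝 1) := by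
    rw [tendsto_iff_norm_sub_tendsto_zero]
    set C := (B + B ^ 2) ^ 3 * Real.exp (B + B ^ 2) + B ^ 4 with hC
    have hlim : Tendsto (fun n : ℕ => C * Real.exp (B ^ 2 / 2) * (1 / √(n : ℝ))) atTop (𝓝 0) := by
      have : Tendsto (fun n : ℕ => 1 / √(n : ℝ)) atTop (𝓝 0) := by
        simp_rw [one_div]
        exact tendsto_inv_atTop_zero.comp
          (Real.tendsto_sqrt_atTop.comp tendsto_natCast_atTop_atTop)
      simpa using this.const_mul (C * Real.exp (B ^ 2 / 2))
    refine squeeze_zero' (Eventually.of_forall fun n => norm_nonneg _) ?_ hlim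
    filter_upwards [eventually_ge_atTop 1] with n hn
    have hn0 : (1 : ℝ) ≤ n := by exact_mod_cast hn
    have hsq : (1 : ℝ) ≤ √(n : ℝ) := by
      rw [show (1 : ℝ) = √1 by simp]; exact Real.sqrt_le_sqrt hn0
    have hs0 : 0 ≤ 1 / √(n : ℝ) := by positivity
    have hs1 : 1 / √(n : ℝ) ≤ 1 := by
      rw [div_le_one (by linarith)]; exact hsq
    have hss : √(n : ℝ) ^ 2 = n := Real.sq_sqrt (by linarith)
    refine (integral_Sf_bound T hT δ hδ G hG B hB h0 hB0 (1 / √n) hs0 hs1 n z hz).trans ?_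
    have e1 : (n : ℝ) * ((1 / √(n : ℝ)) ^ 2 * B ^ 2 / 2) = B ^ 2 / 2 := by
      rw [div_pow, hss]; field_simp
    have e2 : (n : ℝ) * ((1 / √(n : ℝ)) ^ 3 * C) = C * (1 / √(n : ℝ)) := by
      have : (1 / √(n : ℝ)) ^ 3 = (1 / √(n : ℝ)) * (1 / n) := by
        rw [pow_succ', div_pow, hss, one_pow]
      rw [this]; field_simp
    rw [e1, e2]
    exact le_of_eq (by ring)
  -- replace the conditional variances by their limit
  have h2 : Tendsto (fun n : ℕ => ∫ w, Complex.exp (Complex.I *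
        ((1 / √(n : ℝ) * birkhoffSum (skew T) (fun p => δ (p.2 0) p.1) n (z, w) : ℝ) : ℂ)) *
        ((Real.exp (D / 2) : ℂ) -
          (Real.exp (birkhoffSum (skew T) (var δ) n (z, w) / n / 2) : ℂ)) ∂N) atTop (𝓝 0) := by
    have h3 : (0 : ℂ) = ∫ _ : ℕ → E, (0 : ℂ) ∂N := by simp
    rw [h3]
    refine tendsto_integral_of_dominated_convergence
      (fun _ => Real.exp (D / 2) + Real.exp (B ^ 2 / 2)) ?_ (integrable_const _) ?_ ?_
    · intro n
      have m1 := (measurable_bs T hT (measurable_step δ hδ) n).comp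
        (measurable_prodMk_left (x := z) (β := ℕ → E))
      have m2 := (measurable_bs T hT (g := var δ) (measurable_var δ hδ) n).comp
        (measurable_prodMk_left (x := z) (β := ℕ → E))
      refine Measurable.aestronglyMeasurable (Measurable.mul ?_ ?_)
      · exact Complex.measurable_exp.comp
          ((Complex.measurable_ofReal.comp (m1.const_mul _)).const_mul _)
      · exact (Complex.measurable_ofReal.comp (Real.measurable_exp.comp
          ((m2.div_const _).div_const _))).const_sub _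
    · intro n
      refine ae_of_all _ fun w => ?_
      rw [norm_mul, mul_comm Complex.I, Complex.norm_exp_ofReal_mul_I, one_mul]
      refine (norm_sub_le _ _).trans ?_
      rw [Complex.norm_real, Complex.norm_real, Real.norm_eq_abs, Real.norm_eq_abs,
        abs_of_pos (Real.exp_pos _), abs_of_pos (Real.exp_pos _)]
      have h4 : birkhoffSum (skew T) (var δ) n (z, w) / n ≤ B ^ 2 := by
        rcases Nat.eq_zero_or_pos n with hn | hn
        · subst hn; simp; positivity
        · have hn' : (0 : ℝ) < n := by exact_mod_cast hn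
          rw [div_le_iff₀ hn', mul_comm]
          exact (bs_var_bounds T δ G hG B hB n z hz w).2
      have h5 : Real.exp (birkhoffSum (skew T) (var δ) n (z, w) / n / 2) ≤
          Real.exp (B ^ 2 / 2) := Real.exp_le_exp.mpr (by linarith)
      linarith
    · filter_upwards [hD] with w hw
      have h6 : Tendsto (fun n : ℕ => (Real.exp (D / 2) : ℂ) -
          (Real.exp (birkhoffSum (skew T) (var δ) n (z, w) / n / 2) : ℂ)) atTop (𝓝 0) := by
        have h7 : Tendsto (fun n : ℕ => Real.exp (birkhoffSum (skew T) (var δ) n (z, w) / n / 2))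
            atTop (𝓝 (Real.exp (D / 2))) :=
          (Real.continuous_exp.tendsto _).comp (Tendsto.div_const hw 2)
        have h8 := (Complex.continuous_ofReal.tendsto _).comp h7
        have h9 := (tendsto_const_nhds (x := (Real.exp (D / 2) : ℂ))).sub h8
        simpa using h9
      rw [tendsto_zero_iff_norm_tendsto_zero] at h6 ⊢
      refine h6.congr fun n => ?_
      rw [norm_mul, mul_comm Complex.I, Complex.norm_exp_ofReal_mul_I, one_mul]
  have h3 : ∀ᶠ n : ℕ in atTop, ∫ w, Complex.exp (Complex.I *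
        ((birkhoffSum (skew T) (fun p => δ (p.2 0) p.1) n (z, w) / √n : ℝ) : ℂ)) ∂N =
      Complex.exp (-(D / 2 : ℝ)) * (∫ w, Sf T δ (1 / √n) n z w ∂N +
        ∫ w, Complex.exp (Complex.I *
        ((1 / √(n : ℝ) * birkhoffSum (skew T) (fun p => δ (p.2 0) p.1) n (z, w) : ℝ) : ℂ)) *
        ((Real.exp (D / 2) : ℂ) -
          (Real.exp (birkhoffSum (skew T) (var δ) n (z, w) / n / 2) : ℂ)) ∂N) := by
    filter_upwards [eventually_ge_atTop 1] with n hn
    have hn0 : (0 : ℝ) < n := by exact_mod_cast hn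
    have hss : √(n : ℝ) ^ 2 = n := Real.sq_sqrt hn0.le
    have e1 : ∀ w, Sf T δ (1 / √n) n z w = Complex.exp (Complex.I *
        ((1 / √(n : ℝ) * birkhoffSum (skew T) (fun p => δ (p.2 0) p.1) n (z, w) : ℝ) : ℂ)) *
          (Real.exp (birkhoffSum (skew T) (var δ) n (z, w) / n / 2) : ℂ) := by
      intro w
      unfold Sf
      rw [Complex.exp_add, Complex.ofReal_exp]
      congr 3
      rw [div_pow, hss]; field_simp
    have i1 : Integrable (Sf T δ (1 / √n) n z) N := integrable_Sf T hT δ hδ G hG B hB _ n z hz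
    have i0 : Integrable (fun w => Complex.exp (Complex.I *
        ((1 / √(n : ℝ) * birkhoffSum (skew T) (fun p => δ (p.2 0) p.1) n (z, w) : ℝ) : ℂ))) N := by
      have m1 := (measurable_bs T hT (measurable_step δ hδ) n).comp
        (measurable_prodMk_left (x := z) (β := ℕ → E))
      refine Integrable.of_bound (C := 1) (Complex.measurable_exp.comp
          ((Complex.measurable_ofReal.comp (m1.const_mul _)).const_mul _)).aestronglyMeasurable
          (ae_of_all _ fun w => ?_)
      rw [mul_comm Complex.I, Complex.norm_exp_ofReal_mul_I]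
    have e2 : ∫ w, Complex.exp (Complex.I *
        ((1 / √(n : ℝ) * birkhoffSum (skew T) (fun p => δ (p.2 0) p.1) n (z, w) : ℝ) : ℂ)) *
        ((Real.exp (D / 2) : ℂ) -
          (Real.exp (birkhoffSum (skew T) (var δ) n (z, w) / n / 2) : ℂ)) ∂N =
        (∫ w, Complex.exp (Complex.I *
        ((1 / √(n : ℝ) * birkhoffSum (skew T) (fun p => δ (p.2 0) p.1) n (z, w) : ℝ) : ℂ)) ∂N) *
          (Real.exp (D / 2) : ℂ) - ∫ w, Sf T δ (1 / √n) n z w ∂N := by
      simp_rw [mul_sub]
      simp_rw [← e1]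
      rw [integral_sub (i0.mul_const _) i1, integral_mul_const]
    rw [e2]
    have e3 : Complex.exp (-(D / 2 : ℝ)) * (Real.exp (D / 2) : ℂ) = 1 := by
      rw [Complex.ofReal_exp, ← Complex.exp_add]
      simp
    have e4 : ∀ w, birkhoffSum (skew T) (fun p => δ (p.2 0) p.1) n (z, w) / √n =
        1 / √(n : ℝ) * birkhoffSum (skew T) (fun p => δ (p.2 0) p.1) n (z, w) := fun w => by
      ring
    simp_rw [e4]
    rw [add_sub_cancel, mul_comm (∫ w, _ ∂N) (Real.exp (D / 2) : ℂ), ← mul_assoc, e3, one_mul]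
  have h4 := (h1.add h2).const_mul (Complex.exp (-(D / 2 : ℝ)))
  rw [add_zero, mul_one] at h4
  exact h4.congr' (h3.mono fun n hn => hn.symm)

end Pool.Agent.RWPP
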