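import Pool.Agent.Lib_MP_68f671_pr.Walk
import Pool.Agent.Lib_MP_68f671_pr.OpCLT

/-!
# The central limit theorem along the paths
-/

open MeasureTheory ProbabilityTheory Filter Topology
open scoped ENNReal

namespace Pool.Agent.RWPP

noncomputable section

open OpCLT

/-- The law of the sequence of directions. -/
def NW : Measure (ℕ → Fin 2 × Bool) := Measure.infinitePi fun _ : ℕ => unif (Fin 2 × Bool)

instance : IsProbabilityMeasure NW := by unfold NW; infer_instance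

/-- The second coordinate after `n` steps. -/
def YY (n : ℕ) (p : Cf × (ℕ → Fin 2 × Bool)) : ℝ :=
  birkhoffSum (skew T) (fun p => dY (p.2 0) p.1) n p

/-- Local covariance of two increments. -/
def cv (f g : Fin 2 × Bool → Cf → ℝ) (ξ : Cf) : ℝ :=
  (Fintype.card (Fin 2 × Bool) : ℝ)⁻¹ * ∑ e, f e ξ * g e ξ

lemma card_dir : (Fintype.card (Fin 2 × Bool) : ℝ) = 4 := by
  simp [Fintype.card_prod]

lemma measurable_cv {f g : Fin 2 × Bool → Cf → ℝ} (hf : ∀ e, Measurable (f e))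
    (hg : ∀ e, Measurable (g e)) : Measurable (cv f g) :=
  (Finset.measurable_sum _ fun e _ => (hf e).mul (hg e)).const_mul _

lemma abs_cv_le {f g : Fin 2 × Bool → Cf → ℝ} {A B : ℝ} {ξ : Cf} (hf : ∀ e, |f e ξ| ≤ A)
    (hg : ∀ e, |g e ξ| ≤ B) : |cv f g ξ| ≤ A * B := by
  have hA : 0 ≤ A := (abs_nonneg _).trans (hf (0, true))
  have h : |∑ e, f e ξ * g e ξ| ≤ ∑ _e : Fin 2 × Bool, A * B := by
    refine (Finset.abs_sum_le_sum_abs _ _).trans (Finset.sum_le_sum fun e _ => ?_)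
    rw [abs_mul]
    exact mul_le_mul (hf e) (hg e) (abs_nonneg _) hA
  rw [Finset.sum_const, Finset.card_univ, nsmul_eq_mul] at h
  unfold cv
  rw [abs_mul, abs_inv, abs_of_nonneg (by positivity : (0 : ℝ) ≤ Fintype.card (Fin 2 × Bool))]
  rw [inv_mul_le_iff₀ (by rw [card_dir]; norm_num)]
  exact h

/-- Averages along the paths. -/
lemma path_average {μ : Measure Cf} [IsProbabilityMeasure μ] (hμ : Ergodic (sh 1) μ)
    (hG : ∀ᵐ ξ ∂μ, Good ξ) {f : Cf → ℝ} (hf : Measurable f) {C : ℝ}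
    (hC : ∀ ξ ∈ GG, |f ξ| ≤ C) :
    ∀ᵐ ξ ∂(Pc μ), ∀ᵐ w ∂NW, Tendsto
      (fun n : ℕ => birkhoffSum (skew T) (fun p => f p.1) n (ξ, w) / n) atTop
      (𝓝 (∫ ζ, f ζ ∂(Pc μ))) := by
  have : IsProbabilityMeasure (Pc μ) := cond_isProbabilityMeasure (U0_pos hμ hG)
  have herg : Ergodic (skew T) ((Pc μ).prod NW) :=
    skew_ergodic T (fun e => mp_T hμ e) (1, true) (ergodic_T hμ hG)
  have hfi : Integrable f (Pc μ) := by
    refine Integrable.of_bound hf.aestronglyMeasurable C ?_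
    filter_upwards [ae_GG hG] with ξ hξ
    rw [Real.norm_eq_abs]; exact hC ξ hξ
  have hint : Integrable (fun p : Cf × (ℕ → Fin 2 × Bool) => f p.1) ((Pc μ).prod NW) :=
    hfi.comp_fst NW
  have h := birkhoff herg hint
  have e : ∫ p : Cf × (ℕ → Fin 2 × Bool), f p.1 ∂((Pc μ).prod NW) = ∫ ζ, f ζ ∂(Pc μ) := by
    rw [integral_fun_fst]; simp
  rw [e] at h
  exact Measure.ae_ae_of_ae_prod h

lemma bs_add (f g : Cf × (ℕ → Fin 2 × Bool) → ℝ) (n : ℕ) (p : Cf × (ℕ → Fin 2 × Bool)) :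
    birkhoffSum (skew T) (fun p => f p + g p) n p =
      birkhoffSum (skew T) f n p + birkhoffSum (skew T) g n p := by
  simp [birkhoffSum, Finset.sum_add_distrib]

lemma bs_mul (c : ℝ) (f : Cf × (ℕ → Fin 2 × Bool) → ℝ) (n : ℕ) (p : Cf × (ℕ → Fin 2 × Bool)) :
    birkhoffSum (skew T) (fun p => c * f p) n p = c * birkhoffSum (skew T) f n p := by
  simp [birkhoffSum, Finset.mul_sum]

/-- The increment of the martingale `a H + b M`. -/
def dL (a b : ℝ) (e : Fin 2 × Bool) (ξ : Cf) : ℝ := a * dH e ξ + b * dM e ξ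

lemma measurable_dL (a b : ℝ) (e : Fin 2 × Bool) : Measurable (dL a b e) :=
  ((measurable_dH e).const_mul a).add ((measurable_dM e).const_mul b)

lemma abs_dL_le (a b : ℝ) (e : Fin 2 × Bool) (ξ : Cf) (h : ξ ∈ GG) :
    |dL a b e ξ| ≤ |a| + 2 * |b| := by
  unfold dL
  refine (abs_add_le _ _).trans ?_
  rw [abs_mul, abs_mul]
  have h1 := abs_dH_le e h
  have h2 := abs_dM_le e h
  have ha := abs_nonneg a
  have hb := abs_nonneg b
  nlinarith

lemma sum_dL (a b : ℝ) (ξ : Cf) (h : ξ ∈ GG) : ∑ e, dL a b e ξ = 0 := by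
  unfold dL
  rw [Finset.sum_add_distrib, ← Finset.mul_sum, ← Finset.mul_sum, sum_dH h, sum_dM h]
  ring

lemma cv_dL (a b : ℝ) (ξ : Cf) :
    (Fintype.card (Fin 2 × Bool) : ℝ)⁻¹ * ∑ e, dL a b e ξ ^ 2 =
      a ^ 2 * cv dH dH ξ + (2 * a * b * cv dH dM ξ + b ^ 2 * cv dM dM ξ) := by
  unfold cv dL
  rw [sum_dir, sum_dir, sum_dir, sum_dir]
  ring

/-- The limiting variance of `a H + b M`. -/
def var2 (μ : Measure Cf) (a b : ℝ) : ℝ :=
  a ^ 2 * (∫ ξ, cv dH dH ξ ∂(Pc μ)) + (2 * a * b * (∫ ξ, cv dH dM ξ ∂(Pc μ))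
    + b ^ 2 * (∫ ξ, cv dM dM ξ ∂(Pc μ)))

/-- The CLT for the martingales `a H + b M`. -/
lemma mart_clt {μ : Measure Cf} {ξ : Cf} (hξ : ξ ∈ GG)
    (h11 : ∀ᵐ w ∂NW, Tendsto
      (fun n : ℕ => birkhoffSum (skew T) (fun p => cv dH dH p.1) n (ξ, w) / n) atTop
      (𝓝 (∫ ζ, cv dH dH ζ ∂(Pc μ))))
    (h12 : ∀ᵐ w ∂NW, Tendsto
      (fun n : ℕ => birkhoffSum (skew T) (fun p => cv dH dM p.1) n (ξ, w) / n) atTop
      (𝓝 (∫ ζ, cv dH dM ζ ∂(Pc μ))))
    (h22 : ∀ᵐ w ∂NW, Tendsto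
      (fun n : ℕ => birkhoffSum (skew T) (fun p => cv dM dM p.1) n (ξ, w) / n) atTop
      (𝓝 (∫ ζ, cv dM dM ζ ∂(Pc μ)))) (a b : ℝ) :
    Tendsto (fun n : ℕ => ∫ w, Complex.exp (Complex.I *
        ((birkhoffSum (skew T) (fun p => dL a b (p.2 0) p.1) n (ξ, w) / √n : ℝ) : ℂ)) ∂NW) atTop
      (𝓝 (Complex.exp (-(var2 μ a b / 2 : ℝ)))) := by
  apply clt_core T measurable_T (dL a b) (measurable_dL a b) GG T_mem (|a| + 2 * |b|)
    (fun e ζ hζ => abs_dL_le a b e ζ hζ) (fun ζ hζ => sum_dL a b ζ hζ) ξ hξ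
  filter_upwards [h11, h12, h22] with w h11 h12 h22
  have e : ∀ n : ℕ, birkhoffSum (skew T)
      (fun p => (Fintype.card (Fin 2 × Bool) : ℝ)⁻¹ * ∑ e, dL a b e p.1 ^ 2) n (ξ, w) / n =
      a ^ 2 * (birkhoffSum (skew T) (fun p => cv dH dH p.1) n (ξ, w) / n) +
      (2 * a * b * (birkhoffSum (skew T) (fun p => cv dH dM p.1) n (ξ, w) / n) +
      b ^ 2 * (birkhoffSum (skew T) (fun p => cv dM dM p.1) n (ξ, w) / n)) := by
    intro n
    simp_rw [cv_dL]
    rw [bs_add, bs_add, bs_mul, bs_mul, bs_mul]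
    ring
  simp_rw [e]
  exact (h11.const_mul _).add ((h12.const_mul _).add (h22.const_mul _))

/-- The error term. -/
lemma err_bound {ξ : Cf} {c ρ : ℝ} (hc : 0 < c)
    (h1 : ∀ ε > 0, ∃ K, 0 ≤ K ∧ ∀ s : ℤ, |coc eta ξ s - c * s| ≤ ε * |(s : ℝ)| + K)
    (h2 : ∀ ε > 0, ∃ K, 0 ≤ K ∧ ∀ s : ℤ, |coc fl1 ξ s - ρ * s| ≤ ε * |(s : ℝ)| + K)
    (a b : ℝ) {ε : ℝ} (hε : 0 < ε) :
    ∃ K, 0 ≤ K ∧ ∀ s : ℤ,
      |(a * c + b * ρ / 3) * s - a * coc eta ξ s - b * (coc fl1 ξ s / 3)| ≤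
        ε * |coc eta ξ s| + K := by
  set A : ℝ := |a| + |b| / 3 + 1 with hA
  have hApos : 0 < A := by positivity
  set ε1 : ℝ := min (c / 2) (ε * c / (2 * A)) with hε1
  have hε1pos : 0 < ε1 := lt_min (by linarith) (by positivity)
  have hε1c : ε1 ≤ c / 2 := min_le_left _ _
  have hε1A : A * ε1 ≤ ε * c / 2 := by
    have := min_le_right (c / 2) (ε * c / (2 * A))
    rw [← hε1] at this
    calc A * ε1 ≤ A * (ε * c / (2 * A)) := by gcongr
      _ = ε * c / 2 := by field_simp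
  obtain ⟨K1, hK1, b1⟩ := h1 ε1 hε1pos
  obtain ⟨K2, hK2, b2⟩ := h2 ε1 hε1pos
  refine ⟨ε * K1 + A * (K1 + K2), by positivity, fun s => ?_⟩
  have c1 := b1 s
  have c2 := b2 s
  have hs : 0 ≤ |(s : ℝ)| := abs_nonneg _
  have h3 : c * |(s : ℝ)| ≤ |coc eta ξ s| + (ε1 * |(s : ℝ)| + K1) := by
    have : |c * (s : ℝ)| ≤ |coc eta ξ s| + |coc eta ξ s - c * s| := by
      have := abs_sub_abs_le_abs_sub (c * (s : ℝ)) (coc eta ξ s)
      rw [abs_sub_comm] at this
      linarith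
    rw [abs_mul, abs_of_pos hc] at this
    linarith
  have h4 : c / 2 * |(s : ℝ)| ≤ |coc eta ξ s| + K1 := by nlinarith
  have e : (a * c + b * ρ / 3) * s - a * coc eta ξ s - b * (coc fl1 ξ s / 3) =
      -(a * (coc eta ξ s - c * s)) - b / 3 * (coc fl1 ξ s - ρ * s) := by ring
  rw [e]
  have h5 : |-(a * (coc eta ξ s - c * s)) - b / 3 * (coc fl1 ξ s - ρ * s)| ≤
      |a| * |coc eta ξ s - c * s| + |b| / 3 * |coc fl1 ξ s - ρ * s| := by
    refine (abs_sub _ _).trans ?_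
    rw [abs_neg, abs_mul, abs_mul, abs_div, abs_of_pos (by norm_num : (0 : ℝ) < 3)]
  have h6 : |a| * |coc eta ξ s - c * s| ≤ |a| * (ε1 * |(s : ℝ)| + K1) := by gcongr
  have h7 : |b| / 3 * |coc fl1 ξ s - ρ * s| ≤ |b| / 3 * (ε1 * |(s : ℝ)| + K2) := by gcongr
  have h8 : |a| * (ε1 * |(s : ℝ)| + K1) + |b| / 3 * (ε1 * |(s : ℝ)| + K2) ≤
      A * ε1 * |(s : ℝ)| + A * (K1 + K2) := by
    have ha := abs_nonneg a
    have hb := abs_nonneg b
    have e1 : 0 ≤ ε1 * |(s : ℝ)| := by positivity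
    have e2 : A * ε1 * |(s : ℝ)| + A * (K1 + K2) -
        (|a| * (ε1 * |(s : ℝ)| + K1) + |b| / 3 * (ε1 * |(s : ℝ)| + K2)) =
        ε1 * |(s : ℝ)| + (|b| / 3 + 1) * K1 + (|a| + 1) * K2 := by
      rw [hA]; ring
    have e3 : 0 ≤ (|b| / 3 + 1) * K1 + (|a| + 1) * K2 := by positivity
    linarith
  have h9 : A * ε1 * |(s : ℝ)| ≤ ε * (|coc eta ξ s| + K1) := by
    calc A * ε1 * |(s : ℝ)| ≤ ε * c / 2 * |(s : ℝ)| := by gcongr
      _ = ε * (c / 2 * |(s : ℝ)|) := by ring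
      _ ≤ ε * (|coc eta ξ s| + K1) := by gcongr
  linarith

lemma norm_exp_sub_le (x y : ℝ) :
    ‖Complex.exp (Complex.I * (x : ℂ)) - Complex.exp (Complex.I * (y : ℂ))‖ ≤ |x - y| := by
  have e : Complex.exp (Complex.I * (x : ℂ)) - Complex.exp (Complex.I * (y : ℂ)) =
      Complex.exp (Complex.I * (y : ℂ)) * (Complex.exp (Complex.I * ((x - y : ℝ) : ℂ)) - 1) := by
    rw [mul_sub, ← Complex.exp_add, mul_one]
    congr 2
    push_cast; ring
  rw [e, norm_mul]
  have h1 : ‖Complex.exp (Complex.I * (y : ℂ))‖ = 1 := by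
    rw [mul_comm]; exact Complex.norm_exp_ofReal_mul_I y
  rw [h1, one_mul]
  have := Real.norm_exp_I_mul_ofReal_sub_one_le (x := x - y)
  simpa [Real.norm_eq_abs] using this

/-! ### The limit theorem -/

/-- The speed of `H`. -/
def cc (μ : Measure Cf) : ℝ := ∫ ξ, eta ξ ∂μ

/-- The density of flips. -/
def rho (μ : Measure Cf) : ℝ := ∫ ξ, fl1 ξ ∂μ

/-- The coefficient of `H` in the linear form `t`. -/
def aa (μ : Measure Cf) (t0 t1 : ℝ) : ℝ := (t0 / 2 - (t1 - t0 / 2) * rho μ / 3) / cc μ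

lemma SS_cast (n : ℕ) (p : Cf × (ℕ → Fin 2 × Bool)) : ((SS n p : ℤ) : ℝ) =
    birkhoffSum (skew T) (fun p => ((jump (sg (p.2 0)) p.1 : ℤ) : ℝ)) n p := by
  simp [SS, birkhoffSum]

lemma measurable_SS (n : ℕ) : Measurable fun p => ((SS n p : ℤ) : ℝ) := by
  simp_rw [SS_cast]
  exact measurable_bs T measurable_T
    (measurable_step (fun e ξ => ((jump (sg e) ξ : ℤ) : ℝ)) fun e =>
      (measurable_from_top (f := fun n : ℤ => (n : ℝ))).comp (measurable_jump _)) n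

lemma measurable_YY (n : ℕ) : Measurable (YY n) :=
  measurable_bs T measurable_T (measurable_step dY measurable_dY) n

lemma dL_path (a b : ℝ) (n : ℕ) (p : Cf × (ℕ → Fin 2 × Bool)) :
    birkhoffSum (skew T) (fun p => dL a b (p.2 0) p.1) n p =
      a * coc eta p.1 (SS n p) + b * (YY n p + coc fl1 p.1 (SS n p) / 3) := by
  have e : (fun p : Cf × (ℕ → Fin 2 × Bool) => dL a b (p.2 0) p.1) =
      fun p => a * dH (p.2 0) p.1 + b * (dY (p.2 0) p.1 + 3⁻¹ * dN (p.2 0) p.1) := by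
    funext p; unfold dL dM; ring
  rw [e, bs_add, bs_mul, bs_mul, bs_add, bs_mul, coc_path, coc_path, YY]
  unfold dH dN
  ring

lemma integral_abs_H_le {ξ : Cf} (hξ : ξ ∈ GG) {n : ℕ} (hn : 0 < n) :
    Integrable (fun w => |coc eta ξ (SS n (ξ, w))|) NW ∧
    ∫ w, |coc eta ξ (SS n (ξ, w))| ∂NW ≤ √n := by
  have hb : ∀ z ∈ GG, ∀ w : ℕ → Fin 2 × Bool, |(fun p : Cf × (ℕ → Fin 2 × Bool) =>
      dH (p.2 0) p.1) (z, w)| ≤ 1 := fun z hz w => abs_dH_le _ hz
  have i1 : Integrable (fun w => birkhoffSum (skew T) (fun p => dH (p.2 0) p.1) n (ξ, w)) NW :=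
    integrable_bs T measurable_T (measurable_step dH measurable_dH) GG T_mem 1 hb n ξ hξ
  have i2 : Integrable (fun w => birkhoffSum (skew T) (fun p => dH (p.2 0) p.1) n (ξ, w) ^ 2)
      NW :=
    integrable_bs_sq T measurable_T (measurable_step dH measurable_dH) GG T_mem 1 hb n ξ hξ
  have h2 : ∫ w, (birkhoffSum (skew T) (fun p => dH (p.2 0) p.1) n (ξ, w)) ^ 2 ∂NW ≤
      n * (1 : ℝ) ^ 2 :=
    second_moment T measurable_T dH measurable_dH GG T_mem 1 (fun e z hz => abs_dH_le e hz)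
      (fun z hz => sum_dH hz) ξ hξ n
  have e : ∀ w, coc eta ξ (SS n (ξ, w)) =
      birkhoffSum (skew T) (fun p => dH (p.2 0) p.1) n (ξ, w) := fun w => coc_path eta n (ξ, w)
  simp_rw [e]
  refine ⟨i1.abs, ?_⟩
  have hs : 0 < √(n : ℝ) := Real.sqrt_pos.2 (by exact_mod_cast hn)
  have hss : √(n : ℝ) * √(n : ℝ) = n := Real.mul_self_sqrt (by positivity)
  have hpt : ∀ x : ℝ, |x| ≤ (x ^ 2 / √n + √n) / 2 := by
    intro x
    have h3 : 0 ≤ (|x| - √n) ^ 2 := sq_nonneg _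
    have h4 : |x| * √n ≤ (x ^ 2 + n) / 2 := by
      rw [← sq_abs x]; nlinarith
    have h5 : (x ^ 2 / √n + √n) / 2 = ((x ^ 2 + n) / 2) / √n := by
      rw [div_div, div_add' _ _ _ hs.ne', div_div, hss]
      ring
    rw [h5, le_div_iff₀ hs]
    exact h4
  calc ∫ w, |birkhoffSum (skew T) (fun p => dH (p.2 0) p.1) n (ξ, w)| ∂NW
      ≤ ∫ w, (birkhoffSum (skew T) (fun p => dH (p.2 0) p.1) n (ξ, w) ^ 2 / √n + √n) / 2 ∂NW := by
        apply integral_mono i1.abs (((i2.div_const _).add (integrable_const _)).div_const _)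
        intro w
        exact hpt _
    _ = ((∫ w, birkhoffSum (skew T) (fun p => dH (p.2 0) p.1) n (ξ, w) ^ 2 ∂NW) / √n + √n) / 2 := by
        rw [integral_div, integral_add (i2.div_const _) (integrable_const _), integral_div]
        simp
    _ ≤ (n * (1 : ℝ) ^ 2 / √n + √n) / 2 := by gcongr
    _ = √n := by
        rw [one_pow, mul_one]
        nth_rewrite 1 [← hss]
        rw [mul_div_assoc, div_self hs.ne']
        ring

theorem path_clt {μ : Measure Cf} [IsProbabilityMeasure μ] (hμ : Ergodic (sh 1) μ)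
    (hG : ∀ᵐ ξ ∂μ, Good ξ) :
    ∀ᵐ ξ ∂(Pc μ), ∀ t0 t1 : ℝ, Tendsto (fun n : ℕ => ∫ w, Complex.exp (Complex.I *
        (((t0 / 2 * SS n (ξ, w) + (t1 - t0 / 2) * YY n (ξ, w)) / √n : ℝ) : ℂ)) ∂NW) atTop
      (𝓝 (Complex.exp (-(var2 μ (aa μ t0 t1) (t1 - t0 / 2) / 2 : ℝ)))) := by
  have hρ : 0 < rho μ := fl1_int_pos hμ.toMeasurePreserving hG
  have hc : 0 < cc μ := by
    have := speed_ge hμ.toMeasurePreserving hG
    unfold rho at hρ
    unfold cc
    linarith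
  have m11 := path_average hμ hG (f := cv dH dH) (measurable_cv measurable_dH measurable_dH)
    (C := 1 * 1) (fun ξ h => abs_cv_le (fun e => abs_dH_le e h) (fun e => abs_dH_le e h))
  have m12 := path_average hμ hG (f := cv dH dM) (measurable_cv measurable_dH measurable_dM)
    (C := 1 * 2) (fun ξ h => abs_cv_le (fun e => abs_dH_le e h) (fun e => abs_dM_le e h))
  have m22 := path_average hμ hG (f := cv dM dM) (measurable_cv measurable_dM measurable_dM)
    (C := 2 * 2) (fun ξ h => abs_cv_le (fun e => abs_dM_le e h) (fun e => abs_dM_le e h))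
  have l1 := ae_Pc_of_ae (lln hμ measurable_eta abs_eta_le)
  have l2 := ae_Pc_of_ae (lln hμ measurable_fl1 abs_fl1_le)
  filter_upwards [m11, m12, m22, l1, l2, ae_GG hG] with ξ m11 m12 m22 l1 l2 hξ t0 t1
  set a := aa μ t0 t1 with ha
  set b := t1 - t0 / 2 with hb
  have hab : a * cc μ + b * rho μ / 3 = t0 / 2 := by
    rw [ha, aa, ← hb]; field_simp; ring
  have hmain := mart_clt (μ := μ) hξ m11 m12 m22 a b
  have hdiff : Tendsto (fun n : ℕ => (∫ w, Complex.exp (Complex.I *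
        (((t0 / 2 * SS n (ξ, w) + b * YY n (ξ, w)) / √n : ℝ) : ℂ)) ∂NW) -
      ∫ w, Complex.exp (Complex.I *
        ((birkhoffSum (skew T) (fun p => dL a b (p.2 0) p.1) n (ξ, w) / √n : ℝ) : ℂ)) ∂NW)
      atTop (𝓝 0) := by
    rw [Metric.tendsto_atTop]
    intro ε hε
    obtain ⟨K, hK, hbd⟩ := err_bound (ρ := rho μ) hc l1 l2 a b (ε := ε / 2) (by positivity)
    rw [hab] at hbd
    have hK0 : Tendsto (fun n : ℕ => K / √(n : ℝ)) atTop (𝓝 0) :=
      Tendsto.div_atTop tendsto_const_nhds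
        (Real.tendsto_sqrt_atTop.comp tendsto_natCast_atTop_atTop)
    rw [Metric.tendsto_atTop] at hK0
    obtain ⟨N0, hN0⟩ := hK0 (ε / 2) (by positivity)
    refine ⟨max N0 1, fun n hn => ?_⟩
    have hn0 : N0 ≤ n := (le_max_left _ _).trans hn
    have hn1 : 0 < n := (le_max_right N0 1).trans hn
    have hs : 0 < √(n : ℝ) := Real.sqrt_pos.2 (by exact_mod_cast hn1)
    obtain ⟨iH, bH⟩ := integral_abs_H_le hξ hn1
    have hKn := hN0 n hn0
    rw [Real.dist_eq, sub_zero, abs_of_nonneg (by positivity)] at hKn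
    rw [dist_zero_right]
    have meas1 : Measurable fun w => (t0 / 2 * (SS n (ξ, w) : ℝ) + b * YY n (ξ, w)) / √n :=
      ((((measurable_SS n).comp measurable_prodMk_left).const_mul _).add
        (((measurable_YY n).comp measurable_prodMk_left).const_mul _)).div_const _
    have meas2 : Measurable fun w =>
        birkhoffSum (skew T) (fun p => dL a b (p.2 0) p.1) n (ξ, w) / √n :=
      ((measurable_bs T measurable_T (measurable_step (dL a b) (measurable_dL a b)) n).comp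
        measurable_prodMk_left).div_const _
    have hint : ∀ f : (ℕ → Fin 2 × Bool) → ℝ, Measurable f →
        Integrable (fun w => Complex.exp (Complex.I * ((f w : ℝ) : ℂ))) NW := by
      intro f hf
      refine Integrable.of_bound (C := 1) ?_ (ae_of_all _ fun w => ?_)
      · exact (Complex.measurable_exp.comp
          ((Complex.measurable_ofReal.comp hf).const_mul Complex.I)).aestronglyMeasurable
      · rw [mul_comm, Complex.norm_exp_ofReal_mul_I]
    rw [← integral_sub (hint _ meas1) (hint _ meas2)]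
    calc ‖∫ w, (Complex.exp (Complex.I *
            (((t0 / 2 * SS n (ξ, w) + b * YY n (ξ, w)) / √n : ℝ) : ℂ)) -
          Complex.exp (Complex.I *
            ((birkhoffSum (skew T) (fun p => dL a b (p.2 0) p.1) n (ξ, w) / √n : ℝ) : ℂ))) ∂NW‖
        ≤ ∫ w, (ε / 2 * |coc eta ξ (SS n (ξ, w))| + K) / √n ∂NW := by
          apply norm_integral_le_of_norm_le
            (((iH.const_mul _).add (integrable_const _)).div_const _)
          refine ae_of_all _ fun w => ?_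
          refine (norm_exp_sub_le _ _).trans ?_
          rw [dL_path, ← sub_div, abs_div, abs_of_pos hs]
          have h3 := hbd (SS n (ξ, w))
          have e3 : t0 / 2 * (SS n (ξ, w) : ℝ) + b * YY n (ξ, w) -
              (a * coc eta ξ (SS n (ξ, w)) + b * (YY n (ξ, w) + coc fl1 ξ (SS n (ξ, w)) / 3)) =
              t0 / 2 * (SS n (ξ, w) : ℝ) - a * coc eta ξ (SS n (ξ, w)) -
                b * (coc fl1 ξ (SS n (ξ, w)) / 3) := by ring
          simp only [e3]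
          gcongr
          exact h3
      _ = (ε / 2 * (∫ w, |coc eta ξ (SS n (ξ, w))| ∂NW) + K) / √n := by
          rw [integral_div, integral_add (iH.const_mul _) (integrable_const _),
            integral_const_mul]
          simp
      _ ≤ (ε / 2 * √n + K) / √n := by gcongr
      _ = ε / 2 + K / √n := by field_simp
      _ < ε := by linarith
  have := hdiff.add hmain
  simpa using this

end

end Pool.Agent.RWPP
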