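import Pool.Agent.Lib_MP_68f671_pr.Defs

/-!
Random ergodic theorem: the skew product over independent uniform letters is ergodic as soon as
one of the maps is.
-/

open MeasureTheory ProbabilityTheory Filter Topology
open scoped ENNReal

namespace Pool.Agent.RWPP

noncomputable section

/-- prepend a letter -/
def consW {E : Type*} (p : E × (ℕ → E)) : ℕ → E := fun n => Nat.casesOn n p.1 p.2

@[simp] theorem consW_zero {E : Type*} (p : E × (ℕ → E)) : consW p 0 = p.1 := rfl

@[simp] theorem consW_succ {E : Type*} (p : E × (ℕ → E)) (n : ℕ) :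
    consW p (n + 1) = p.2 n := rfl

theorem measurable_consW {E : Type*} [MeasurableSpace E] :
    Measurable (consW : E × (ℕ → E) → (ℕ → E)) := by
  refine measurable_pi_lambda _ fun n => ?_
  cases n with
  | zero => exact measurable_fst
  | succ n => exact (measurable_pi_apply n).comp measurable_snd

theorem infinitePi_cons {E : Type*} [MeasurableSpace E] (ν : Measure E)
    [IsProbabilityMeasure ν] :
    (Measure.infinitePi fun _ : ℕ => ν) =
      (ν.prod (Measure.infinitePi fun _ : ℕ => ν)).map consW := by
  classical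
  symm
  apply Measure.eq_infinitePi
  intro s t ht
  -- reduce to an initial segment
  obtain ⟨N, hN⟩ : ∃ N, s ⊆ Finset.range (N + 1) :=
    ⟨s.sup id, fun i hi => Finset.mem_range.mpr (Nat.lt_succ_of_le (Finset.le_sup (f := id) hi))⟩
  set t' : ℕ → Set E := fun i => if i ∈ s then t i else Set.univ with ht'
  have ht'm : ∀ i, MeasurableSet (t' i) := by
    intro i
    simp only [ht']
    split_ifs
    · exact ht i
    · exact MeasurableSet.univ
  have h1 : Set.pi (s : Set ℕ) t = Set.pi (Finset.range (N + 1) : Set ℕ) t' := by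
    ext x
    simp only [Set.mem_pi, Finset.mem_coe, ht']
    constructor
    · intro h i _
      by_cases hi : i ∈ s
      · rw [if_pos hi]; exact h i hi
      · rw [if_neg hi]; trivial
    · intro h i hi
      have := h i (hN hi)
      rwa [if_pos hi] at this
  have h2 : ∏ i ∈ s, ν (t i) = ∏ i ∈ Finset.range (N + 1), ν (t' i) := by
    rw [← Finset.prod_subset hN]
    · exact Finset.prod_congr rfl fun i hi => by simp [ht', hi]
    · intro i _ hi
      simp [ht', hi]
  rw [h1, h2, Finset.prod_range_succ', mul_comm]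
  rw [Measure.map_apply measurable_consW
    (MeasurableSet.pi (Finset.countable_toSet _) fun i _ => ht'm i)]
  have h3 : consW ⁻¹' (Set.pi (Finset.range (N + 1) : Set ℕ) t') =
      t' 0 ×ˢ Set.pi (Finset.range N : Set ℕ) (fun i => t' (i + 1)) := by
    ext p
    simp only [Set.mem_preimage, Set.mem_pi, Finset.mem_coe, Finset.mem_range, Set.mem_prod]
    constructor
    · intro h
      exact ⟨h 0 (Nat.succ_pos N), fun i hi => h (i + 1) (Nat.succ_lt_succ hi)⟩
    · rintro ⟨h0, h⟩ i hi
      cases i with
      | zero => exact h0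
      | succ i => exact h i (Nat.lt_of_succ_lt_succ hi)
  rw [h3, Measure.prod_prod, Measure.infinitePi_pi _ (fun i _ => ht'm (i + 1))]

section fin

variable {E : Type*} [Fintype E] [Nonempty E] [MeasurableSpace E] [MeasurableSingletonClass E]

theorem lintegral_unif (f : E → ℝ≥0∞) :
    ∫⁻ e, f e ∂(unif E) = (Fintype.card E : ℝ≥0∞)⁻¹ * ∑ e, f e := by
  rw [lintegral_fintype, Finset.mul_sum]
  refine Finset.sum_congr rfl fun e _ => ?_
  rw [unif, PMF.toMeasure_apply_singleton _ _ (measurableSet_singleton e),
    PMF.uniformOfFintype_apply, mul_comm]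

/-- the law of the words -/
abbrev NN (E : Type*) [Fintype E] [Nonempty E] [MeasurableSpace E] : Measure (ℕ → E) :=
  Measure.infinitePi fun _ : ℕ => unif E

theorem NN_apply {C : Set (ℕ → E)} (hC : MeasurableSet C) :
    NN E C = (Fintype.card E : ℝ≥0∞)⁻¹ * ∑ e, NN E {w | consW (e, w) ∈ C} := by
  have h := congrArg (fun m : Measure (ℕ → E) => m C) (infinitePi_cons (unif E))
  simp only at h
  rw [show NN E C = _ from h, Measure.map_apply measurable_consW hC,
    Measure.prod_apply (measurable_consW hC), lintegral_unif]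
  rfl

theorem lintegral_NN {F : (ℕ → E) → ℝ≥0∞} (hF : Measurable F) :
    ∫⁻ w, F w ∂(NN E) = (Fintype.card E : ℝ≥0∞)⁻¹ * ∑ e, ∫⁻ w, F (consW (e, w)) ∂(NN E) := by
  conv_lhs => rw [NN, infinitePi_cons (unif E)]
  rw [lintegral_map hF measurable_consW,
    lintegral_prod (fun p => F (consW p)) (hF.comp measurable_consW).aemeasurable,
    lintegral_unif]

omit [MeasurableSpace E] [MeasurableSingletonClass E] in
theorem card_ne_zero' : (Fintype.card E : ℝ≥0∞) ≠ 0 := by
  exact_mod_cast Fintype.card_ne_zero

omit [Nonempty E] [MeasurableSpace E] [MeasurableSingletonClass E] in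
theorem card_ne_top' : (Fintype.card E : ℝ≥0∞) ≠ ∞ := ENNReal.natCast_ne_top _

variable {α : Type*} [MeasurableSpace α]

omit [Nonempty E] in
theorem measurable_skew {T : E → α → α} (hT : ∀ e, Measurable (T e)) : Measurable (skew T) := by
  have h1 : Measurable (Function.uncurry T) := measurable_from_prod_countable_right hT
  have h2 : Measurable fun p : α × (ℕ → E) => ((p.2 0, p.1) : E × α) :=
    ((measurable_pi_apply 0).comp measurable_snd).prodMk measurable_fst
  refine (h1.comp h2).prodMk ?_
  exact measurable_pi_lambda _ fun n => (measurable_pi_apply (n + 1)).comp measurable_snd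

omit [Fintype E] [Nonempty E] [MeasurableSpace E] [MeasurableSingletonClass E] [MeasurableSpace α] in
theorem skew_consW (T : E → α → α) (z : α) (e : E) (w : ℕ → E) :
    skew T (z, consW (e, w)) = (T e z, w) := rfl

/-- measure of the section of `skew⁻¹ B` -/
theorem section_skew {T : E → α → α} (hT : ∀ e, Measurable (T e)) {B : Set (α × (ℕ → E))}
    (hB : MeasurableSet B) (z : α) :
    NN E (Prod.mk z ⁻¹' (skew T ⁻¹' B)) =
      (Fintype.card E : ℝ≥0∞)⁻¹ * ∑ e, NN E (Prod.mk (T e z) ⁻¹' B) := by
  rw [NN_apply (measurable_prodMk_left (measurable_skew hT hB))]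
  rfl

theorem skew_measurePreserving {P : Measure α} [IsProbabilityMeasure P] {T : E → α → α}
    (hT : ∀ e, MeasurePreserving (T e) P P) :
    MeasurePreserving (skew T) (P.prod (NN E)) (P.prod (NN E)) := by
  have hTm : ∀ e, Measurable (T e) := fun e => (hT e).measurable
  refine ⟨measurable_skew hTm, ?_⟩
  ext B hB
  rw [Measure.map_apply (measurable_skew hTm) hB,
    Measure.prod_apply (measurable_skew hTm hB), Measure.prod_apply hB]
  have hBm : Measurable fun z => NN E (Prod.mk z ⁻¹' B) := measurable_measure_prodMk_left hB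
  have h1 : ∀ e, ∫⁻ z, NN E (Prod.mk (T e z) ⁻¹' B) ∂P = ∫⁻ z, NN E (Prod.mk z ⁻¹' B) ∂P :=
    fun e => (hT e).lintegral_comp hBm
  calc ∫⁻ z, NN E (Prod.mk z ⁻¹' (skew T ⁻¹' B)) ∂P
      = ∫⁻ z, (Fintype.card E : ℝ≥0∞)⁻¹ * ∑ e, NN E (Prod.mk (T e z) ⁻¹' B) ∂P :=
        lintegral_congr fun z => section_skew hTm hB z
    _ = (Fintype.card E : ℝ≥0∞)⁻¹ * ∑ e, ∫⁻ z, NN E (Prod.mk (T e z) ⁻¹' B) ∂P := by
        have hm : ∀ e, Measurable fun z => NN E (Prod.mk (T e z) ⁻¹' B) :=
          fun e => hBm.comp (hTm e)
        rw [lintegral_const_mul _ (Finset.measurable_fun_sum _ fun e _ => hm e),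
          lintegral_finsetSum _ fun e _ => hm e]
    _ = ∫⁻ z, NN E (Prod.mk z ⁻¹' B) ∂P := by
        rw [Finset.sum_congr rfl fun e _ => h1 e, Finset.sum_const, Finset.card_univ, nsmul_eq_mul,
          ← mul_assoc, ENNReal.inv_mul_cancel card_ne_zero' card_ne_top', one_mul]

/-- a function equal to its average is invariant -/
theorem ae_invariant {P : Measure α} [IsProbabilityMeasure P] {T : E → α → α}
    (hT : ∀ e, MeasurePreserving (T e) P P) {a : α → ℝ} (ha : Measurable a)
    (hb : ∀ z, |a z| ≤ 1) (hav : ∀ z, a z = (Fintype.card E : ℝ)⁻¹ * ∑ e, a (T e z)) (e : E) :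
    a ∘ T e =ᵐ[P] a := by
  have hbd : ∀ {f : α → ℝ}, Measurable f → (∀ z, |f z| ≤ 1) → Integrable f P := by
    intro f hf hfb
    exact Integrable.of_bound hf.aestronglyMeasurable 1 (Eventually.of_forall hfb)
  have hTm : ∀ e, Measurable (T e) := fun e => (hT e).measurable
  have hsq : ∀ z, |a z ^ 2| ≤ 1 := by
    intro z
    rw [abs_pow]
    exact pow_le_one₀ (abs_nonneg _) (hb z)
  have i1 : Integrable (fun z => a z ^ 2) P := hbd (ha.pow_const 2) hsq
  have i2 : ∀ e, Integrable (fun z => a (T e z) ^ 2) P := fun e =>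
    hbd ((ha.comp (hTm e)).pow_const 2) fun z => hsq _
  have i3 : ∀ e, Integrable (fun z => a z * a (T e z)) P := fun e =>
    hbd (ha.mul (ha.comp (hTm e))) fun z => by
      rw [abs_mul]
      exact mul_le_one₀ (hb z) (abs_nonneg _) (hb _)
  have hc : (0 : ℝ) < Fintype.card E := by exact_mod_cast Fintype.card_pos
  have e1 : ∀ e, ∫ z, a (T e z) ^ 2 ∂P = ∫ z, a z ^ 2 ∂P := by
    intro e
    have h := integral_map (μ := P) (hTm e).aemeasurable (f := fun z => a z ^ 2)
      (ha.pow_const 2).aestronglyMeasurable
    rw [(hT e).map_eq] at h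
    exact h.symm
  have hg : ∀ z, ∑ e, (a (T e z) - a z) ^ 2 =
      ∑ e, a (T e z) ^ 2 - (Fintype.card E : ℝ) * a z ^ 2 := by
    intro z
    have h1 : ∑ e, a (T e z) = Fintype.card E * a z := by
      rw [hav z, ← mul_assoc, mul_inv_cancel₀ hc.ne', one_mul]
    have h2 : ∀ e, (a (T e z) - a z) ^ 2 = a (T e z) ^ 2 - 2 * a z * a (T e z) + a z ^ 2 :=
      fun e => by ring
    simp only [h2, Finset.sum_add_distrib, Finset.sum_sub_distrib, ← Finset.mul_sum, h1,
      Finset.sum_const, Finset.card_univ, nsmul_eq_mul]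
    ring
  have i4 : Integrable (fun z => ∑ e, a (T e z) ^ 2) P := integrable_finsetSum _ fun e _ => i2 e
  have i5 : Integrable (fun z => ∑ e, (a (T e z) - a z) ^ 2) P := by
    simp only [hg]
    exact i4.sub (i1.const_mul _)
  have e2 : ∫ z, ∑ e, (a (T e z) - a z) ^ 2 ∂P = 0 := by
    simp only [hg]
    rw [integral_sub i4 (i1.const_mul _), integral_finsetSum _ fun e _ => i2 e,
      integral_const_mul, Finset.sum_congr rfl fun e _ => e1 e, Finset.sum_const,
      Finset.card_univ, nsmul_eq_mul, sub_self]
  have e3 := (integral_eq_zero_iff_of_nonneg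
    (fun z => Finset.sum_nonneg fun e _ => sq_nonneg _) i5).mp e2
  filter_upwards [e3] with z hz
  have h4 := (Finset.sum_eq_zero_iff_of_nonneg fun e _ => sq_nonneg (a (T e z) - a z)).mp hz e
    (Finset.mem_univ e)
  have h5 := pow_eq_zero_iff (two_ne_zero) |>.mp h4
  simp only [Function.comp_apply]
  linarith

/-- `C` depends on the first `n` letters -/
def Dep (n : ℕ) (C : Set (ℕ → E)) : Prop :=
  ∀ w w' : ℕ → E, (∀ i < n, w i = w' i) → (w ∈ C ↔ w' ∈ C)

theorem skew_ergodic {P : Measure α} [IsProbabilityMeasure P]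
    (T : E → α → α) (hT : ∀ e, MeasurePreserving (T e) P P) (e₀ : E)
    (he : Ergodic (T e₀) P) :
    Ergodic (skew T) (P.prod (Measure.infinitePi fun _ : ℕ => unif E)) := by
  refine ⟨skew_measurePreserving hT, ⟨fun A hA hAinv => ?_⟩⟩
  have hTm : ∀ e, Measurable (T e) := fun e => (hT e).measurable
  set a : α → ℝ≥0∞ := fun z => NN E (Prod.mk z ⁻¹' A) with ha
  have ham : Measurable a := measurable_measure_prodMk_left hA
  have hav : ∀ z, a z = (Fintype.card E : ℝ≥0∞)⁻¹ * ∑ e, a (T e z) := by
    intro z
    have := section_skew hTm hA z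
    rwa [hAinv] at this
  have ha1 : ∀ z, a z ≤ 1 := fun z => prob_le_one
  have hatop : ∀ z, a z ≠ ∞ := fun z => ne_top_of_le_ne_top ENNReal.one_ne_top (ha1 z)
  have har : ∀ e, (fun z => (a z).toReal) ∘ T e =ᵐ[P] fun z => (a z).toReal := by
    intro e
    refine ae_invariant hT ham.ennreal_toReal (fun z => ?_) (fun z => ?_) e
    · rw [abs_of_nonneg ENNReal.toReal_nonneg]
      have := ENNReal.toReal_mono ENNReal.one_ne_top (ha1 z)
      simpa using this
    · rw [hav z, ENNReal.toReal_mul, ENNReal.toReal_inv, ENNReal.toReal_natCast,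
        ENNReal.toReal_sum fun e _ => hatop _]
  obtain ⟨c, hc⟩ := he.ae_eq_const_of_ae_eq_comp_ae (g := fun z => (a z).toReal)
    ham.ennreal_toReal.aestronglyMeasurable (har e₀)
  set cc : ℝ≥0∞ := ENNReal.ofReal c with hcc
  have hac : ∀ᵐ z ∂P, a z = cc := by
    filter_upwards [hc] with z hz
    have hz' : (a z).toReal = c := hz
    rw [hcc, ← hz', ENNReal.ofReal_toReal (hatop z)]
  -- independence of the word
  have key : ∀ n : ℕ, ∀ C : Set (ℕ → E), MeasurableSet C → Dep n C →
      ∀ᵐ z ∂P, NN E (Prod.mk z ⁻¹' A ∩ C) = cc * NN E C := by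
    intro n
    induction n with
    | zero =>
      intro C _ hC
      by_cases hne : C.Nonempty
      · obtain ⟨w, hw⟩ := hne
        have : C = Set.univ := by
          ext w'
          simp only [Set.mem_univ, iff_true]
          exact (hC w w' (by intro i hi; omega)).mp hw
        rw [this]
        filter_upwards [hac] with z hz
        rw [Set.inter_univ, measure_univ, mul_one]
        exact hz
      · rw [Set.not_nonempty_iff_eq_empty.mp hne]
        simp
    | succ n ih =>
      intro C hCm hC
      have hCe : ∀ e, MeasurableSet {w | consW (e, w) ∈ C} := fun e =>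
        (measurable_consW.comp measurable_prodMk_left) hCm
      have hDe : ∀ e, Dep n {w | consW (e, w) ∈ C} := by
        intro e w w' h
        refine hC _ _ fun i hi => ?_
        cases i with
        | zero => rfl
        | succ i => exact h i (by omega)
      have h1 : ∀ᵐ z ∂P, ∀ e, NN E (Prod.mk (T e z) ⁻¹' A ∩ {w | consW (e, w) ∈ C}) =
          cc * NN E {w | consW (e, w) ∈ C} := by
        rw [ae_all_iff]
        intro e
        exact (hT e).quasiMeasurePreserving.ae (ih _ (hCe e) (hDe e))
      filter_upwards [h1] with z hz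
      have hm : MeasurableSet (Prod.mk z ⁻¹' A ∩ C) := (measurable_prodMk_left hA).inter hCm
      rw [NN_apply hm, NN_apply hCm, mul_left_comm]
      refine congrArg (fun x => (Fintype.card E : ℝ≥0∞)⁻¹ * x) ?_
      rw [Finset.mul_sum]
      refine Finset.sum_congr rfl fun e _ => ?_
      rw [← hz e]
      refine congrArg (NN E) ?_
      ext w
      simp only [Set.mem_ofPred_eq, Set.mem_inter_iff, Set.mem_preimage]
      have : (z, consW (e, w)) ∈ A ↔ (T e z, w) ∈ A := by
        conv_lhs => rw [← hAinv]
        rfl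
      rw [this]
  have hcyl : ∀ C ∈ measurableCylinders (fun _ : ℕ => E), ∀ᵐ z ∂P,
      NN E (Prod.mk z ⁻¹' A ∩ C) = cc * NN E C := by
    intro C hC
    have hCm : MeasurableSet C := MeasurableSet.of_mem_measurableCylinders hC
    obtain ⟨s, S, hS, rfl⟩ := (mem_measurableCylinders C).mp hC
    refine key (s.sup id + 1) _ hCm ?_
    intro w w' h
    simp only [mem_cylinder]
    have : s.restrict w = s.restrict w' := by
      funext i
      exact h i (Nat.lt_succ_of_le (Finset.le_sup (f := id) i.2))
    rw [this]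
  have hfin : (cc • P).prod (NN E) = (P.prod (NN E)).restrict A := by
    have : IsFiniteMeasure (cc • P) := ⟨by
      rw [Measure.smul_apply, measure_univ, smul_eq_mul, mul_one]
      exact ENNReal.ofReal_lt_top⟩
    refine Measure.prod_eq_generateFrom (C := {s | MeasurableSet s})
      (D := measurableCylinders fun _ : ℕ => E) MeasurableSpace.generateFrom_measurableSet
      generateFrom_measurableCylinders MeasurableSpace.isPiSystem_measurableSet isPiSystem_measurableCylinders
      (Measure.toFiniteSpanningSetsIn _)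
      ⟨fun _ => Set.univ, fun _ => univ_mem_measurableCylinders _, fun _ => measure_lt_top _ _,
        Set.iUnion_const _⟩ ?_
    intro S hS C hC
    have hCm : MeasurableSet C := MeasurableSet.of_mem_measurableCylinders hC
    rw [Measure.restrict_apply (hS.prod hCm), Measure.prod_apply ((hS.prod hCm).inter hA),
      Measure.smul_apply, smul_eq_mul]
    calc ∫⁻ z, NN E (Prod.mk z ⁻¹' (S ×ˢ C ∩ A)) ∂P
        = ∫⁻ z, S.indicator (fun _ => cc * NN E C) z ∂P := by
          refine lintegral_congr_ae ?_
          filter_upwards [hcyl C hC] with z hz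
          by_cases hzS : z ∈ S
          · rw [Set.indicator_of_mem hzS, ← hz]
            congr 1
            ext w
            simp [hzS, and_comm]
          · rw [Set.indicator_of_notMem hzS]
            have : Prod.mk z ⁻¹' (S ×ˢ C ∩ A) = ∅ := by
              ext w
              simp [hzS]
            rw [this, measure_empty]
      _ = cc * P S * NN E C := by
          rw [lintegral_indicator_const hS]
          ring
  have hA1 : P.prod (NN E) A = cc := by
    have h := congrArg (fun m : Measure (α × (ℕ → E)) => m Set.univ) hfin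
    simp only [Measure.restrict_apply MeasurableSet.univ, Set.univ_inter] at h
    rw [← h, ← Set.univ_prod_univ, Measure.prod_prod, Measure.smul_apply, measure_univ,
      measure_univ, smul_eq_mul, mul_one, mul_one]
  have hA2 : cc * cc = cc := by
    have h := congrArg (fun m : Measure (α × (ℕ → E)) => m A) hfin
    simp only [Measure.restrict_apply hA, Set.inter_self] at h
    rw [Measure.prod_smul_left, Measure.smul_apply, smul_eq_mul, hA1] at h
    exact h
  have hcc' : cc = 0 ∨ cc = 1 := by
    by_cases h0 : cc = 0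
    · exact Or.inl h0
    · right
      have h2 : cc ≠ ∞ := ENNReal.ofReal_ne_top
      have := (ENNReal.mul_eq_left h0 h2).mp hA2
      exact this
  rw [eventuallyConst_set']
  rcases hcc' with h | h
  · left
    rw [ae_eq_empty, ← h]
    exact hA1
  · right
    rw [ae_eq_univ, prob_compl_eq_zero_iff hA, ← h]
    exact hA1

end fin

end

end Pool.Agent.RWPP
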