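import Pool.Agent.Lib_MP_68f671_pr.Lln
import Pool.Agent.Lib_MP_68f671_pr.Induced
import Pool.Agent.Lib_MP_68f671_pr.Skew

/-!
# The walk on a one-dimensional configuration
-/

open MeasureTheory ProbabilityTheory Filter Topology
open scoped ENNReal

namespace Pool.Agent.RWPP

noncomputable section

/-! ### The increments -/

/-- Increment of the harmonic coordinate `H`. -/
def dH (e : Fin 2 × Bool) (ξ : Cf) : ℝ := coc eta ξ (jump (sg e) ξ)

/-- Increment of the number of flips. -/
def dN (e : Fin 2 × Bool) (ξ : Cf) : ℝ := coc fl1 ξ (jump (sg e) ξ)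

/-- Increment of the second coordinate. -/
def dY (e : Fin 2 × Bool) (ξ : Cf) : ℝ := if e.1 = 1 then (jump (sg e) ξ : ℝ) else 0

/-- Increment of the second harmonic coordinate. -/
def dM (e : Fin 2 × Bool) (ξ : Cf) : ℝ := dY e ξ + dN e ξ / 3

/-- The good environments with a point at the origin. -/
def GG : Set Cf := {ξ | Good ξ ∧ ξ 0 = true}

lemma Good.land {ξ : Cf} (h : Good ξ) (h0 : ξ 0 = true) :
    ξ (jump 1 ξ) = true ∧ ξ (jump 2 ξ) = true := by
  by_cases h1 : ξ 1 = true
  · obtain ⟨j1, j2⟩ := h.jump_flip h0 h1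
    rw [j1, j2]
    refine ⟨h1, ?_⟩
    have := (h.shift 1).rr_mem.2
    simp only [sh_apply] at this
    rw [show (rr (sh 1 ξ) : ℤ) + 2 = rr (sh 1 ξ) + 1 + 1 by ring]
    exact this
  · have h1' : ξ 1 = false := by simpa using h1
    obtain ⟨j1, j2⟩ := h.jump_nonflip h1'
    rw [j1, j2]
    have h2 : ξ 2 = true := by
      rcases h.1 1 with h' | h'
      · exact absurd h' h1
      · simpa using h'
    exact ⟨h2, h2⟩

lemma Good.land' {ξ : Cf} (h : Good ξ) (h0 : ξ 0 = true) :
    ξ (jump (-1) ξ) = true ∧ ξ (jump (-2) ξ) = true := by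
  have := h.reverse.land (by simpa using h0)
  rw [jump_neg, jump_neg]
  exact this

@[simp] lemma sg_00 : sg (0, true) = 2 := by simp [sg]
@[simp] lemma sg_01 : sg (0, false) = -2 := by simp [sg]
@[simp] lemma sg_10 : sg (1, true) = 1 := by simp [sg]
@[simp] lemma sg_11 : sg (1, false) = -1 := by simp [sg]

lemma forall_dir {p : Fin 2 × Bool → Prop} (h1 : p (0, true)) (h2 : p (0, false))
    (h3 : p (1, true)) (h4 : p (1, false)) : ∀ e, p e := by
  rintro ⟨i, b⟩
  fin_cases i <;> cases b
  · exact h2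
  · exact h1
  · exact h4
  · exact h3

lemma T_mem (e : Fin 2 × Bool) (ξ : Cf) (h : ξ ∈ GG) : T e ξ ∈ GG := by
  obtain ⟨h, h0⟩ := h
  refine ⟨h.shift _, ?_⟩
  simp only [T, sh_apply, zero_add]
  obtain ⟨a1, a2⟩ := h.land h0
  obtain ⟨a3, a4⟩ := h.land' h0
  revert e
  apply forall_dir
  · simpa using a2
  · simpa using a4
  · simpa using a1
  · simpa using a3

lemma sum_dir (f : Fin 2 × Bool → ℝ) :
    ∑ e, f e = f (0, true) + f (0, false) + f (1, true) + f (1, false) := by
  rw [Fintype.sum_prod_type, Fin.sum_univ_two, Fintype.sum_bool, Fintype.sum_bool]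
  ring

lemma sum_dH {ξ : Cf} (h : ξ ∈ GG) : ∑ e, dH e ξ = 0 := by
  obtain ⟨h, h0⟩ := h
  have a := (h.right h0).1
  have b := (h.left h0).1
  rw [sum_dir]
  simp only [dH, sg_00, sg_01, sg_10, sg_11]
  linarith

lemma sum_dM {ξ : Cf} (h : ξ ∈ GG) : ∑ e, dM e ξ = 0 := by
  obtain ⟨h, h0⟩ := h
  have a := (h.right h0).2.2.2.1
  have b := (h.left h0).2.2.2.1
  rw [sum_dir]
  simp only [dM, dN, dY, sg_00, sg_01, sg_10, sg_11]
  norm_num
  linarith

lemma abs_dH_le (e : Fin 2 × Bool) {ξ : Cf} (h : ξ ∈ GG) : |dH e ξ| ≤ 1 := by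
  obtain ⟨h, h0⟩ := h
  obtain ⟨-, a1, a2, -⟩ := h.right h0
  obtain ⟨-, b1, b2, -⟩ := h.left h0
  revert e
  apply forall_dir
  · simpa [dH] using a2
  · simpa [dH] using b2
  · simpa [dH] using a1
  · simpa [dH] using b1

lemma abs_dM_le (e : Fin 2 × Bool) {ξ : Cf} (h : ξ ∈ GG) : |dM e ξ| ≤ 2 := by
  obtain ⟨h, h0⟩ := h
  obtain ⟨-, -, -, -, a1, a2⟩ := h.right h0
  obtain ⟨-, -, -, -, b1, b2⟩ := h.left h0
  revert e
  apply forall_dir
  · simp only [dM, dY, dN, sg_00]; norm_num; linarith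
  · simp only [dM, dY, dN, sg_01]; norm_num; linarith
  · simpa [dM, dY, dN] using a1
  · simpa [dM, dY, dN] using b1

/-! ### Measurability -/

lemma measurable_tau (σ : ℤ) : Measurable (tau σ) := by
  apply measurable_sInf_nat
  intro k
  exact (MeasurableSet.const _).inter (measurableSet_site _)

lemma measurable_jump (σ : ℤ) : Measurable (jump σ) :=
  (measurable_from_top (f := fun n : ℕ => σ * (n : ℤ))).comp (measurable_tau σ)

lemma measurable_T (e : Fin 2 × Bool) : Measurable (T e) :=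
  measurable_sh_comp (measurable_jump (sg e))

lemma measurable_coc {g : Cf → ℝ} (hg : Measurable g) (s : ℤ) : Measurable fun ξ => coc g ξ s := by
  obtain ⟨n, rfl | rfl⟩ := s.eq_nat_or_neg
  · simp only [coc_natCast]
    exact Finset.measurable_sum _ fun i _ => hg.comp (measurable_sh i)
  · rcases n with _ | n
    · simp
    · have : (-((n + 1 : ℕ) : ℤ)) = -((n : ℤ) + 1) := by push_cast; ring
      rw [this]
      simp only [coc_neg_succ]
      exact (Finset.measurable_sum _ fun i _ => hg.comp (measurable_sh _)).neg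

lemma measurable_coc_jump {g : Cf → ℝ} (hg : Measurable g) (σ : ℤ) :
    Measurable fun ξ => coc g ξ (jump σ ξ) := by
  have h : Measurable fun p : ℤ × Cf => coc g p.2 p.1 :=
    measurable_from_prod_countable_right fun s => measurable_coc hg s
  exact h.comp ((measurable_jump σ).prodMk measurable_id)

lemma measurable_dH (e : Fin 2 × Bool) : Measurable (dH e) :=
  measurable_coc_jump measurable_eta _

lemma measurable_dN (e : Fin 2 × Bool) : Measurable (dN e) :=
  measurable_coc_jump measurable_fl1 _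

lemma measurable_dY (e : Fin 2 × Bool) : Measurable (dY e) := by
  unfold dY
  split_ifs
  · exact (measurable_from_top (f := fun n : ℤ => (n : ℝ))).comp (measurable_jump _)
  · exact measurable_const

lemma measurable_dM (e : Fin 2 × Bool) : Measurable (dM e) :=
  (measurable_dY e).add ((measurable_dN e).div_const 3)

/-! ### The law of the environment seen from a point -/

/-- The configurations with a point at the origin. -/
def U0 : Set Cf := {ξ | ξ 0 = true}

lemma measurableSet_U0 : MeasurableSet U0 := measurableSet_site 0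

/-- The conditional law given a point at the origin. -/
def Pc (μ : Measure Cf) : Measure Cf := μ[|U0]

lemma mp_sh {μ : Measure Cf} (hμ : Ergodic (sh 1) μ) (s : ℤ) :
    MeasurePreserving (sh s) μ μ := by
  obtain ⟨n, rfl | rfl⟩ := s.eq_nat_or_neg
  · have := hμ.toMeasurePreserving.iterate n
    have e : (sh 1)^[n] = sh (n : ℤ) := by
      funext ξ; rw [sh_iterate]; simp
    rwa [e] at this
  · have := (ergodic_sh_neg hμ).toMeasurePreserving.iterate n
    have e : (sh (-1))^[n] = sh (-(n : ℤ)) := by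
      funext ξ; rw [sh_iterate]; simp
    rwa [e] at this

lemma mp_T_restrict {μ : Measure Cf} [IsProbabilityMeasure μ] (hμ : Ergodic (sh 1) μ)
    (e : Fin 2 × Bool) : MeasurePreserving (T e) (μ.restrict U0) (μ.restrict U0) := by
  have := induced_measurePreserving (mp_sh hμ (sg e)) (mp_sh hμ (-sg e))
    (fun ξ => by rw [sh_sh]; simp) (fun ξ => by rw [sh_sh]; simp) measurableSet_U0
  convert this using 1
  funext ξ
  rw [sh_iterate, T, jump, tau]
  congr 3
  apply congrArg
  ext k
  simp only [Set.mem_ofPred_eq, sh_iterate, U0, sh_apply, zero_add]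

lemma mp_T {μ : Measure Cf} [IsProbabilityMeasure μ] (hμ : Ergodic (sh 1) μ)
    (e : Fin 2 × Bool) : MeasurePreserving (T e) (Pc μ) (Pc μ) := by
  unfold Pc ProbabilityTheory.cond
  exact (mp_T_restrict hμ e).smul_measure _

lemma U0_pos {μ : Measure Cf} [IsProbabilityMeasure μ] (hμ : Ergodic (sh 1) μ)
    (hG : ∀ᵐ ξ ∂μ, Good ξ) : μ U0 ≠ 0 := by
  intro h0
  have h1 := fl1_int_pos hμ.toMeasurePreserving hG
  have h2 : ∀ᵐ ξ ∂μ, fl1 ξ = 0 := by
    have : ∀ᵐ ξ ∂μ, ξ ∉ U0 := measure_eq_zero_iff_ae_notMem.1 h0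
    filter_upwards [this] with ξ hξ
    rw [fl1, if_neg]
    intro hf
    exact hξ hf.1
  rw [integral_congr_ae (g := fun _ => (0 : ℝ)) h2] at h1
  simp at h1

lemma ae_Pc_of_ae {μ : Measure Cf} {p : Cf → Prop} (h : ∀ᵐ ξ ∂μ, p ξ) : ∀ᵐ ξ ∂(Pc μ), p ξ := by
  unfold Pc
  exact ProbabilityTheory.cond_absolutelyContinuous.ae_le h

lemma ae_GG {μ : Measure Cf} [IsProbabilityMeasure μ] (hG : ∀ᵐ ξ ∂μ, Good ξ) :
    ∀ᵐ ξ ∂(Pc μ), ξ ∈ GG := by
  have h1 : ∀ᵐ ξ ∂(Pc μ), ξ ∈ U0 := ae_cond_mem measurableSet_U0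
  filter_upwards [ae_Pc_of_ae hG, h1] with ξ h h0
  exact ⟨h, h0⟩

/-- The next-point map is ergodic. -/
lemma ergodic_T {μ : Measure Cf} [IsProbabilityMeasure μ] (hμ : Ergodic (sh 1) μ)
    (hG : ∀ᵐ ξ ∂μ, Good ξ) : Ergodic (T (1, true)) (Pc μ) := by
  refine ⟨mp_T hμ _, ⟨fun s hs hs' => ?_⟩⟩
  set s' : Set Cf := (U0 ∩ s) ∪ (U0ᶜ ∩ sh (-1) ⁻¹' s) with hs'def
  have hms : MeasurableSet s' := (measurableSet_U0.inter hs).union
    (measurableSet_U0.compl.inter (measurable_sh (-1) hs))
  have hT : ∀ ζ, ζ ∈ s ↔ T (1, true) ζ ∈ s := by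
    intro ζ
    conv_lhs => rw [← hs']
    rfl
  have hinv : sh 1 ⁻¹' s' =ᵐ[μ] s' := by
    have : ∀ᵐ ξ ∂μ, (ξ ∈ sh 1 ⁻¹' s' ↔ ξ ∈ s') := by
      filter_upwards [hG] with ξ h
      have hcan : sh (-1) (sh 1 ξ) = ξ := by rw [sh_sh]; simp
      by_cases h0 : ξ 0 = true
      · have hl : ξ ∈ s' ↔ ξ ∈ s := by
          simp only [hs'def, Set.mem_union, Set.mem_inter_iff, Set.mem_compl_iff, U0,
            Set.mem_ofPred_eq, h0, true_and, not_true_eq_false, false_and, or_false]
        by_cases h1 : ξ 1 = true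
        · have hr : sh 1 ξ ∈ s' ↔ sh 1 ξ ∈ s := by
            simp only [hs'def, Set.mem_union, Set.mem_inter_iff, Set.mem_compl_iff, U0,
              Set.mem_ofPred_eq, sh_apply, zero_add, h1, true_and, not_true_eq_false, false_and,
              or_false]
          rw [Set.mem_preimage, hl, hr, hT ξ, T, sg_10, (h.jump_flip h0 h1).1]
        · have h1' : ξ 1 = false := by simpa using h1
          have hr : sh 1 ξ ∈ s' ↔ ξ ∈ s := by
            simp only [hs'def, Set.mem_union, Set.mem_inter_iff, Set.mem_compl_iff, U0,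
              Set.mem_ofPred_eq, sh_apply, zero_add, h1', Set.mem_preimage, hcan]
            simp
          rw [Set.mem_preimage, hl, hr]
      · have h0' : ξ 0 = false := by simpa using h0
        have h1 : ξ 1 = true := by
          rcases h.1 0 with h' | h'
          · exact absurd h' h0
          · simpa using h'
        have hm1 : ξ (-1) = true := by
          rcases h.1 (-1) with h' | h'
          · exact h'
          · simp at h'; exact absurd h' h0
        have hr : sh 1 ξ ∈ s' ↔ sh 1 ξ ∈ s := by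
          simp only [hs'def, Set.mem_union, Set.mem_inter_iff, Set.mem_compl_iff, U0,
            Set.mem_ofPred_eq, sh_apply, zero_add, h1, true_and, not_true_eq_false, false_and,
            or_false]
        have hl : ξ ∈ s' ↔ sh (-1) ξ ∈ s := by
          simp only [hs'def, Set.mem_union, Set.mem_inter_iff, Set.mem_compl_iff, U0,
            Set.mem_ofPred_eq, h0', Set.mem_preimage]
          simp
        have hj : jump 1 (sh (-1) ξ) = 2 := ((h.shift (-1)).jump_nonflip (by simpa using h0')).1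
        rw [Set.mem_preimage, hl, hr, hT (sh (-1) ξ), T, sg_10, hj, sh_sh]
        norm_num
    exact Filter.eventuallyEq_set.2 this
  have hc : Pc μ ≪ μ.restrict U0 := by
    unfold Pc ProbabilityTheory.cond
    exact Measure.smul_absolutelyContinuous
  rcases hμ.quasiErgodic.ae_empty_or_univ₀ hms.nullMeasurableSet hinv with h | h
  · rw [eventuallyConst_set]
    right
    have key : ∀ᵐ ξ ∂(μ.restrict U0), ξ ∉ s := by
      rw [ae_restrict_iff' measurableSet_U0]
      filter_upwards [h.mem_iff] with ξ hξ hU hs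
      have : ξ ∈ s' := Or.inl ⟨hU, hs⟩
      exact (hξ.1 this)
    exact hc.ae_le key
  · rw [eventuallyConst_set]
    left
    have key : ∀ᵐ ξ ∂(μ.restrict U0), ξ ∈ s := by
      rw [ae_restrict_iff' measurableSet_U0]
      filter_upwards [h.mem_iff] with ξ hξ hU
      have h3 : ξ ∈ s' := hξ.2 (Set.mem_univ _)
      rcases h3 with h3 | h3
      · exact h3.2
      · exact absurd hU h3.1
    exact hc.ae_le key

/-! ### Path sums -/

/-- The one-dimensional position after `n` steps. -/
def SS (n : ℕ) (p : Cf × (ℕ → Fin 2 × Bool)) : ℤ :=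
  birkhoffSum (skew T) (fun p => jump (sg (p.2 0)) p.1) n p

lemma skew_iterate_fst (n : ℕ) (p : Cf × (ℕ → Fin 2 × Bool)) :
    ((skew T)^[n] p).1 = sh (SS n p) p.1 := by
  induction n with
  | zero => simp [SS]
  | succ n ih =>
    rw [Function.iterate_succ_apply', SS, birkhoffSum_succ, ← SS]
    set q := (skew T)^[n] p with hq
    change T (q.2 0) q.1 = _
    rw [T, ih, sh_sh]
    congr 1; ring

lemma coc_path (g : Cf → ℝ) (n : ℕ) (p : Cf × (ℕ → Fin 2 × Bool)) :
    coc g p.1 (SS n p) =
      birkhoffSum (skew T) (fun p => coc g p.1 (jump (sg (p.2 0)) p.1)) n p := by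
  induction n with
  | zero => simp [SS]
  | succ n ih =>
    rw [birkhoffSum_succ, SS, birkhoffSum_succ, ← SS, coc_add, ih, ← skew_iterate_fst]

end

end Pool.Agent.RWPP
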